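import Mathlib
import Pool.Agent.Lib.MP_aa9ae4_nt.L1.SpecC

/-!
MP_aa9ae4_nt, Theorem U: upper bounds of the conjectured order for `0 < k < 1`
(method of Heap, Radziwiłł and Soundararajan). Definitions, rules and notation of L1/SpecA, SpecB, SpecC:
`L = log T`, `ℓ = log log T`, `n = nI T + 1` blocks `B_i = Bl η T i`, `K_i = Kb C1 i`, `M_i = m K_i`.

Plan. On the good set `gs T` (`IsGs`), with `x = ‖ζ(1/2+it)‖`, `y = ‖ζ(σ+iat)‖`: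
`1 ≤ e ∑_S (‖AZ_S‖²)^k (‖AS_S‖²)^(1-k)` (`S_Upd`), hence by Hölder (integral and sum over `S`)
`∫_gs (x/y^β)^(2k) ≤ e (∑_S ∫ x² ‖AZ_S‖²)^k (∑_S ∫_gs ‖AS_S‖² y^(-2kβ/(1-k)))^(1-k)`.
-/

namespace Pool.Agent.Lib.MP_aa9ae4_nt.U1

open Finset MeasureTheory Filter Topology
open Complex (I)
open Pool.Agent.Lib.MP_aa9ae4_nt.L1
open Pool.Agent.Lib.MP_aa9ae4_nt.S1 (pw psumS eulS tail prs nn KK expJ HT fzS y1)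

/-- coefficients: type `N(k-1)` on the blocks in `S`, type Q (the same as in `fS`) on the other blocks -/
noncomputable def fZ (k : ℝ) (m : ℕ) (C1 : ℝ) (S : Finset ℕ) (i r : ℕ) : ℝ :=
  if i ∈ S then (if r ≤ Kb C1 i then (k - 1) ^ r else 0)
  else (if r = m * Kb C1 i then (ck k / (Kb C1 i : ℝ)) ^ r * (r.factorial : ℝ) else 0)

/-- the polynomial with the coefficients `fZ` -/
noncomputable def AZ (k : ℝ) (m : ℕ) (C1 η : ℝ) (S : Finset ℕ) (T t : ℝ) : ℂ :=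
  MB (nI T + 1) (Bl η T) (fun i => m * Kb C1 i) (fZ k m C1 S) (fun p => pw (1 / 2) p t)

/-- **Pointwise inequality in one block.**

Uses `S1.pTay`; the proof is that of `pPnt` (file L1/PPnt.lean). Case 1, `‖x‖ ≤ K/(20(k+1))`: for `α = k, k-1`
`expJ K (αx) = exp(αx)(1+ε)`, `‖ε‖ ≤ e^(-0.9K)`; as `2k(k-1) + 2(1-k)k = 0` the product of the two powers is
`‖1+ε₁‖^(2k) ‖1+ε₂‖^(2(1-k)) ≥ (1-e^(-0.9K))^2`, and `(1+e^(-K/2))(1-e^(-0.9K))^2 ≥ 1` for `K ≥ K0` (absolute).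
Case 2, `‖x‖ > K/(20(k+1))`: `ck k ‖x‖/K > 6 ≥ 1` (`ck k = 120(k+1)`), so the last term is `≥ 1`. About 80 lines. -/
def S_Upt : Prop :=
  ∀ (k : ℝ) (m : ℕ), 0 < k → k < 1 → ∃ K0 : ℕ, ∀ K : ℕ, K0 ≤ K → 1 ≤ K → ∀ x : ℂ,
    1 ≤ (1 + Real.exp (-(K : ℝ) / 2)) * ((‖expJ K (((k - 1 : ℝ) : ℂ) * x)‖ ^ 2) ^ k *
        (‖expJ K ((k : ℂ) * x)‖ ^ 2) ^ (1 - k)) + (ck k * ‖x‖ / K) ^ (2 * (m * K))

/-- **The product inequality.**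

Uses `S_Upt`; the proof is that of `pPrd` (file L1/PPrd.lean). `P_i = ∑_{p∈B_i} pw (1/2) p t`.
`‖AS k m C1 η S T t‖^2 = ∏_{i∈S} ‖expJ K_i (k P_i)‖^2 ∏_{i∉S} b_i`, `b_i = (ck ‖P_i‖/K_i)^(2M_i)`, and in the same way
`‖AZ k m C1 η S T t‖^2 = ∏_{i∈S} ‖expJ K_i ((k-1) P_i)‖^2 ∏_{i∉S} b_i` (products over `i < n`). So the term of `S` is
`∏_{i∈S} (‖expJ((k-1)P_i)‖^2)^k (‖expJ(k P_i)‖^2)^(1-k) ∏_{i∉S} b_i` (`b^k b^(1-k) = b` for `b ≥ 0`, also for `b = 0`), and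
`1 ≤ ∏_i (a_i + b_i) = ∑_S ∏_{i∈S} a_i ∏_{i∉S} b_i` (`Finset.prod_add`) with the extra factor
`∏_{i∈S} (1+e^(-K_i/2)) ≤ exp(∑ e^(-K_i/2)) ≤ e` (`K_i ≥ C1 e^(i/2) ≥ 8 + 4i` for `C1 ≥ 8`). About 120 lines. -/
def S_Upd : Prop :=
  ∀ (k : ℝ) (m : ℕ), 0 < k → k < 1 → 1 ≤ m → ∃ C10 : ℝ, ∀ C1 : ℝ, C10 ≤ C1 → ∀ η T t : ℝ,
    1 ≤ Real.exp 1 * ∑ S ∈ (range (nI T + 1)).powerset,
      (‖AZ k m C1 η S T t‖ ^ 2) ^ k * (‖AS k m C1 η S T t‖ ^ 2) ^ (1 - k)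

/-- the coefficient of a type Q block -/
noncomputable def zq (q : ℝ) (m K : ℕ) (B : Finset ℕ) (u : ℕ → ℕ) : ℝ :=
  if ∑ p ∈ B, u p = m * K then (q / (K : ℝ)) ^ (m * K) * ((m * K).factorial : ℝ) else 0

/-- **One block of type Q in the quadratic form.**

Proof. `R = mK`; `zq ≤ (q/K)^R R^R = (qm)^R` and for `y > 0` `zq(u) ≤ (qm/y)^R y^(deg u)`. So the first sum is at most
`(qm/y)^(2R) ∑_{u,v} lq y B u v ≤ (qm/y)^(2R) ∏_p ∑_{a,b≤R} y^(a+b)/(a!b!) p^(-max(a,b)) ≤ (qm/y)^(2R) exp(e^(2y) ∑ 1/p)`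
(file L1/PQfb.lean: `qfb_sum`, `qfb_big`, `qfb_ll`; these are private there, copy them). In the second sum `u`, `v` have degree
`R`, so `ll ≤ 2R log X ≤ e^(2R) log X`. Take `y = e^3 q m`: `(e qm/y)^(2R) = e^(-4R) ≤ e^(-4K)`. `C = e^(2y)`. -/
def S_Uqb : Prop :=
  ∀ (q : ℝ) (m : ℕ), 1 ≤ q → 1 ≤ m → ∃ C : ℝ, 1 ≤ C ∧ ∀ (B : Finset ℕ) (K : ℕ) (X : ℝ),
    (∀ p ∈ B, p.Prime) → 1 ≤ K → 1 ≤ X → (∀ p ∈ B, (p : ℝ) ≤ X) →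
    |∑ u ∈ KK B (m * K), ∑ v ∈ KK B (m * K), zq q m K B u * zq q m K B v * lq 1 B u v| ≤
      Real.exp (-(4 * K : ℝ) + C * ∑ p ∈ B, (p : ℝ)⁻¹) ∧
    |∑ u ∈ KK B (m * K), ∑ v ∈ KK B (m * K), zq q m K B u * zq q m K B v * lq 1 B u v * ll B u v| ≤
      Real.log X * Real.exp (-(4 * K : ℝ) + C * ∑ p ∈ B, (p : ℝ)⁻¹)

/-- **The quadratic forms, mixed types.**

Uses `S_Bk`, `S_Fac`, `S_Qfb`, `S_Uqb`, `S_Mt`; the proof is that of `pQff` (file L1/PQff.lean), with `R i = m K_i`. The term of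
`u`, `v` is `∏_i G_i(u,v)`: for `i ∈ S` it is `lq (k-1) (B i) u v` if both degrees on `B i` are `≤ K_i`, else 0, and its sum over
`KK (B i) (m K_i)` is the sum of `S_Qfb` with `K = K_i` (`KK (B i) K_i ⊆ KK (B i) (m K_i)`); for `i ∉ S` it is
`zq (ck k) m K_i (B i) u * zq .. v * lq 1 (B i) u v` (`S_Uqb`). Block sums: for `i ∈ S`
`|β_i| ≤ exp(νV_i + C V₂ᵢ)(1+exp(-K_i/2))`, `|β'_i| ≤ C (log x_i + 1) exp(νV_i)` as in `pQff`; for `i ∉ S`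
`|β_i| ≤ exp(-4K_i + CV_i) ≤ exp(-2K_i) exp(νV_i)` and `|β'_i| ≤ log x_i exp(-2K_i) exp(νV_i)`, because `V_i ≤ C0 e^(i/2)`,
`K_i ≥ C1 e^(i/2)` and `C1` is large (`ν = k²-1 ≥ -1`; `|ν| ≤ k²+1`). Then
`∏_i |β_i| ≤ C' exp(ν ∑ V_i) ∏_{i∉S} exp(-K_i)` and the second form as in `pQff`. About 300 lines. -/
def S_Uqf : Prop :=
  ∀ (k C0 : ℝ) (m : ℕ), 0 < k → MertC C0 → 1 ≤ m → ∃ C10 : ℝ, ∀ C1 η : ℝ, C10 ≤ C1 → 0 < η → η ≤ 1 →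
    ∃ C : ℝ, 0 < C ∧ ∀ᶠ T : ℝ in atTop, ∀ S : Finset ℕ,
    |∑ u ∈ VK (nI T + 1) (Bl η T) (fun i => m * Kb C1 i),
      ∑ v ∈ VK (nI T + 1) (Bl η T) (fun i => m * Kb C1 i),
      cf (nI T + 1) (Bl η T) (fZ k m C1 S) u * cf (nI T + 1) (Bl η T) (fZ k m C1 S) v *
        ((Nat.gcd (nQ (nI T + 1) (Bl η T) u) (nQ (nI T + 1) (Bl η T) v) : ℝ) /
          (nQ (nI T + 1) (Bl η T) u * nQ (nI T + 1) (Bl η T) v))| ≤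
      C * Real.log T ^ (k ^ 2 - 1) * ∏ i ∈ range (nI T + 1) \ S, Real.exp (-(Kb C1 i : ℝ)) ∧
    |∑ u ∈ VK (nI T + 1) (Bl η T) (fun i => m * Kb C1 i),
      ∑ v ∈ VK (nI T + 1) (Bl η T) (fun i => m * Kb C1 i),
      cf (nI T + 1) (Bl η T) (fZ k m C1 S) u * cf (nI T + 1) (Bl η T) (fZ k m C1 S) v *
        ((Nat.gcd (nQ (nI T + 1) (Bl η T) u) (nQ (nI T + 1) (Bl η T) v) : ℝ) /
          (nQ (nI T + 1) (Bl η T) u * nQ (nI T + 1) (Bl η T) v)) *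
        Real.log (nQ (nI T + 1) (Bl η T) u * nQ (nI T + 1) (Bl η T) v /
          (Nat.gcd (nQ (nI T + 1) (Bl η T) u) (nQ (nI T + 1) (Bl η T) v) : ℝ) ^ 2)| ≤
      C * Real.log T ^ (k ^ 2) * ∏ i ∈ range (nI T + 1) \ S, Real.exp (-(Kb C1 i : ℝ))

/-- **Second moments of `ζ AZ_S`, summed over `S`.**

Uses `S_Bk`, `S_Sz2`, `S_Exd`, `S_Tsm`, `S_Uqf`; `S1.pNn`; the proof is that of `pTz` (file L1/PTz.lean). By `S_Exd` and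
`S1.pNn` (f) `AZ k m C1 η S T t = ∑_{u∈VK} cf (fZ) u pw (1/2) (nQ u) t`. `S_Tsm` with `s = VK`, `Y = T^(5ηmC1) ≤ T^(1/80)`,
`∑|cf u| ≤ T^(6ηmC1)` (`S_Sz2` with `m`; `|fZ i r| ≤ c0^r r!`, `c0 = k + 1 + ck k`):
`∫ ≤ 100 T ((L + c1) BQ - BQL) + C T^(27ηmC1) (1+L)² ≤ C' T L^(k²) ∏_{i∉S} e^(-K_i) + T^(1/2)`. Sum over `S`:
`∑_S ∏_{i∉S} e^(-K_i) = ∏_i (1+e^(-K_i)) ≤ e` (`Finset.prod_add`; `K_i ≥ 8+4i` for `C1 ≥ 8`), and there are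
`2^(nI+1) ≤ 8 ℓ²` sets `S` (`upp_card` in L1/PUpp.lean). About 150 lines. -/
def S_Utz : Prop :=
  ∀ (k C0 : ℝ) (m : ℕ), 0 < k → MertC C0 → 1 ≤ m → ∃ C10 : ℝ, ∀ C1 η : ℝ, C10 ≤ C1 → 0 < η → η ≤ 1 →
    η * m * C1 ≤ 1 / 400 → ∃ C : ℝ, 0 < C ∧ ∀ᶠ T : ℝ in atTop,
    ∑ S ∈ (range (nI T + 1)).powerset,
      ∫ t in T..(2 * T), ‖riemannZeta (1 / 2 + t * I)‖ ^ 2 * ‖AZ k m C1 η S T t‖ ^ 2 ≤
      C * (T * Real.log T ^ (k ^ 2))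

/-- **The moments of `ζ(σ+iat)` against `‖AS_S‖²`, summed over `S`.**

Uses `S_Bk`, `S_Psl`, `S_Weg`, `S_M4`, `S_Wsm`, `S_Fz`, `S_Mt`. This is what the proof of `pUpp` (file L1/PUpp.lean) shows (`hone`,
`hsum` there) without `S_Prd`: copy that file, replace the pointwise bound `hpt` by `‖fzS σ a t‖^r ≤ C3 X t` on `gs T`
(`upp_pow`) and sum over `S ∈ PS`. `C10 = max 1 (3 ck² m C0)`. About 250 lines, nearly all copied. -/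
def S_Ups : Prop :=
  ∀ (k : ℝ) (m : ℕ), 0 < k → 1 ≤ m → ∃ C10 : ℝ, ∀ C1 : ℝ, C10 ≤ C1 → ∀ η : ℝ, 0 < η → η ≤ 1 →
    η * m * C1 ≤ 1 / 400 → ∀ (σ a : ℝ) (Kz : ℕ) (om δ : ℝ) (z : ℝ → ℕ) (gs : ℝ → Set ℝ),
    1 / 2 < σ → σ ≤ 1 → 0 < a → 0 < om → om < 1 → IsGs σ a Kz om δ z gs → ∀ r : ℝ,
    ∃ C : ℝ, 0 < C ∧ ∀ᶠ T : ℝ in atTop,
    ∑ S ∈ (range (nI T + 1)).powerset,
      ∫ t in gs T, ‖AS k m C1 η S T t‖ ^ 2 * ‖fzS σ a t‖ ^ r ≤ C * T * Real.log T ^ (k ^ 2)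

/-- **The upper bound on the good set.**

Uses `S_Mt`, `S_Upd`, `S_Utz`, `S_Ups`. Proof. `m = 1`, `C0` from `S_Mt`, `C1` the maximum of 1 and the three `C10`,
`η = 1/(400 C1)`, `r = -2kβ/(1-k)`. On `gs T` (`y = ‖fzS σ a t‖ > 0` there, since `y ‖eulS‖ ≥ 1/2`; `x = ‖ζ(1/2+it)‖`):
`(x/y^β)^(2k) ≤ e ∑_S (x² ‖AZ_S‖²)^k (‖AS_S‖² y^r)^(1-k)` (`S_Upd`; `y^(-2kβ) = (y^r)^(1-k)`). Hölder for the integral over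
`gs T` with the exponents `1/k`, `1/(1-k)` for each `S` (`integral_mul_le_Lp_mul_Lq_of_nonneg`; as in L1/PLA.lean; everything is
continuous and bounded on `gs T`, `y ≥ 1/(2‖eulS‖)`), the first integral is at most that over `[T,2T]`; then
`∑_S a_S^k b_S^(1-k) ≤ (∑ a_S)^k (∑ b_S)^(1-k)` (`Real.inner_le_Lp_mul_Lq_of_nonneg`). With `S_Utz`, `S_Ups`:
`≤ e (C T L^(k²))^k (C' T L^(k²))^(1-k)`. About 250 lines. -/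
def S_Uho : Prop :=
  ∀ k β : ℝ, 0 < k → k < 1 → ∀ (σ a : ℝ) (Kz : ℕ) (om δ : ℝ) (z : ℝ → ℕ) (gs : ℝ → Set ℝ),
    1 / 2 < σ → σ ≤ 1 → 0 < a → 0 < om → om < 1 → IsGs σ a Kz om δ z gs →
    ∃ C : ℝ, 0 < C ∧ ∀ᶠ T : ℝ in atTop,
    ∫ t in gs T, (‖riemannZeta (1 / 2 + t * I)‖ / ‖fzS σ a t‖ ^ β) ^ (2 * k) ≤
      C * T * Real.log T ^ (k ^ 2)

/-- **Theorem U, truncated form.**

Uses `S_Gs`, `S_Uho`. Proof. `δ₁`, `gs` from `S_Gs`, `δ = δ₁(1-k)/2`. Let `x = ‖ζ(1/2+it)‖`, `y = ‖ζ(σ+iat)‖`. On `gs T` the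
integrand is at most `x^(2k) y^(-2kβ) = (x/y^β)^(2k)` (`y > 0`): `S_Uho`. Outside it is at most `x^(2k) |V T|`; replace `V` by
`max V 0 ≤ T^δ` (`min(u,V) ≤ min(u, max V 0)`), and by Hölder (exponents `1/k`, `1/(1-k)`)
`∫_{bad} x^(2k) ≤ (∫ x²)^k (vol bad)^(1-k) ≤ (2 T L)^k (T^(1-δ₁))^(1-k)` (second moment: `S1.pCf` (d), or any bound
`∫ x² ≤ C T L`), so this part is `≤ C T^(1 - δ₁(1-k)/2) L^k ≤ T`. Measurability and integrability on `[T,2T]`: `x` is continuous,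
`t ↦ y` is continuous for `T > 0` (`σ + iat ≠ 1`), the integrand lies between 0 and `x^(2k) T^δ`. About 200 lines. -/
def S_UT : Prop :=
  ∀ k σ a β : ℝ, 0 < k → k < 1 → 1 / 2 < σ → σ ≤ 1 → 0 < a → ∃ C δ : ℝ, 0 < C ∧ 0 < δ ∧
    ∀ V : ℝ → ℝ, (∀ᶠ T : ℝ in atTop, V T ≤ T ^ δ) → ∀ᶠ T : ℝ in atTop,
      ∫ t in T..(2 * T), ‖riemannZeta (1 / 2 + t * I)‖ ^ (2 * k) *
        min (‖riemannZeta (σ + a * t * I)‖ ^ (-(2 * k * β))) (V T) ≤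
        C * (T * Real.log T ^ (k ^ 2))

/-- **Theorem U for `σ = 1`.**

Uses `S_UT`. Proof. `σ = 1`, `V T = T^δ`. For `T` large and `t ∈ [T,2T]` `‖ζ(1+iat)‖^(-2kβ) ≤ K L^r ≤ T^δ` (the bounds
`zeta_one_upper`, `zeta_one_lower` as in the proof of `fin_bad` in Final.lean, `hZpow`), so the minimum is the first term and
`(x/y^β)^(2k) = x^(2k) y^(-2kβ)`. About 80 lines. -/
def S_U1 : Prop :=
  ∀ k a β : ℝ, 0 < k → k < 1 → 0 < a → ∃ C : ℝ, 0 < C ∧ ∀ᶠ T : ℝ in atTop,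
    ∫ t in T..(2 * T), (‖riemannZeta (1 / 2 + t * I)‖ / ‖riemannZeta (1 + a * t * I)‖ ^ β) ^ (2 * k) ≤
      C * (T * Real.log T ^ (k ^ 2))

end Pool.Agent.Lib.MP_aa9ae4_nt.U1
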