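import Mathlib
import Pool.Agent.Lib.MP_aa9ae4_nt.U1.SpecU
import Pool.Agent.Lib.MP_aa9ae4_nt.L1.PLA
import Pool.Agent.Lib.MP_aa9ae4_nt.Weight

/-!
MP_aa9ae4_nt, Theorem U, truncated form.
-/

set_option autoImplicit false

namespace Pool.Agent.Lib.MP_aa9ae4_nt.U1

open Finset MeasureTheory Filter Topology
open Complex (I)
open Pool.Agent.Lib.MP_aa9ae4_nt
open Pool.Agent.Lib.MP_aa9ae4_nt.L1
open Pool.Agent.Lib.MP_aa9ae4_nt.S1 (pw psumS eulS tail prs nn KK expJ HT fzS y1)

private lemma ut_compact (σ a T : ℝ) (z : ℕ) (ha : 0 < a) (hT : 0 < T) :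
    IsCompact {t ∈ Set.Icc T (2 * T) | 1 / 2 ≤ ‖fzS σ a t‖ * ‖eulS σ 0 z (a * t)‖} := by
  have hc : ContinuousOn (fun t => ‖fzS σ a t‖ * ‖eulS σ 0 z (a * t)‖) (Set.Icc T (2 * T)) :=
    (la_fzS_cont σ a T ha hT).mul
      (((la_eulS_cont σ 0 z).comp (continuous_const.mul continuous_id)).norm.continuousOn)
  have h1 := hc.preimage_isClosed_of_isClosed isClosed_Icc (isClosed_Ici (a := (1 / 2 : ℝ)))
  exact isCompact_Icc.of_isClosed_subset h1 Set.inter_subset_left

private lemma ut_memLp (K G : Set ℝ) (f : ℝ → ℝ) (p : ENNReal) (hK : IsCompact K)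
    (hG : MeasurableSet G) (hGK : G ⊆ K) (hf : ContinuousOn f K) :
    MemLp f p (volume.restrict G) := by
  obtain ⟨C, hC⟩ := hK.exists_bound_of_continuousOn hf
  have : IsFiniteMeasure (volume.restrict G) :=
    ⟨by rw [Measure.restrict_apply_univ]; exact (measure_mono hGK).trans_lt hK.measure_lt_top⟩
  refine MemLp.of_bound ((hf.mono hGK).aestronglyMeasurable hG) C ?_
  filter_upwards [ae_restrict_mem hG] with t ht
  exact hC t (hGK ht)

/-- `∫_G u ^ k ≤ (∫_G u) ^ k (vol G) ^ (1 - k)` -/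
private lemma ut_holder {k : ℝ} (hk : 0 < k) (hk1 : k < 1) (K G : Set ℝ) (u : ℝ → ℝ)
    (hK : IsCompact K) (hG : MeasurableSet G) (hGK : G ⊆ K) (hu : ContinuousOn u K)
    (hu0 : ∀ t, 0 ≤ u t) :
    ∫ t in G, u t ^ k ≤ (∫ t in G, u t) ^ k * (∫ _ in G, (1 : ℝ)) ^ (1 - k) := by
  have hk1' : 0 < 1 - k := by linarith
  have hconj : (1 / k).HolderConjugate (1 / (1 - k)) := by
    rw [Real.holderConjugate_iff]
    refine ⟨by rw [lt_div_iff₀ hk]; linarith, ?_⟩
    rw [one_div, one_div, inv_inv, inv_inv]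
    ring
  have h1 := integral_mul_le_Lp_mul_Lq_of_nonneg (μ := volume.restrict G) hconj
    (f := fun t => u t ^ k) (g := fun _ => (1 : ℝ))
    (Filter.Eventually.of_forall fun t => Real.rpow_nonneg (hu0 t) _)
    (Filter.Eventually.of_forall fun t => zero_le_one)
    (ut_memLp K G _ _ hK hG hGK (hu.rpow_const fun t _ => Or.inr hk.le))
    (ut_memLp K G _ _ hK hG hGK continuousOn_const)
  have h2 : (fun t => (u t ^ k) ^ (1 / k)) = u := funext fun t => by
    rw [← Real.rpow_mul (hu0 t), one_div, mul_inv_cancel₀ hk.ne', Real.rpow_one]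
  rw [h2, one_div_one_div, one_div_one_div] at h1
  simp only [mul_one, Real.one_rpow] at h1
  exact h1

/-- **Theorem U, truncated form.** -/
theorem pUT (hGs : S_Gs) (hUho : S_Uho) : S_UT := by
  intro k σ a β hk hk1 hσ hσ1 ha
  have hk1' : 0 < 1 - k := by linarith
  obtain ⟨Kz, om, δ₁, z, gs, hom, hom1, hδ₁, hδ₁1, hgs⟩ := hGs σ a hσ hσ1 ha
  obtain ⟨C, hC, hU⟩ := hUho k β hk hk1 σ a Kz om δ₁ z gs hσ hσ1 ha hom hom1 hgs
  obtain ⟨δ, hδ⟩ : ∃ δ : ℝ, δ = δ₁ * (1 - k) / 2 := ⟨_, rfl⟩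
  have hδ0 : 0 < δ := by rw [hδ]; positivity
  refine ⟨C + 1, δ, by linarith, hδ0, ?_⟩
  intro V hV
  have hmass := mass_limit.eventually (gt_mem_nhds (show (1 : ℝ) < 2 by norm_num))
  have hlogpow : ∀ᶠ T : ℝ in atTop, (2 * Real.log T) ^ k ≤ T ^ δ := by
    have h1 := (isLittleO_log_rpow_atTop (show (0 : ℝ) < δ / k by positivity)).def
      (show (0 : ℝ) < 1 / 2 by norm_num)
    filter_upwards [h1, eventually_gt_atTop (1 : ℝ)] with T h2 hT1
    have hT0 : 0 < T := by linarith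
    have hL0 : 0 < Real.log T := Real.log_pos hT1
    rw [Real.norm_of_nonneg hL0.le, Real.norm_of_nonneg (by positivity)] at h2
    calc (2 * Real.log T) ^ k ≤ (T ^ (δ / k)) ^ k :=
          Real.rpow_le_rpow (by positivity) (by linarith) hk.le
      _ = T ^ δ := by
          rw [← Real.rpow_mul hT0.le, div_mul_cancel₀ _ hk.ne']
  filter_upwards [hU, hV, hmass, hlogpow, hgs, eventually_gt_atTop (1 : ℝ),
    Real.tendsto_log_atTop.eventually_ge_atTop (1 : ℝ)] with T hUT hVT hMT hLT hgT hT1 hL1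
  obtain ⟨-, -, hGm, hGI, hGv, hGp⟩ := hgT
  have hT0 : 0 < T := by linarith
  have hTle : T ≤ 2 * T := by linarith
  have hlog : 0 < Real.log T := by linarith
  set G := gs T with hG
  set K := {t ∈ Set.Icc T (2 * T) | 1 / 2 ≤ ‖fzS σ a t‖ * ‖eulS σ 0 (z T) (a * t)‖} with hK
  have hKc : IsCompact K := ut_compact σ a T (z T) ha hT0
  have hGK : G ⊆ K := fun t ht => ⟨hGI ht, (hGp t ht).2.1⟩
  have hypos : ∀ t ∈ K, 0 < ‖fzS σ a t‖ := by
    intro t ht
    refine lt_of_le_of_ne (norm_nonneg _) fun h0 => ?_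
    have := ht.2
    rw [← h0, zero_mul] at this
    linarith
  set x : ℝ → ℝ := fun t => ‖riemannZeta (1 / 2 + t * I)‖ with hx
  set y : ℝ → ℝ := fun t => ‖fzS σ a t‖ with hy
  have hx0 : ∀ t, 0 ≤ x t := fun t => norm_nonneg _
  have hy0 : ∀ t, 0 ≤ y t := fun t => norm_nonneg _
  have hxc : Continuous x := fin_cont_half.norm
  have hyc : ContinuousOn y (Set.Icc T (2 * T)) := la_fzS_cont σ a T ha hT0
  have hxk : Continuous fun t => x t ^ (2 * k) := hxc.rpow_const fun t => Or.inr (by positivity)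
  -- the function
  set F : ℝ → ℝ := fun t => x t ^ (2 * k) * min (y t ^ (-(2 * k * β))) (V T) with hF
  have hFeq : ∫ t in T..(2 * T), ‖riemannZeta (1 / 2 + t * I)‖ ^ (2 * k) *
      min (‖riemannZeta (σ + a * t * I)‖ ^ (-(2 * k * β))) (V T) = ∫ t in Set.Icc T (2 * T), F t := by
    rw [intervalIntegral.integral_of_le hTle, ← integral_Icc_eq_integral_Ioc]
    refine integral_congr_ae (Filter.Eventually.of_forall fun t => ?_)
    simp only [hF, hx, hy]
    unfold S1.fzS
    push_cast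
    rfl
  rw [hFeq]
  have hFm : AEStronglyMeasurable F (volume.restrict (Set.Icc T (2 * T))) := by
    refine AEStronglyMeasurable.mul hxk.aestronglyMeasurable ?_
    have h1 : AEStronglyMeasurable (fun t => y t ^ (-(2 * k * β)))
        (volume.restrict (Set.Icc T (2 * T))) :=
      ((hyc.aestronglyMeasurable measurableSet_Icc).aemeasurable.pow_const _).aestronglyMeasurable
    exact h1.inf aestronglyMeasurable_const
  have hmin : ∀ t, |min (y t ^ (-(2 * k * β))) (V T)| ≤ |V T| := by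
    intro t
    have h1 : 0 ≤ y t ^ (-(2 * k * β)) := Real.rpow_nonneg (hy0 t) _
    rw [abs_le]
    refine ⟨?_, (min_le_right _ _).trans (le_abs_self _)⟩
    exact le_min ((neg_nonpos.2 (abs_nonneg _)).trans h1) (neg_abs_le _)
  have hFi : IntegrableOn F (Set.Icc T (2 * T)) := by
    have h1 : IntegrableOn (fun t => x t ^ (2 * k) * |V T|) (Set.Icc T (2 * T)) :=
      (hxk.mul continuous_const).continuousOn.integrableOn_Icc
    refine Integrable.mono' h1 hFm (Filter.Eventually.of_forall fun t => ?_)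
    rw [Real.norm_eq_abs, abs_mul, abs_of_nonneg (Real.rpow_nonneg (hx0 t) _)]
    exact mul_le_mul_of_nonneg_left (hmin t) (Real.rpow_nonneg (hx0 t) _)
  have hsplit : ∫ t in Set.Icc T (2 * T), F t =
      (∫ t in G, F t) + ∫ t in Set.Icc T (2 * T) \ G, F t := by
    have h1 := integral_inter_add_sdiff hGm hFi
    rw [Set.inter_eq_self_of_subset_right hGI] at h1
    exact h1.symm
  -- the good part
  have hgood : ∫ t in G, F t ≤ C * T * Real.log T ^ (k ^ 2) := by
    refine le_trans ?_ hUT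
    have hi : IntegrableOn (fun t => (x t / y t ^ β) ^ (2 * k)) G := by
      have h1 : ContinuousOn (fun t => (x t / y t ^ β) ^ (2 * k)) K := by
        refine ContinuousOn.rpow_const ?_ fun t _ => Or.inr (by positivity)
        refine hxc.continuousOn.div ((hyc.mono fun t ht => ht.1).rpow_const fun t ht =>
          Or.inl (hypos t ht).ne') fun t ht => (Real.rpow_pos_of_pos (hypos t ht) _).ne'
      exact (h1.integrableOn_compact hKc).mono_set hGK
    refine setIntegral_mono_on (hFi.mono_set hGI) hi hGm fun t ht => ?_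
    have hyp : 0 < y t := hypos t (hGK ht)
    have h2 : (x t / y t ^ β) ^ (2 * k) = x t ^ (2 * k) * y t ^ (-(2 * k * β)) := by
      rw [Real.div_rpow (hx0 t) (Real.rpow_nonneg hyp.le _), ← Real.rpow_mul hyp.le,
        Real.rpow_neg hyp.le, div_eq_mul_inv]
      have h3 : β * (2 * k) = 2 * k * β := by ring
      rw [h3]
    rw [h2]
    exact mul_le_mul_of_nonneg_left (min_le_left _ _) (Real.rpow_nonneg (hx0 t) _)
  -- the bad part
  have hBm : MeasurableSet (Set.Icc T (2 * T) \ G) := measurableSet_Icc.diff hGm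
  have hbad1 : ∫ t in Set.Icc T (2 * T) \ G, F t ≤
      T ^ δ * ∫ t in Set.Icc T (2 * T) \ G, (x t ^ 2) ^ k := by
    have hcx : Continuous fun t => T ^ δ * (x t ^ 2) ^ k :=
      continuous_const.mul ((hxc.pow 2).rpow_const fun t => Or.inr hk.le)
    rw [← integral_const_mul]
    refine setIntegral_mono_on (hFi.mono_set Set.sdiff_subset)
      (hcx.continuousOn.integrableOn_Icc.mono_set Set.sdiff_subset) hBm fun t _ => ?_
    have h1 : (x t ^ 2) ^ k = x t ^ (2 * k) := by
      rw [← Real.rpow_natCast, ← Real.rpow_mul (hx0 t)]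
      rfl
    rw [h1, mul_comm (T ^ δ)]
    exact mul_le_mul_of_nonneg_left ((min_le_right _ _).trans hVT) (Real.rpow_nonneg (hx0 t) _)
  have hint2 : ∫ t in Set.Icc T (2 * T) \ G, x t ^ 2 ≤ 2 * (T * Real.log T) := by
    have h1 : ∫ t in Set.Icc T (2 * T) \ G, x t ^ 2 ≤ ∫ t in T..(2 * T), x t ^ 2 := by
      rw [intervalIntegral.integral_of_le hTle, ← integral_Icc_eq_integral_Ioc]
      exact setIntegral_mono_set (hxc.pow 2).continuousOn.integrableOn_Icc
        (Filter.Eventually.of_forall fun t => sq_nonneg _) Set.sdiff_subset.eventuallyLE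
    refine h1.trans ?_
    have h2 := hMT.le
    rw [div_le_iff₀ (by positivity)] at h2
    exact h2
  have hvol : ∫ _ in Set.Icc T (2 * T) \ G, (1 : ℝ) ≤ T ^ (1 - δ₁) := by
    rw [setIntegral_const, smul_eq_mul, mul_one]
    exact ENNReal.toReal_le_of_le_ofReal (by positivity) hGv
  have hbad2 : ∫ t in Set.Icc T (2 * T) \ G, (x t ^ 2) ^ k ≤
      (2 * (T * Real.log T)) ^ k * (T ^ (1 - δ₁)) ^ (1 - k) := by
    refine (ut_holder hk hk1 (Set.Icc T (2 * T)) _ (fun t => x t ^ 2) isCompact_Icc hBm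
      Set.sdiff_subset (hxc.pow 2).continuousOn fun t => sq_nonneg _).trans ?_
    have h0 : 0 ≤ ∫ t in Set.Icc T (2 * T) \ G, x t ^ 2 :=
      integral_nonneg fun t => sq_nonneg _
    have h0' : 0 ≤ ∫ _ in Set.Icc T (2 * T) \ G, (1 : ℝ) := integral_nonneg fun t => zero_le_one
    exact mul_le_mul (Real.rpow_le_rpow h0 hint2 hk.le) (Real.rpow_le_rpow h0' hvol hk1'.le)
      (Real.rpow_nonneg h0' _) (by positivity)
  have hbad : ∫ t in Set.Icc T (2 * T) \ G, F t ≤ T * Real.log T ^ (k ^ 2) := by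
    refine hbad1.trans ((mul_le_mul_of_nonneg_left hbad2 (by positivity)).trans ?_)
    have h1 : T ^ δ * ((2 * (T * Real.log T)) ^ k * (T ^ (1 - δ₁)) ^ (1 - k)) =
        (2 * Real.log T) ^ k * T ^ (1 - δ) := by
      have h2 : (2 * (T * Real.log T)) ^ k = T ^ k * (2 * Real.log T) ^ k := by
        rw [← Real.mul_rpow hT0.le (by positivity)]
        congr 1
        ring
      have h3 : T ^ δ * (T ^ k * T ^ ((1 - δ₁) * (1 - k))) = T ^ (1 - δ) := by
        rw [← Real.rpow_add hT0, ← Real.rpow_add hT0]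
        congr 1
        rw [hδ]
        ring
      rw [h2, ← Real.rpow_mul hT0.le, ← h3]
      ring
    rw [h1]
    calc (2 * Real.log T) ^ k * T ^ (1 - δ) ≤ T ^ δ * T ^ (1 - δ) :=
          mul_le_mul_of_nonneg_right hLT (by positivity)
      _ = T := by
          rw [← Real.rpow_add hT0, add_sub_cancel, Real.rpow_one]
      _ ≤ T * Real.log T ^ (k ^ 2) :=
          le_mul_of_one_le_right hT0.le (Real.one_le_rpow hL1 (sq_nonneg k))
  rw [hsplit]
  calc (∫ t in G, F t) + ∫ t in Set.Icc T (2 * T) \ G, F t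
      ≤ C * T * Real.log T ^ (k ^ 2) + T * Real.log T ^ (k ^ 2) := add_le_add hgood hbad
    _ = (C + 1) * (T * Real.log T ^ (k ^ 2)) := by ring

end Pool.Agent.Lib.MP_aa9ae4_nt.U1
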