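import Mathlib
import Pool.Agent.Lib.MP_aa9ae4_nt.U1.SpecU
import Pool.Agent.Lib.MP_aa9ae4_nt.L1.PLA

/-!
MP_aa9ae4_nt, Theorem U: the upper bound on the good set (Hoelder).
-/

set_option autoImplicit false

namespace Pool.Agent.Lib.MP_aa9ae4_nt.U1

open Finset MeasureTheory Filter Topology
open Complex (I)
open Pool.Agent.Lib.MP_aa9ae4_nt
open Pool.Agent.Lib.MP_aa9ae4_nt.L1
open Pool.Agent.Lib.MP_aa9ae4_nt.S1 (pw psumS eulS tail prs nn KK expJ HT fzS y1)

/-- the compact set where zeta is not too small -/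
private lemma uho_compact (σ a T : ℝ) (z : ℕ) (ha : 0 < a) (hT : 0 < T) :
    IsCompact {t ∈ Set.Icc T (2 * T) | 1 / 2 ≤ ‖fzS σ a t‖ * ‖eulS σ 0 z (a * t)‖} := by
  have hc : ContinuousOn (fun t => ‖fzS σ a t‖ * ‖eulS σ 0 z (a * t)‖) (Set.Icc T (2 * T)) :=
    (la_fzS_cont σ a T ha hT).mul
      (((la_eulS_cont σ 0 z).comp (continuous_const.mul continuous_id)).norm.continuousOn)
  have h1 := hc.preimage_isClosed_of_isClosed isClosed_Icc (isClosed_Ici (a := (1 / 2 : ℝ)))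
  exact isCompact_Icc.of_isClosed_subset h1 Set.inter_subset_left

private lemma uho_memLp (K G : Set ℝ) (f : ℝ → ℝ) (p : ENNReal) (hK : IsCompact K)
    (hG : MeasurableSet G) (hGK : G ⊆ K) (hf : ContinuousOn f K) :
    MemLp f p (volume.restrict G) := by
  obtain ⟨C, hC⟩ := hK.exists_bound_of_continuousOn hf
  have : IsFiniteMeasure (volume.restrict G) :=
    ⟨by rw [Measure.restrict_apply_univ]; exact (measure_mono hGK).trans_lt hK.measure_lt_top⟩
  refine MemLp.of_bound ((hf.mono hGK).aestronglyMeasurable hG) C ?_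
  filter_upwards [ae_restrict_mem hG] with t ht
  exact hC t (hGK ht)

private lemma uho_conj {k : ℝ} (hk : 0 < k) (hk1 : k < 1) :
    (1 / k).HolderConjugate (1 / (1 - k)) := by
  rw [Real.holderConjugate_iff]
  refine ⟨by rw [lt_div_iff₀ hk]; linarith, ?_⟩
  rw [one_div, one_div, inv_inv, inv_inv]
  ring

private lemma uho_rpow {u k : ℝ} (hu : 0 ≤ u) (hk : k ≠ 0) : (u ^ k) ^ (1 / k) = u := by
  rw [← Real.rpow_mul hu, one_div, mul_inv_cancel₀ hk, Real.rpow_one]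

/-- Hoelder for an integral with the exponents `1/k`, `1/(1-k)` -/
private lemma uho_int {k : ℝ} (hk : 0 < k) (hk1 : k < 1) (K G : Set ℝ) (u v : ℝ → ℝ)
    (hK : IsCompact K) (hG : MeasurableSet G) (hGK : G ⊆ K) (hu : ContinuousOn u K)
    (hv : ContinuousOn v K) (hu0 : ∀ t, 0 ≤ u t) (hv0 : ∀ t, 0 ≤ v t) :
    ∫ t in G, u t ^ k * v t ^ (1 - k) ≤ (∫ t in G, u t) ^ k * (∫ t in G, v t) ^ (1 - k) := by
  have hk1' : 0 < 1 - k := by linarith
  have h1 := integral_mul_le_Lp_mul_Lq_of_nonneg (μ := volume.restrict G) (uho_conj hk hk1)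
    (f := fun t => u t ^ k) (g := fun t => v t ^ (1 - k))
    (Filter.Eventually.of_forall fun t => Real.rpow_nonneg (hu0 t) _)
    (Filter.Eventually.of_forall fun t => Real.rpow_nonneg (hv0 t) _)
    (uho_memLp K G _ _ hK hG hGK (hu.rpow_const fun t _ => Or.inr hk.le))
    (uho_memLp K G _ _ hK hG hGK (hv.rpow_const fun t _ => Or.inr hk1'.le))
  have h2 : (fun t => (u t ^ k) ^ (1 / k)) = u := funext fun t => uho_rpow (hu0 t) hk.ne'
  have h3 : (fun t => (v t ^ (1 - k)) ^ (1 / (1 - k))) = v :=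
    funext fun t => uho_rpow (hv0 t) hk1'.ne'
  rw [h2, h3, one_div_one_div, one_div_one_div] at h1
  exact h1

/-- Hoelder for a finite sum with the exponents `1/k`, `1/(1-k)` -/
private lemma uho_sum {k : ℝ} (hk : 0 < k) (hk1 : k < 1) {ι : Type} (s : Finset ι) (u v : ι → ℝ)
    (hu0 : ∀ i ∈ s, 0 ≤ u i) (hv0 : ∀ i ∈ s, 0 ≤ v i) :
    ∑ i ∈ s, u i ^ k * v i ^ (1 - k) ≤ (∑ i ∈ s, u i) ^ k * (∑ i ∈ s, v i) ^ (1 - k) := by
  have hk1' : 0 < 1 - k := by linarith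
  have h1 := Real.inner_le_Lp_mul_Lq_of_nonneg s (uho_conj hk hk1) (f := fun i => u i ^ k)
    (g := fun i => v i ^ (1 - k)) (fun i hi => Real.rpow_nonneg (hu0 i hi) _)
    (fun i hi => Real.rpow_nonneg (hv0 i hi) _)
  rw [Finset.sum_congr rfl fun i hi => uho_rpow (hu0 i hi) hk.ne',
    Finset.sum_congr rfl fun i hi => uho_rpow (hv0 i hi) hk1'.ne', one_div_one_div,
    one_div_one_div] at h1
  exact h1

/-- **The upper bound on the good set.** -/
theorem pUho (hMt : S_Mt) (hUpd : S_Upd) (hUtz : S_Utz) (hUps : S_Ups) : S_Uho := by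
  intro k β hk hk1 σ a Kz om δ z gs hσ hσ1 ha hom hom1 hgs
  have hk1' : 0 < 1 - k := by linarith
  obtain ⟨C0, hC0⟩ := hMt
  obtain ⟨c1, h1⟩ := hUpd k 1 hk hk1 le_rfl
  obtain ⟨c2, h2⟩ := hUtz k C0 1 hk hC0 le_rfl
  obtain ⟨c3, h3⟩ := hUps k 1 hk le_rfl
  obtain ⟨C1, hC1, hc1, hc2, hc3⟩ : ∃ C1 : ℝ, 1 ≤ C1 ∧ c1 ≤ C1 ∧ c2 ≤ C1 ∧ c3 ≤ C1 :=
    ⟨max 1 (max c1 (max c2 c3)), le_max_left _ _, (le_max_left _ _).trans (le_max_right _ _),
      (le_max_left _ _).trans ((le_max_right _ _).trans (le_max_right _ _)),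
      (le_max_right _ _).trans ((le_max_right _ _).trans (le_max_right _ _))⟩
  have hC1p : 0 < C1 := by linarith
  obtain ⟨η, hη⟩ : ∃ η : ℝ, η = 1 / (400 * C1) := ⟨_, rfl⟩
  have hη0 : 0 < η := by rw [hη]; positivity
  have hη1 : η ≤ 1 := by
    rw [hη, div_le_one (by positivity)]
    linarith
  have hηm : η * ((1 : ℕ) : ℝ) * C1 ≤ 1 / 400 := by
    rw [hη, Nat.cast_one, mul_one]
    refine le_of_eq ?_
    field_simp
  obtain ⟨Ca, hCa, hA⟩ := h2 C1 η hc2 hη0 hη1 hηm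
  obtain ⟨Cb, hCb, hB⟩ := h3 C1 hc3 η hη0 hη1 hηm σ a Kz om δ z gs hσ hσ1 ha hom hom1 hgs
    (-(2 * k * β) / (1 - k))
  refine ⟨Real.exp 1 * (Ca ^ k * Cb ^ (1 - k)), by positivity, ?_⟩
  filter_upwards [hA, hB, hgs, eventually_gt_atTop (1 : ℝ)] with T hAT hBT hgT hT1
  obtain ⟨-, -, hGm, hGI, -, hGp⟩ := hgT
  have hT0 : 0 < T := by linarith
  have hTle : T ≤ 2 * T := by linarith
  have hlog : 0 < Real.log T := Real.log_pos hT1
  obtain ⟨X, hX⟩ : ∃ X : ℝ, X = T * Real.log T ^ (k ^ 2) := ⟨_, rfl⟩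
  have hXp : 0 < X := by rw [hX]; positivity
  set G := gs T with hG
  set K := {t ∈ Set.Icc T (2 * T) | 1 / 2 ≤ ‖fzS σ a t‖ * ‖eulS σ 0 (z T) (a * t)‖} with hK
  have hKc : IsCompact K := uho_compact σ a T (z T) ha hT0
  have hGK : G ⊆ K := fun t ht => ⟨hGI ht, (hGp t ht).2.1⟩
  have hypos : ∀ t ∈ K, 0 < ‖fzS σ a t‖ := by
    intro t ht
    refine lt_of_le_of_ne (norm_nonneg _) fun h0 => ?_
    have := ht.2
    rw [← h0, zero_mul] at this
    linarith
  have hyc : ContinuousOn (fun t => ‖fzS σ a t‖) K :=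
    (la_fzS_cont σ a T ha hT0).mono fun t ht => ht.1
  set PS := (range (nI T + 1)).powerset with hPS
  set u : Finset ℕ → ℝ → ℝ := fun S t => ‖riemannZeta (1 / 2 + t * I)‖ ^ 2 *
    ‖AZ k 1 C1 η S T t‖ ^ 2 with hu
  set v : Finset ℕ → ℝ → ℝ := fun S t => ‖AS k 1 C1 η S T t‖ ^ 2 *
    ‖fzS σ a t‖ ^ (-(2 * k * β) / (1 - k)) with hv
  have huc : ∀ S, Continuous (u S) := fun S =>
    (fin_cont_half.norm.pow 2).mul ((la_MB_cont _ _ _ _ _ fun i _ p hp => la_Bl_ne η T i p hp).norm.pow 2)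
  have hvc : ∀ S, ContinuousOn (v S) K := fun S =>
    ((la_MB_cont _ _ _ _ _ fun i _ p hp => la_Bl_ne η T i p hp).norm.pow 2).continuousOn.mul
      (hyc.rpow_const fun t ht => Or.inl (hypos t ht).ne')
  have hu0 : ∀ S t, 0 ≤ u S t := fun S t => by positivity
  have hv0 : ∀ S t, 0 ≤ v S t := fun S t => mul_nonneg (sq_nonneg _)
    (Real.rpow_nonneg (norm_nonneg _) _)
  -- the pointwise bound
  have hpt : ∀ t ∈ G, (‖riemannZeta (1 / 2 + t * I)‖ / ‖fzS σ a t‖ ^ β) ^ (2 * k) ≤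
      Real.exp 1 * ∑ S ∈ PS, u S t ^ k * v S t ^ (1 - k) := by
    intro t ht
    have hy := hypos t (hGK ht)
    have e1 : (‖riemannZeta (1 / 2 + t * I)‖ / ‖fzS σ a t‖ ^ β) ^ (2 * k) =
        (‖riemannZeta (1 / 2 + t * I)‖ ^ 2) ^ k *
          (‖fzS σ a t‖ ^ (-(2 * k * β) / (1 - k))) ^ (1 - k) := by
      rw [Real.div_rpow (norm_nonneg _) (Real.rpow_nonneg hy.le _), ← Real.rpow_natCast,
        ← Real.rpow_mul (norm_nonneg (riemannZeta (1 / 2 + t * I))), ← Real.rpow_mul hy.le,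
        ← Real.rpow_mul hy.le, div_mul_cancel₀ _ hk1'.ne', Real.rpow_neg hy.le, div_eq_mul_inv]
      have e3 : β * (2 * k) = 2 * k * β := by ring
      rw [e3]
      rfl
    have e2 : ∀ S : Finset ℕ, u S t ^ k * v S t ^ (1 - k) =
        ((‖riemannZeta (1 / 2 + t * I)‖ ^ 2) ^ k *
          (‖fzS σ a t‖ ^ (-(2 * k * β) / (1 - k))) ^ (1 - k)) *
        ((‖AZ k 1 C1 η S T t‖ ^ 2) ^ k * (‖AS k 1 C1 η S T t‖ ^ 2) ^ (1 - k)) := by
      intro S
      simp only [hu, hv]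
      rw [Real.mul_rpow (sq_nonneg _) (sq_nonneg _),
        Real.mul_rpow (sq_nonneg _) (Real.rpow_nonneg hy.le _)]
      ring
    rw [e1, Finset.sum_congr rfl fun S _ => e2 S, ← Finset.mul_sum, mul_left_comm]
    refine le_mul_of_one_le_right ?_ (h1 C1 hc1 η T t)
    exact mul_nonneg (Real.rpow_nonneg (sq_nonneg _) _)
      (Real.rpow_nonneg (Real.rpow_nonneg hy.le _) _)
  -- integration
  have hcont : ∀ S, ContinuousOn (fun t => u S t ^ k * v S t ^ (1 - k)) K := fun S =>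
    ((huc S).continuousOn.rpow_const fun t _ => Or.inr hk.le).mul
      ((hvc S).rpow_const fun t _ => Or.inr hk1'.le)
  have hint : ∀ S, IntegrableOn (fun t => u S t ^ k * v S t ^ (1 - k)) G := fun S =>
    ((hcont S).integrableOn_compact hKc).mono_set hGK
  have hI : ∫ t in G, (‖riemannZeta (1 / 2 + t * I)‖ / ‖fzS σ a t‖ ^ β) ^ (2 * k) ≤
      Real.exp 1 * ∑ S ∈ PS, ∫ t in G, u S t ^ k * v S t ^ (1 - k) := by
    calc _ ≤ ∫ t in G, Real.exp 1 * ∑ S ∈ PS, u S t ^ k * v S t ^ (1 - k) := by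
          refine integral_mono_of_nonneg (Filter.Eventually.of_forall fun t => ?_)
            ((integrable_finsetSum _ fun S _ => hint S).const_mul _)
            ((ae_restrict_iff' hGm).2 (Filter.Eventually.of_forall hpt))
          exact Real.rpow_nonneg (div_nonneg (norm_nonneg _) (Real.rpow_nonneg (norm_nonneg _) _)) _
      _ = _ := by
          rw [integral_const_mul, integral_finsetSum _ fun S _ => hint S]
  have hsum : ∑ S ∈ PS, ∫ t in G, u S t ^ k * v S t ^ (1 - k) ≤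
      (Ca * X) ^ k * (Cb * X) ^ (1 - k) := by
    have e1 : ∀ S ∈ PS, ∫ t in G, u S t ^ k * v S t ^ (1 - k) ≤
        (∫ t in T..(2 * T), u S t) ^ k * (∫ t in G, v S t) ^ (1 - k) := by
      intro S _
      refine (uho_int hk hk1 K G (u S) (v S) hKc hGm hGK (huc S).continuousOn (hvc S) (hu0 S)
        (hv0 S)).trans ?_
      refine mul_le_mul_of_nonneg_right ?_ (Real.rpow_nonneg (integral_nonneg (hv0 S)) _)
      refine Real.rpow_le_rpow (integral_nonneg (hu0 S)) ?_ hk.le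
      rw [intervalIntegral.integral_of_le hTle, ← integral_Icc_eq_integral_Ioc]
      exact setIntegral_mono_set ((huc S).continuousOn.integrableOn_Icc)
        (Filter.Eventually.of_forall (hu0 S)) hGI.eventuallyLE
    have e2 : ∀ S, 0 ≤ ∫ t in T..(2 * T), u S t := fun S =>
      intervalIntegral.integral_nonneg hTle fun t _ => hu0 S t
    have e3 : ∀ S, 0 ≤ ∫ t in G, v S t := fun S => integral_nonneg (hv0 S)
    refine (Finset.sum_le_sum e1).trans ?_
    refine (uho_sum hk hk1 PS _ _ (fun S _ => e2 S) (fun S _ => e3 S)).trans ?_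
    refine mul_le_mul ?_ ?_ (Real.rpow_nonneg (Finset.sum_nonneg fun S _ => e3 S) _)
      (Real.rpow_nonneg (by positivity) _)
    · refine Real.rpow_le_rpow (Finset.sum_nonneg fun S _ => e2 S) ?_ hk.le
      rw [hX]
      exact hAT
    · refine Real.rpow_le_rpow (Finset.sum_nonneg fun S _ => e3 S) ?_ hk1'.le
      rw [hX, ← mul_assoc]
      exact hBT
  have hfin : (Ca * X) ^ k * (Cb * X) ^ (1 - k) = Ca ^ k * Cb ^ (1 - k) * X := by
    rw [Real.mul_rpow hCa.le hXp.le, Real.mul_rpow hCb.le hXp.le]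
    have e1 : X ^ k * X ^ (1 - k) = X := by
      rw [← Real.rpow_add hXp, add_sub_cancel, Real.rpow_one]
    calc Ca ^ k * X ^ k * (Cb ^ (1 - k) * X ^ (1 - k)) =
        Ca ^ k * Cb ^ (1 - k) * (X ^ k * X ^ (1 - k)) := by ring
      _ = _ := by rw [e1]
  calc _ ≤ Real.exp 1 * ∑ S ∈ PS, ∫ t in G, u S t ^ k * v S t ^ (1 - k) := hI
    _ ≤ Real.exp 1 * (Ca ^ k * Cb ^ (1 - k) * X) := by
        rw [← hfin]
        exact mul_le_mul_of_nonneg_left hsum (Real.exp_pos _).le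
    _ = _ := by rw [hX]; ring

end Pool.Agent.Lib.MP_aa9ae4_nt.U1
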