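import Mathlib
import Pool.Agent.Lib.MP_aa9ae4_nt.U1.SpecU

/-!
MP_aa9ae4_nt, Theorem U: the product inequality (`S_Upd`).
-/

namespace Pool.Agent.Lib.MP_aa9ae4_nt.U1

open Finset MeasureTheory Filter Topology
open Complex (I)
open Pool.Agent.Lib.MP_aa9ae4_nt.L1
open Pool.Agent.Lib.MP_aa9ae4_nt.S1 (pw expJ)

/-- the prime sum over a block -/
private noncomputable def upd_P (η T t : ℝ) (i : ℕ) : ℂ := ∑ p ∈ Bl η T i, pw (1 / 2) p t

private theorem upd_AS (k : ℝ) (m : ℕ) (hm : 1 ≤ m) (C1 η : ℝ) (S : Finset ℕ) (T t : ℝ)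
    (hk : 0 < k) :
    ‖AS k m C1 η S T t‖ ^ 2 = ∏ i ∈ range (nI T + 1),
      if i ∈ S then ‖expJ (Kb C1 i) ((k : ℂ) * upd_P η T t i)‖ ^ 2
      else (ck k * ‖upd_P η T t i‖ / Kb C1 i) ^ (2 * (m * Kb C1 i)) := by
  unfold AS MB
  rw [norm_prod, ← Finset.prod_pow]
  refine Finset.prod_congr rfl fun i _ => ?_
  by_cases hi : i ∈ S
  · rw [if_pos hi]
    congr 2
    unfold expJ
    have hle : Kb C1 i + 1 ≤ m * Kb C1 i + 1 := by nlinarith
    rw [← Finset.sum_subset (Finset.range_mono hle) ?_]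
    · refine Finset.sum_congr rfl fun r hr => ?_
      have hr' : r ≤ Kb C1 i := by
        have := Finset.mem_range.1 hr
        omega
      show ((fS k m C1 S i r / (r.factorial : ℝ) : ℝ) : ℂ) * (upd_P η T t i) ^ r = _
      unfold fS
      rw [if_pos hi, if_pos hr']
      push_cast
      rw [mul_pow]
      ring
    · intro r _ hr
      have hr' : ¬ r ≤ Kb C1 i := by
        intro h
        exact hr (Finset.mem_range.2 (by omega))
      unfold fS
      rw [if_pos hi, if_neg hr']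
      simp
  · rw [if_neg hi]
    have h1 : ∑ r ∈ range (m * Kb C1 i + 1),
        ((fS k m C1 S i r / (r.factorial : ℝ) : ℝ) : ℂ) * (∑ p ∈ Bl η T i, pw (1 / 2) p t) ^ r =
        (((ck k / (Kb C1 i : ℝ)) ^ (m * Kb C1 i) : ℝ) : ℂ) *
          (upd_P η T t i) ^ (m * Kb C1 i) := by
      rw [Finset.sum_eq_single (m * Kb C1 i)]
      · show ((fS k m C1 S i (m * Kb C1 i) / ((m * Kb C1 i).factorial : ℝ) : ℝ) : ℂ) *
          (upd_P η T t i) ^ (m * Kb C1 i) = _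
        congr 2
        unfold fS
        rw [if_neg hi, if_pos rfl]
        have : ((m * Kb C1 i).factorial : ℝ) ≠ 0 := by
          exact_mod_cast Nat.factorial_ne_zero _
        field_simp
      · intro r _ hr
        unfold fS
        rw [if_neg hi, if_neg hr]
        simp
      · intro h
        exact absurd (Finset.mem_range.2 (Nat.lt_succ_self _)) h
    rw [h1, norm_mul, norm_pow, Complex.norm_real, Real.norm_eq_abs]
    have h2 : 0 ≤ ck k / (Kb C1 i : ℝ) := by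
      unfold ck
      positivity
    rw [abs_of_nonneg (pow_nonneg h2 _), ← mul_pow, ← pow_mul]
    congr 1
    · ring
    · ring

private theorem upd_AZ (k : ℝ) (m : ℕ) (hm : 1 ≤ m) (C1 η : ℝ) (S : Finset ℕ) (T t : ℝ)
    (hk : 0 < k) :
    ‖AZ k m C1 η S T t‖ ^ 2 = ∏ i ∈ range (nI T + 1),
      if i ∈ S then ‖expJ (Kb C1 i) (((k - 1 : ℝ) : ℂ) * upd_P η T t i)‖ ^ 2
      else (ck k * ‖upd_P η T t i‖ / Kb C1 i) ^ (2 * (m * Kb C1 i)) := by
  unfold AZ MB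
  rw [norm_prod, ← Finset.prod_pow]
  refine Finset.prod_congr rfl fun i _ => ?_
  by_cases hi : i ∈ S
  · rw [if_pos hi]
    congr 2
    unfold expJ
    have hle : Kb C1 i + 1 ≤ m * Kb C1 i + 1 := by nlinarith
    rw [← Finset.sum_subset (Finset.range_mono hle) ?_]
    · refine Finset.sum_congr rfl fun r hr => ?_
      have hr' : r ≤ Kb C1 i := by
        have := Finset.mem_range.1 hr
        omega
      show ((fZ k m C1 S i r / (r.factorial : ℝ) : ℝ) : ℂ) * (upd_P η T t i) ^ r = _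
      unfold fZ
      rw [if_pos hi, if_pos hr']
      push_cast
      rw [mul_pow]
      ring
    · intro r _ hr
      have hr' : ¬ r ≤ Kb C1 i := by
        intro h
        exact hr (Finset.mem_range.2 (by omega))
      unfold fZ
      rw [if_pos hi, if_neg hr']
      simp
  · rw [if_neg hi]
    have h1 : ∑ r ∈ range (m * Kb C1 i + 1),
        ((fZ k m C1 S i r / (r.factorial : ℝ) : ℝ) : ℂ) * (∑ p ∈ Bl η T i, pw (1 / 2) p t) ^ r =
        (((ck k / (Kb C1 i : ℝ)) ^ (m * Kb C1 i) : ℝ) : ℂ) *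
          (upd_P η T t i) ^ (m * Kb C1 i) := by
      rw [Finset.sum_eq_single (m * Kb C1 i)]
      · show ((fZ k m C1 S i (m * Kb C1 i) / ((m * Kb C1 i).factorial : ℝ) : ℝ) : ℂ) *
          (upd_P η T t i) ^ (m * Kb C1 i) = _
        congr 2
        unfold fZ
        rw [if_neg hi, if_pos rfl]
        have : ((m * Kb C1 i).factorial : ℝ) ≠ 0 := by
          exact_mod_cast Nat.factorial_ne_zero _
        field_simp
      · intro r _ hr
        unfold fZ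
        rw [if_neg hi, if_neg hr]
        simp
      · intro h
        exact absurd (Finset.mem_range.2 (Nat.lt_succ_self _)) h
    rw [h1, norm_mul, norm_pow, Complex.norm_real, Real.norm_eq_abs]
    have h2 : 0 ≤ ck k / (Kb C1 i : ℝ) := by
      unfold ck
      positivity
    rw [abs_of_nonneg (pow_nonneg h2 _), ← mul_pow, ← pow_mul]
    congr 1
    · ring
    · ring

private theorem upd_half (n : ℕ) : ∑ i ∈ range n, (1 / 2 : ℝ) ^ (i + 1) ≤ 1 := by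
  have h : ∀ n : ℕ, ∑ i ∈ range n, (1 / 2 : ℝ) ^ (i + 1) = 1 - (1 / 2) ^ n := by
    intro n
    induction n with
    | zero => simp
    | succ n ih => rw [Finset.sum_range_succ, ih, pow_succ]; ring
  rw [h]
  have : (0 : ℝ) ≤ (1 / 2) ^ n := by positivity
  linarith

private theorem upd_K (C1 : ℝ) (hC : 8 ≤ C1) (i : ℕ) :
    Real.exp (-(Kb C1 i : ℝ) / 2) ≤ (1 / 2) ^ (i + 1) := by
  have h1 : C1 * Real.exp ((i : ℝ) / 2) ≤ (Kb C1 i : ℝ) := Nat.le_ceil _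
  have h2 : (i : ℝ) / 2 + 1 ≤ Real.exp ((i : ℝ) / 2) := Real.add_one_le_exp _
  have hi : (0 : ℝ) ≤ i := Nat.cast_nonneg i
  have h3 : 8 * ((i : ℝ) / 2 + 1) ≤ (Kb C1 i : ℝ) := by
    refine le_trans ?_ h1
    exact mul_le_mul hC h2 (by positivity) (by linarith)
  have h4 : (1 / 2 : ℝ) ^ (i + 1) = (2 ^ (i + 1))⁻¹ := by
    rw [one_div, inv_pow]
  have h5 : (2 : ℝ) ^ (i + 1) ≤ Real.exp ((i : ℝ) + 1) := by
    have h6 : (2 : ℝ) ≤ Real.exp 1 := by
      have := Real.add_one_le_exp (1 : ℝ)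
      linarith
    have h7 : Real.exp ((i : ℝ) + 1) = Real.exp 1 ^ (i + 1) := by
      rw [← Real.exp_nat_mul]
      push_cast
      ring_nf
    rw [h7]
    exact pow_le_pow_left₀ (by norm_num) h6 _
  rw [h4]
  calc Real.exp (-(Kb C1 i : ℝ) / 2) ≤ Real.exp (-((i : ℝ) + 1)) :=
        Real.exp_le_exp.2 (by linarith)
    _ = (Real.exp ((i : ℝ) + 1))⁻¹ := Real.exp_neg _
    _ ≤ _ := by gcongr

private theorem upd_e (C1 : ℝ) (hC : 8 ≤ C1) (n : ℕ) (S : Finset ℕ) (hS : S ⊆ range n) :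
    ∏ i ∈ S, (1 + Real.exp (-(Kb C1 i : ℝ) / 2)) ≤ Real.exp 1 := by
  have h1 : ∏ i ∈ S, (1 + Real.exp (-(Kb C1 i : ℝ) / 2)) ≤
      ∏ i ∈ S, Real.exp (Real.exp (-(Kb C1 i : ℝ) / 2)) := by
    refine Finset.prod_le_prod (fun i _ => by positivity) fun i _ => ?_
    have := Real.add_one_le_exp (Real.exp (-(Kb C1 i : ℝ) / 2))
    linarith
  refine h1.trans ?_
  rw [← Real.exp_sum]
  refine Real.exp_le_exp.2 ?_
  calc ∑ i ∈ S, Real.exp (-(Kb C1 i : ℝ) / 2)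
      ≤ ∑ i ∈ range n, Real.exp (-(Kb C1 i : ℝ) / 2) :=
        Finset.sum_le_sum_of_subset_of_nonneg hS fun i _ _ => (Real.exp_pos _).le
    _ ≤ ∑ i ∈ range n, (1 / 2 : ℝ) ^ (i + 1) := Finset.sum_le_sum fun i _ => upd_K C1 hC i
    _ ≤ 1 := upd_half n


theorem pUpd (hUpt : S_Upt) : S_Upd := by
  intro k m hk hk1 hm
  obtain ⟨K0, hK0⟩ := hUpt k m hk hk1
  refine ⟨max K0 8, fun C1 hC1 η T t => ?_⟩
  have hC8 : 8 ≤ C1 := (le_max_right _ _).trans hC1
  have hCK : (K0 : ℝ) ≤ C1 := (le_max_left _ _).trans hC1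
  have hKi : ∀ i, K0 ≤ Kb C1 i ∧ 1 ≤ Kb C1 i := by
    intro i
    have h1 : C1 * Real.exp ((i : ℝ) / 2) ≤ (Kb C1 i : ℝ) := Nat.le_ceil _
    have h2 : (1 : ℝ) ≤ Real.exp ((i : ℝ) / 2) := Real.one_le_exp (by positivity)
    have h3 : C1 ≤ (Kb C1 i : ℝ) := by nlinarith
    constructor
    · exact_mod_cast hCK.trans h3
    · exact_mod_cast (show (1 : ℝ) ≤ (Kb C1 i : ℝ) by linarith)
  have hck : 0 < ck k := by
    unfold ck
    positivity
  have h1 : (1 : ℝ) ≤ ∏ i ∈ range (nI T + 1),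
      ((1 + Real.exp (-(Kb C1 i : ℝ) / 2)) *
        ((‖expJ (Kb C1 i) (((k - 1 : ℝ) : ℂ) * upd_P η T t i)‖ ^ 2) ^ k *
        (‖expJ (Kb C1 i) ((k : ℂ) * upd_P η T t i)‖ ^ 2) ^ (1 - k)) +
        (ck k * ‖upd_P η T t i‖ / Kb C1 i) ^ (2 * (m * Kb C1 i))) := by
    have h0 : (∏ i ∈ range (nI T + 1), (1 : ℝ)) = 1 := by simp
    refine h0.symm.le.trans ?_
    exact Finset.prod_le_prod (fun i _ => zero_le_one) fun i _ =>
      hK0 (Kb C1 i) (hKi i).1 (hKi i).2 (upd_P η T t i)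
  refine h1.trans ?_
  rw [Finset.prod_add, Finset.mul_sum]
  refine Finset.sum_le_sum fun S hS => ?_
  have hSn : S ⊆ range (nI T + 1) := Finset.mem_powerset.1 hS
  rw [upd_AS k m hm C1 η S T t hk, upd_AZ k m hm C1 η S T t hk, Finset.prod_ite, Finset.prod_ite]
  have hf1 : (range (nI T + 1)).filter (fun i => i ∈ S) = S := by
    ext i
    simp only [Finset.mem_filter]
    exact ⟨fun h => h.2, fun h => ⟨hSn h, h⟩⟩
  have hf2 : (range (nI T + 1)).filter (fun i => i ∉ S) = range (nI T + 1) \ S := by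
    ext i
    simp only [Finset.mem_filter, Finset.mem_sdiff]
  rw [hf1, hf2]
  set b : ℝ := ∏ i ∈ range (nI T + 1) \ S,
    (ck k * ‖upd_P η T t i‖ / Kb C1 i) ^ (2 * (m * Kb C1 i)) with hb
  have hb0 : 0 ≤ b := Finset.prod_nonneg fun i _ => by positivity
  have hbb : b ^ k * b ^ (1 - k) = b := by
    rw [← Real.rpow_add' hb0 (by norm_num)]
    norm_num
  have ha1 : 0 ≤ ∏ i ∈ S, ‖expJ (Kb C1 i) (((k - 1 : ℝ) : ℂ) * upd_P η T t i)‖ ^ 2 :=
    Finset.prod_nonneg fun i _ => by positivity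
  have ha2 : 0 ≤ ∏ i ∈ S, ‖expJ (Kb C1 i) ((k : ℂ) * upd_P η T t i)‖ ^ 2 :=
    Finset.prod_nonneg fun i _ => by positivity
  have eA : (∏ i ∈ S, ‖expJ (Kb C1 i) (((k - 1 : ℝ) : ℂ) * upd_P η T t i)‖ ^ 2) ^ k =
      ∏ i ∈ S, (‖expJ (Kb C1 i) (((k - 1 : ℝ) : ℂ) * upd_P η T t i)‖ ^ 2) ^ k :=
    (Real.finsetProd_rpow _ _ (fun i _ => by positivity) k).symm
  have eA' : (∏ i ∈ S, ‖expJ (Kb C1 i) ((k : ℂ) * upd_P η T t i)‖ ^ 2) ^ (1 - k) =
      ∏ i ∈ S, (‖expJ (Kb C1 i) ((k : ℂ) * upd_P η T t i)‖ ^ 2) ^ (1 - k) :=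
    (Real.finsetProd_rpow _ _ (fun i _ => by positivity) (1 - k)).symm
  rw [Real.mul_rpow ha1 hb0, Real.mul_rpow ha2 hb0, eA, eA',
    Finset.prod_mul_distrib, Finset.prod_mul_distrib]
  set A := ∏ i ∈ S, (‖expJ (Kb C1 i) (((k - 1 : ℝ) : ℂ) * upd_P η T t i)‖ ^ 2) ^ k with hA
  set A' := ∏ i ∈ S, (‖expJ (Kb C1 i) ((k : ℂ) * upd_P η T t i)‖ ^ 2) ^ (1 - k) with hA'
  have hA0 : 0 ≤ A := Finset.prod_nonneg fun i _ => by positivity
  have hA0' : 0 ≤ A' := Finset.prod_nonneg fun i _ => by positivity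
  have h5 : A * b ^ k * (A' * b ^ (1 - k)) = A * A' * b := by
    calc A * b ^ k * (A' * b ^ (1 - k)) = A * A' * (b ^ k * b ^ (1 - k)) := by ring
      _ = _ := by rw [hbb]
  rw [h5, mul_assoc (∏ i ∈ S, (1 + Real.exp (-(Kb C1 i : ℝ) / 2)))]
  exact mul_le_mul_of_nonneg_right (upd_e C1 hC8 (nI T + 1) S hSn) (by positivity)

end Pool.Agent.Lib.MP_aa9ae4_nt.U1
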