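import Mathlib
import Pool.Agent.Lib.MP_aa9ae4_nt.U1.SpecU
import Pool.Agent.Lib.MP_aa9ae4_nt.S1.Aux72
import Pool.Agent.Lib.MP_aa9ae4_nt.S1.PHx
import Pool.Agent.Lib.MP_aa9ae4_nt.S1.PSz
import Pool.Agent.Lib.MP_aa9ae4_nt.S1.PTay
import Pool.Agent.Lib.MP_aa9ae4_nt.S1.PEq
import Pool.Agent.Lib.MP_aa9ae4_nt.S1.PMn
import Pool.Agent.Lib.MP_aa9ae4_nt.S1.PNn
import Pool.Agent.Lib.MP_aa9ae4_nt.S1.PEs

/-!
MP_aa9ae4_nt, Theorem U: the moments of `ζ(σ+iat)` against `‖AS_S‖²`, summed over `S` (`S_Ups`).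
-/

set_option autoImplicit false

namespace Pool.Agent.Lib.MP_aa9ae4_nt.U1

open Finset MeasureTheory Filter Topology
open Complex (I)
open Pool.Agent.Lib.MP_aa9ae4_nt
open Pool.Agent.Lib.MP_aa9ae4_nt.L1

private theorem upp_cont {n : ℕ} {B : ℕ → Finset ℕ} (R : ℕ → ℕ) (f : ℕ → ℕ → ℝ)
    (hB : IsBl n B) : Continuous fun t : ℝ => MB n B R f (fun p => S1.pw (1 / 2) p t) := by
  unfold MB
  refine continuous_finsetProd _ fun i hi => continuous_finsetSum _ fun r _ => ?_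
  refine continuous_const.mul ((continuous_finsetSum _ fun p hp => ?_).pow r)
  have h := S1.a72_cont_pw (1 / 2) (hB.1 i hi p hp).pos 1
  simpa using h

private theorem upp_psum_cont (σ : ℝ) (y z : ℕ) (a : ℝ) :
    Continuous fun t : ℝ => S1.psumS σ y z (a * t) := by
  unfold S1.psumS
  refine continuous_finsetSum _ fun p hp => S1.a72_cont_pw σ ?_ a
  have := S1.a72_prs hp
  omega

private theorem upp_psum_add (σ : ℝ) (y z : ℕ) (hyz : y ≤ z) (u : ℝ) :
    S1.psumS σ 0 z u = S1.psumS σ 0 y u + S1.psumS σ y z u := by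
  unfold S1.psumS
  rw [← Finset.sum_union]
  · refine Finset.sum_congr ?_ fun _ _ => rfl
    ext p
    simp only [S1.prs, Finset.mem_union, Finset.mem_filter, Finset.mem_Ioc]
    constructor
    · rintro ⟨⟨h1, h2⟩, h3⟩
      rcases le_or_gt p y with h | h
      · exact Or.inl ⟨⟨h1, h⟩, h3⟩
      · exact Or.inr ⟨⟨h, h2⟩, h3⟩
    · rintro (⟨⟨h1, h2⟩, h3⟩ | ⟨⟨h1, h2⟩, h3⟩)
      · exact ⟨⟨h1, h2.trans hyz⟩, h3⟩
      · exact ⟨⟨by omega, h2⟩, h3⟩
  · rw [Finset.disjoint_left]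
    intro p h1 h2
    simp only [S1.prs, Finset.mem_filter, Finset.mem_Ioc] at h1 h2
    omega

/-- the size of the power of zeta -/
private theorem upp_pow {x e s c r : ℝ} (he : 0 < e) (h1 : 1 / 2 ≤ x * e)
    (h2 : x * e ≤ 2) (h3 : |Real.log e| ≤ s + c) :
    x ^ r ≤ Real.exp (|r| * (Real.log 2 + c)) * Real.exp (|r| * s) := by
  have hx : 0 < x := by
    by_contra hn
    push Not at hn
    have := mul_nonpos_of_nonpos_of_nonneg hn he.le
    linarith
  have h4 : |Real.log x| ≤ Real.log 2 + s + c := by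
    have h5 : Real.log x = Real.log (x * e) - Real.log e := by
      rw [Real.log_mul hx.ne' he.ne']
      ring
    have h6 : |Real.log (x * e)| ≤ Real.log 2 := by
      rw [abs_le]
      constructor
      · rw [← Real.log_inv]
        exact Real.log_le_log (by norm_num) (by linarith)
      · exact Real.log_le_log (by linarith) h2
    rw [h5]
    have h7 := abs_sub (Real.log (x * e)) (Real.log e)
    linarith
  rw [Real.rpow_def_of_pos hx, ← Real.exp_add]
  apply Real.exp_le_exp.2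
  calc Real.log x * r ≤ |Real.log x * r| := le_abs_self _
    _ = |r| * |Real.log x| := by rw [abs_mul, mul_comm]
    _ ≤ |r| * (Real.log 2 + s + c) := mul_le_mul_of_nonneg_left h4 (abs_nonneg r)
    _ = |r| * (Real.log 2 + c) + |r| * s := by ring

private theorem upp_cs {T : ℝ} {A : Set ℝ} (hA : A ⊆ Set.Icc T (2 * T)) {f g : ℝ → ℝ}
    (hf : Continuous f) (hg : Continuous g) (hf0 : ∀ t, 0 ≤ f t) (hg0 : ∀ t, 0 ≤ g t) :
    ∫ t in A, f t * g t ≤ √(∫ t in A, f t ^ 2) * √(∫ t in A, g t ^ 2) := by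
  have hfL : MemLp f (ENNReal.ofReal 2) (volume.restrict A) := by
    rw [ENNReal.ofReal_ofNat]
    exact (memLp_two_iff_integrable_sq hf.aestronglyMeasurable).2
      (((hf.pow 2).continuousOn.integrableOn_Icc).mono_set hA)
  have hgL : MemLp g (ENNReal.ofReal 2) (volume.restrict A) := by
    rw [ENNReal.ofReal_ofNat]
    exact (memLp_two_iff_integrable_sq hg.aestronglyMeasurable).2
      (((hg.pow 2).continuousOn.integrableOn_Icc).mono_set hA)
  have h1 := integral_mul_le_Lp_mul_Lq_of_nonneg (μ := volume.restrict A)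
    Real.HolderConjugate.two_two (Filter.Eventually.of_forall hf0)
    (Filter.Eventually.of_forall hg0) hfL hgL
  simp only [Real.rpow_two, ← Real.sqrt_eq_rpow] at h1
  exact h1

/-- the exceptional part -/
private theorem upp_B {T : ℝ} {A H : Set ℝ} (hAH : A ⊆ H) (hH : H ⊆ Set.Icc T (2 * T))
    {W X : ℝ → ℝ} (hW : Continuous W) (hX : Continuous X) (hW0 : ∀ t, 0 ≤ W t)
    (hX0 : ∀ t, 0 ≤ X t) {M1 v M2 : ℝ} (hv0 : 0 ≤ v)
    (h1 : ∫ t in Set.Icc T (2 * T), W t ^ 2 ≤ M1) (h2 : volume A ≤ ENNReal.ofReal v)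
    (h3 : ∫ t in H, X t ^ 4 ≤ M2) :
    ∫ t in A, W t * X t ≤ √M1 * √(√v * √M2) := by
  have hA := hAH.trans hH
  have e1 := upp_cs hA hW hX hW0 hX0
  have e2 := upp_cs (T := T) hA (f := fun _ => (1 : ℝ)) (g := fun t => X t ^ 2) continuous_const
    (hX.pow 2) (fun _ => zero_le_one) (fun t => sq_nonneg _)
  simp only [one_mul, one_pow] at e2
  have e3 : ∫ _ in A, (1 : ℝ) ≤ v := by
    rw [setIntegral_const, smul_eq_mul, mul_one]
    exact ENNReal.toReal_le_of_le_ofReal hv0 h2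
  have e4 : ∫ t in A, (X t ^ 2) ^ 2 ≤ M2 := by
    refine le_trans ?_ h3
    have e5 : (fun t => (X t ^ 2) ^ 2) = fun t => X t ^ 4 := by
      funext t
      ring
    rw [e5]
    exact setIntegral_mono_set (((hX.pow 4).continuousOn.integrableOn_Icc).mono_set hH)
      (Filter.Eventually.of_forall fun t => by positivity) hAH.eventuallyLE
  have e6 : ∫ t in A, W t ^ 2 ≤ M1 := by
    refine le_trans ?_ h1
    exact setIntegral_mono_set ((hW.pow 2).continuousOn.integrableOn_Icc)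
      (Filter.Eventually.of_forall fun t => sq_nonneg _) hA.eventuallyLE
  have e7 : ∫ t in A, X t ^ 2 ≤ √v * √M2 :=
    e2.trans (mul_le_mul (Real.sqrt_le_sqrt e3) (Real.sqrt_le_sqrt e4) (Real.sqrt_nonneg _)
      (Real.sqrt_nonneg _))
  exact e1.trans (mul_le_mul (Real.sqrt_le_sqrt e6) (Real.sqrt_le_sqrt e7) (Real.sqrt_nonneg _)
    (Real.sqrt_nonneg _))

private theorem upp_num {T L q CH : ℝ} (hT : 0 < T) (hL : 1 ≤ L) (hCH : 0 < CH) :
    L ^ 2 * (√(T * L ^ (4 * q + 1)) * √(√(T * L ^ (-(8 * q + 20))) * √(CH * T))) ≤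
      T * √(√CH) := by
  have hL0 : 0 < L := by linarith
  have h1 : √(T * L ^ (-(8 * q + 20))) = √T * L ^ (-(4 * q + 10)) := by
    rw [Real.sqrt_mul hT.le]
    congr 1
    rw [Real.sqrt_eq_rpow, ← Real.rpow_mul hL0.le]
    congr 1
    ring
  have h2 : √(CH * T) = √CH * √T := Real.sqrt_mul hCH.le T
  have h3 : √(T * L ^ (-(8 * q + 20))) * √(CH * T) = √CH * T * L ^ (-(4 * q + 10)) := by
    rw [h1, h2]
    have := Real.mul_self_sqrt hT.le
    calc √T * L ^ (-(4 * q + 10)) * (√CH * √T) = (√T * √T) * √CH * L ^ (-(4 * q + 10)) := by ring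
      _ = _ := by
        rw [this]
        ring
  rw [h3, ← Real.sqrt_mul (by positivity)]
  have h4 : T * L ^ (4 * q + 1) * (√CH * T * L ^ (-(4 * q + 10))) = √CH * (T * L ^ (-(9 / 2 : ℝ))) ^ 2 := by
    have h5 : L ^ (4 * q + 1) * L ^ (-(4 * q + 10)) = (L ^ (-(9 / 2 : ℝ))) ^ 2 := by
      rw [← Real.rpow_add hL0, ← Real.rpow_natCast, ← Real.rpow_mul hL0.le]
      congr 1
      push_cast
      ring
    calc T * L ^ (4 * q + 1) * (√CH * T * L ^ (-(4 * q + 10))) =
        √CH * T ^ 2 * (L ^ (4 * q + 1) * L ^ (-(4 * q + 10))) := by ring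
      _ = _ := by
        rw [h5]
        ring
  rw [h4, Real.sqrt_mul (Real.sqrt_nonneg _), Real.sqrt_sq (by positivity)]
  have h6 : L ^ 2 * L ^ (-(9 / 2 : ℝ)) ≤ 1 := by
    rw [← Real.rpow_natCast, ← Real.rpow_add hL0]
    exact Real.rpow_le_one_of_one_le_of_nonpos hL (by norm_num)
  calc L ^ 2 * (√√CH * (T * L ^ (-(9 / 2 : ℝ)))) = T * √√CH * (L ^ 2 * L ^ (-(9 / 2 : ℝ))) := by
        ring
    _ ≤ T * √√CH * 1 := mul_le_mul_of_nonneg_left h6 (by positivity)
    _ = T * √√CH := mul_one _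

private theorem upp_ev : ∀ᶠ T : ℝ in atTop,
    8 * Real.log (Real.log T) ^ 2 * (Real.exp (3 * Real.log (Real.log T) ^ 2) *
      T ^ (3 / 4 : ℝ)) ≤ T := by
  have h1 := ((Real.isLittleO_pow_log_id_atTop (n := 2)).def
    (show (0 : ℝ) < 1 / 44 by norm_num))
  have h2 := Real.tendsto_log_atTop.eventually h1
  filter_upwards [h2, eventually_gt_atTop (1 : ℝ)] with T h3 hT1
  have hT : 0 < T := by linarith
  have hL : 0 < Real.log T := Real.log_pos hT1
  rw [Real.norm_of_nonneg (sq_nonneg _), id, Real.norm_of_nonneg hL.le] at h3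
  set l := Real.log (Real.log T) with hl
  have h4 : 8 * l ^ 2 ≤ Real.exp (8 * l ^ 2) := by
    have := Real.add_one_le_exp (8 * l ^ 2)
    linarith
  have h5 : Real.exp (8 * l ^ 2) * Real.exp (3 * l ^ 2) ≤ T ^ (1 / 4 : ℝ) := by
    rw [← Real.exp_add, Real.rpow_def_of_pos hT]
    apply Real.exp_le_exp.2
    linarith
  calc 8 * l ^ 2 * (Real.exp (3 * l ^ 2) * T ^ (3 / 4 : ℝ))
      ≤ Real.exp (8 * l ^ 2) * (Real.exp (3 * l ^ 2) * T ^ (3 / 4 : ℝ)) :=
        mul_le_mul_of_nonneg_right h4 (by positivity)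
    _ = (Real.exp (8 * l ^ 2) * Real.exp (3 * l ^ 2)) * T ^ (3 / 4 : ℝ) := by ring
    _ ≤ T ^ (1 / 4 : ℝ) * T ^ (3 / 4 : ℝ) := mul_le_mul_of_nonneg_right h5 (by positivity)
    _ = T := by
        rw [← Real.rpow_add hT]
        norm_num

private theorem upp_y1 (σ : ℝ) : ∀ᶠ T : ℝ in atTop,
    (S1.y1 σ T : ℝ) ≤ Real.log (Real.log T) ^ S1.As σ ∧ (S1.y1 σ T : ℝ) ≤ Real.log T := by
  have h1 := ((Real.isLittleO_pow_log_id_atTop (n := S1.As σ)).def
    (show (0 : ℝ) < 1 by norm_num))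
  have h2 := Real.tendsto_log_atTop.eventually h1
  have h3 := (Real.tendsto_log_atTop.comp Real.tendsto_log_atTop).eventually_ge_atTop 0
  filter_upwards [h2, h3, eventually_gt_atTop (1 : ℝ)] with T h4 h5 hT1
  have hL : 0 < Real.log T := Real.log_pos hT1
  have h6 : 0 ≤ Real.log (Real.log T) := h5
  have h7 : (S1.y1 σ T : ℝ) ≤ Real.log (Real.log T) ^ S1.As σ := Nat.floor_le (pow_nonneg h6 _)
  rw [Real.norm_of_nonneg (pow_nonneg h6 _), id, Real.norm_of_nonneg hL.le, one_mul] at h4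
  exact ⟨h7, h7.trans h4⟩

private theorem upp_card {n : ℕ} {l : ℝ} (_hl : 0 ≤ l) (h : Real.exp ((n : ℝ) / 2) ≤ 2 * l) :
    ((#(range (n + 1)).powerset : ℕ) : ℝ) ≤ 8 * l ^ 2 := by
  rw [Finset.card_powerset, Finset.card_range]
  push_cast
  have h1 : (2 : ℝ) ≤ Real.exp 1 := by
    have := Real.add_one_le_exp (1 : ℝ)
    linarith
  have h2 : (2 : ℝ) ^ n ≤ Real.exp ((n : ℝ) / 2) ^ 2 := by
    calc (2 : ℝ) ^ n ≤ Real.exp 1 ^ n := pow_le_pow_left₀ (by norm_num) h1 n
      _ = Real.exp ((n : ℝ) / 2) ^ 2 := by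
        rw [← Real.exp_nat_mul, ← Real.exp_nat_mul]
        congr 1
        push_cast
        ring
  have h3 : Real.exp ((n : ℝ) / 2) ^ 2 ≤ (2 * l) ^ 2 := pow_le_pow_left₀ (Real.exp_pos _).le h 2
  rw [pow_succ]
  nlinarith

private theorem upp_WS {k C1 C0 η T : ℝ} {m : ℕ} (hk : 0 < k) (hC0 : 4 ≤ C0)
    (hl : 0 ≤ Real.log (Real.log T)) (S : Finset ℕ) : 0 ≤ WS k m C1 C0 η T S := by
  unfold WS
  refine Finset.prod_nonneg fun i _ => ?_
  unfold wS
  split_ifs
  · exact (Real.exp_pos _).le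
  · have h1 : 0 ≤ Vu C0 T i := by
      unfold Vu
      split_ifs
      · linarith
      · exact mul_nonneg (by linarith) hl
    have h2 : 0 ≤ ck k := by
      unfold ck
      linarith
    positivity

/-- **The moments of `ζ(σ+iat)` against `‖AS_S‖²`, summed over `S`.** -/
theorem pUps (hBk : S_Bk) (hPsl : S_Psl) (hWeg : S_Weg) (hM4 : S_M4)
    (hWsm : S_Wsm) (hFz : S_Fz) (hMt : S_Mt) : S_Ups := by
  intro k m hk hm
  obtain ⟨C0, hC0⟩ := hMt
  refine ⟨max 1 (3 * ck k ^ 2 * m * C0), ?_⟩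
  intro C1 hC1 η hη hη1 hηm σ a Kz om δ z gs hσ hσ1 ha hom hom1 hgs r
  have hC11 : 1 ≤ C1 := (le_max_left _ _).trans hC1
  have hC13 : 3 * ck k ^ 2 * m * C0 ≤ C1 := (le_max_right _ _).trans hC1
  have hC04 : 4 ≤ C0 := hC0.1
  have hC14 : 2 * m * ck k ^ 2 * C0 ≤ C1 := by
    have h1 : 0 ≤ ck k ^ 2 * m * C0 := by
      have : 0 ≤ C0 := by linarith
      positivity
    nlinarith
  obtain ⟨Cp, hCp, hP⟩ := hPsl k m C1 C0 η a (2 * σ + 1) hk hm hC11 hC0 hη hη1 hηm ha
    (by linarith)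
  obtain ⟨CW, hCW, hW⟩ := hWeg σ a |r| 1 Cp (S1.As σ) hσ hσ1 ha (abs_nonneg r) one_pos hCp
  have hM := hM4 k m C1 C0 η hk hm hC0 hC14 hη hη1 hηm
  obtain ⟨CM, hCM, hMs⟩ := hWsm k m C1 C0 η hk hm hC0 hC13 hη hη1
  have hF := hFz σ a (8 * k ^ 2 + 20) Kz hσ hσ1 ha (by positivity)
  obtain ⟨CH, hCH, hH⟩ := (S1.pHx S1.pSz S1.pTay (S1.pEq S1.pMn S1.pNn)) σ a (4 * |r|) om Kz hσ
    ha (by positivity) hom hom1
  set cσ : ℝ := 2 * (2 * σ / (2 * σ - 1)) with hcσ
  set C3 : ℝ := Real.exp (|r| * (Real.log 2 + cσ)) with hC3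
  have hC30 : 0 < C3 := Real.exp_pos _
  refine ⟨C3 * (Real.exp |r| * (CW * CM + 1) + 8 * √(√CH)), by positivity, ?_⟩
  filter_upwards [hBk C0 η hC0 hη hη1, hP, hW, hM, hMs, hF, hH, hgs, upp_ev, upp_y1 σ,
    (Real.tendsto_log_atTop.comp Real.tendsto_log_atTop).eventually_ge_atTop 0,
    Real.tendsto_log_atTop.eventually_ge_atTop (1 : ℝ), eventually_gt_atTop (1 : ℝ)]
    with T hBT hPT hWT hMT hMsT hFT hHT hg hev hy hl0 hL1 hT1
  obtain ⟨-, -, -, ⟨-, b4⟩, b5, -, -⟩ := hBT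
  obtain ⟨g1, g2, g3, g4, -, g6⟩ := hg
  obtain ⟨y1a, y1b⟩ := hy
  have hT : 0 < T := by linarith
  have hTle : T ≤ 2 * T := by linarith
  have hl : 0 ≤ Real.log (Real.log T) := hl0
  have hL0 : 0 < Real.log T := by linarith
  have hLk : 1 ≤ Real.log T ^ (k ^ 2) := Real.one_le_rpow hL1 (sq_nonneg k)
  have hyz : S1.y1 σ T ≤ z T := by
    have : (S1.y1 σ T : ℝ) ≤ (z T : ℝ) := y1b.trans g1
    exact_mod_cast this
  set PS := (range (nI T + 1)).powerset with hPS
  -- the functions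
  set X : ℝ → ℝ := fun t => Real.exp (|r| * ‖S1.psumS σ 0 (z T) (a * t)‖) with hX
  set W : Finset ℕ → ℝ → ℝ := fun S t => ‖AS k m C1 η S T t‖ ^ 2 with hWdef
  have hXc : Continuous X :=
    Real.continuous_exp.comp (continuous_const.mul (upp_psum_cont σ 0 (z T) a).norm)
  have hWc : ∀ S, Continuous (W S) := fun S =>
    (upp_cont (fun i => m * Kb C1 i) (fS k m C1 S) b5).norm.pow 2
  have hX0 : ∀ t, 0 ≤ X t := fun t => (Real.exp_pos _).le
  have hW0 : ∀ S t, 0 ≤ W S t := fun S t => sq_nonneg _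
  -- the exceptional set
  set F : Set ℝ := {t ∈ Set.Icc T (2 * T) |
      Real.log (Real.log T) < ‖S1.psumS σ 0 (S1.y1 σ T) (a * t)‖ ∨
      1 < ‖S1.psumS σ (S1.y1 σ T) (z T) (a * t)‖} with hFdef
  have hFm : MeasurableSet F := by
    have h1 : MeasurableSet {t : ℝ | Real.log (Real.log T) <
        ‖S1.psumS σ 0 (S1.y1 σ T) (a * t)‖} :=
      (isOpen_lt continuous_const (upp_psum_cont σ 0 (S1.y1 σ T) a).norm).measurableSet
    have h2 : MeasurableSet {t : ℝ | 1 < ‖S1.psumS σ (S1.y1 σ T) (z T) (a * t)‖} :=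
      (isOpen_lt continuous_const (upp_psum_cont σ (S1.y1 σ T) (z T) a).norm).measurableSet
    exact measurableSet_Icc.inter (h1.union h2)
  have hFv : volume F ≤ ENNReal.ofReal (T * Real.log T ^ (-(8 * k ^ 2 + 20))) := hFT (z T) g2
  -- one set `S`
  have hone : ∀ S ∈ PS, ∫ t in gs T, W S t * X t ≤
      Real.exp |r| * (CW * (T * WS k m C1 C0 η T S) +
        Real.exp (3 * Real.log (Real.log T) ^ 2) * T ^ (3 / 4 : ℝ)) +
      √(T * Real.log T ^ (4 * k ^ 2 + 1)) *
        √(√(T * Real.log T ^ (-(8 * k ^ 2 + 20))) * √(CH * T)) := by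
    intro S _
    have hint : IntegrableOn (fun t => W S t * X t) (gs T) :=
      (((hWc S).mul hXc).continuousOn.integrableOn_Icc).mono_set g4
    have hsplit : ∫ t in gs T, W S t * X t =
        (∫ t in gs T \ F, W S t * X t) + ∫ t in gs T ∩ F, W S t * X t := by
      rw [add_comm]
      exact (integral_inter_add_sdiff hFm hint).symm
    rw [hsplit]
    refine add_le_add ?_ ?_
    · -- the good part
      obtain ⟨ψ, hψ1, hψ2⟩ := hPT S
      have h1 := hWT (fun t => ‖AS k m C1 η S T t‖ ^ 2) (T * WS k m C1 C0 η T S)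
        (T ^ (3 / 4 : ℝ)) ψ (hWc S) (hW0 S) (mul_nonneg hT.le (upp_WS hk hC04 hl S))
        (by positivity) hψ1 hψ2 (S1.y1 σ T) y1a
      rw [one_mul] at h1
      set G1 : Set ℝ := {t ∈ Set.Icc T (2 * T) |
        ‖S1.psumS σ 0 (S1.y1 σ T) (a * t)‖ ≤ Real.log (Real.log T)} with hG1
      have hsub : gs T \ F ⊆ G1 := by
        rintro t ⟨ht, htF⟩
        refine ⟨g4 ht, ?_⟩
        by_contra hn
        push Not at hn
        exact htF ⟨g4 ht, Or.inl hn⟩
      set X1 : ℝ → ℝ := fun t => Real.exp (|r| * ‖S1.psumS σ 0 (S1.y1 σ T) (a * t)‖) with hX1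
      have hX1c : Continuous X1 :=
        Real.continuous_exp.comp (continuous_const.mul (upp_psum_cont σ 0 (S1.y1 σ T) a).norm)
      have hi1 : IntegrableOn (fun t => Real.exp |r| * (W S t * X1 t)) (Set.Icc T (2 * T)) :=
        (continuous_const.mul ((hWc S).mul hX1c)).continuousOn.integrableOn_Icc
      calc ∫ t in gs T \ F, W S t * X t
          ≤ ∫ t in gs T \ F, Real.exp |r| * (W S t * X1 t) := by
            refine setIntegral_mono_on (hint.mono_set Set.sdiff_subset)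
              (hi1.mono_set (Set.sdiff_subset.trans g4)) (g3.diff hFm) fun t ht => ?_
            have h2 : ‖S1.psumS σ (S1.y1 σ T) (z T) (a * t)‖ ≤ 1 := by
              by_contra hn
              push Not at hn
              exact ht.2 ⟨g4 ht.1, Or.inr hn⟩
            have h3 : X t ≤ Real.exp |r| * X1 t := by
              simp only [hX, hX1]
              rw [← Real.exp_add]
              apply Real.exp_le_exp.2
              rw [upp_psum_add σ (S1.y1 σ T) (z T) hyz]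
              have h4 := norm_add_le (S1.psumS σ 0 (S1.y1 σ T) (a * t))
                (S1.psumS σ (S1.y1 σ T) (z T) (a * t))
              have h5 := abs_nonneg r
              nlinarith
            calc W S t * X t ≤ W S t * (Real.exp |r| * X1 t) :=
                  mul_le_mul_of_nonneg_left h3 (hW0 S t)
              _ = Real.exp |r| * (W S t * X1 t) := by ring
        _ ≤ ∫ t in G1, Real.exp |r| * (W S t * X1 t) :=
            setIntegral_mono_set (hi1.mono_set fun t ht => ht.1)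
              (Filter.Eventually.of_forall fun t => mul_nonneg (Real.exp_pos _).le
                (mul_nonneg (hW0 S t) (Real.exp_pos _).le)) hsub.eventuallyLE
        _ = Real.exp |r| * ∫ t in G1, W S t * X1 t := integral_const_mul _ _
        _ ≤ _ := mul_le_mul_of_nonneg_left h1 (Real.exp_pos _).le
    · -- the exceptional part
      set H : Set ℝ := {t ∈ Set.Icc T (2 * T) |
        ‖S1.psumS σ 0 (z T) (a * t)‖ ≤ Real.log T ^ om} with hHdef
      have h1 : gs T ∩ F ⊆ H := fun t ht => ⟨g4 ht.1, (g6 t ht.1).1⟩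
      refine upp_B h1 (fun t ht => ht.1) (hWc S) hXc (hW0 S) hX0 (by positivity) ?_
        ((measure_mono Set.inter_subset_right).trans hFv) ?_
      · have h2 := hMT S
        rw [intervalIntegral.integral_of_le hTle, ← integral_Icc_eq_integral_Ioc] at h2
        refine le_trans (le_of_eq ?_) h2
        refine integral_congr_ae (Filter.Eventually.of_forall fun t => ?_)
        simp only [hWdef]
        ring
      · refine le_trans (le_of_eq ?_) (hHT 0 (z T) g2)
        refine integral_congr_ae (Filter.Eventually.of_forall fun t => ?_)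
        simp only [hX]
        rw [← Real.exp_nat_mul]
        congr 1
        push_cast
        ring
  -- the pointwise bound
  have hpt : ∀ S : Finset ℕ, ∀ t ∈ gs T, W S t * ‖S1.fzS σ a t‖ ^ r ≤
      C3 * (W S t * X t) := by
    intro S t ht
    obtain ⟨-, h2, h3⟩ := g6 t ht
    obtain ⟨he, hlog⟩ := S1.pEs σ 0 (z T) (a * t) hσ.le
    have he0 : 0 < ‖S1.eulS σ 0 (z T) (a * t)‖ := norm_pos_iff.2 he
    have htail : S1.tail (2 * σ) 0 (z T) ≤ 2 * σ / (2 * σ - 1) :=
      S1.pSz.2.1 (2 * σ) (by linarith) 0 (z T)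
    have hlog' : |Real.log ‖S1.eulS σ 0 (z T) (a * t)‖| ≤
        ‖S1.psumS σ 0 (z T) (a * t)‖ + cσ := by
      have h4 := Complex.abs_re_le_norm (S1.psumS σ 0 (z T) (a * t))
      have h5 := abs_sub (Real.log ‖S1.eulS σ 0 (z T) (a * t)‖ +
        (S1.psumS σ 0 (z T) (a * t)).re) (S1.psumS σ 0 (z T) (a * t)).re
      rw [add_sub_cancel_right] at h5
      rw [hcσ]
      linarith
    have h6 := upp_pow (r := r) he0 h2 h3 hlog'
    calc W S t * ‖S1.fzS σ a t‖ ^ r ≤ W S t * (C3 * X t) :=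
          mul_le_mul_of_nonneg_left h6 (hW0 S t)
      _ = C3 * (W S t * X t) := by ring
  have hI : ∑ S ∈ PS, ∫ t in gs T, W S t * ‖S1.fzS σ a t‖ ^ r ≤
      C3 * ∑ S ∈ PS, ∫ t in gs T, W S t * X t := by
    rw [Finset.mul_sum]
    refine Finset.sum_le_sum fun S _ => ?_
    calc ∫ t in gs T, W S t * ‖S1.fzS σ a t‖ ^ r ≤ ∫ t in gs T, C3 * (W S t * X t) := by
          refine integral_mono_of_nonneg (Filter.Eventually.of_forall fun t => ?_)
            (((continuous_const.mul ((hWc S).mul hXc)).continuousOn.integrableOn_Icc).mono_set g4)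
            ((ae_restrict_iff' g3).2 (Filter.Eventually.of_forall (hpt S)))
          exact mul_nonneg (hW0 S t) (Real.rpow_nonneg (norm_nonneg _) _)
      _ = C3 * ∫ t in gs T, W S t * X t := integral_const_mul _ _
  have hcard : ((#PS : ℕ) : ℝ) ≤ 8 * Real.log (Real.log T) ^ 2 := upp_card hl b4
  have hlL : Real.log (Real.log T) ≤ Real.log T := by
    have := Real.log_le_sub_one_of_pos hL0
    linarith
  have hnum := upp_num (q := k ^ 2) hT hL1 hCH
  set Bn : ℝ := √(T * Real.log T ^ (4 * k ^ 2 + 1)) *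
        √(√(T * Real.log T ^ (-(8 * k ^ 2 + 20))) * √(CH * T)) with hBn
  have hBn0 : 0 ≤ Bn := by positivity
  have hsum : ∑ S ∈ PS, ∫ t in gs T, W S t * X t ≤
      (Real.exp |r| * (CW * CM + 1) + 8 * √(√CH)) * (T * Real.log T ^ (k ^ 2)) := by
    have h1 : ∑ S ∈ PS, (Real.exp |r| * (CW * (T * WS k m C1 C0 η T S) +
        Real.exp (3 * Real.log (Real.log T) ^ 2) * T ^ (3 / 4 : ℝ)) + Bn) =
        Real.exp |r| * (CW * T * ∑ S ∈ PS, WS k m C1 C0 η T S +
          (#PS : ℝ) * (Real.exp (3 * Real.log (Real.log T) ^ 2) * T ^ (3 / 4 : ℝ))) +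
          (#PS : ℝ) * Bn := by
      have h1a : ∀ S ∈ PS, (Real.exp |r| * (CW * (T * WS k m C1 C0 η T S) +
          Real.exp (3 * Real.log (Real.log T) ^ 2) * T ^ (3 / 4 : ℝ)) + Bn) =
          Real.exp |r| * CW * T * WS k m C1 C0 η T S + (Real.exp |r| *
          (Real.exp (3 * Real.log (Real.log T) ^ 2) * T ^ (3 / 4 : ℝ)) + Bn) :=
        fun S _ => by ring
      rw [Finset.sum_congr rfl h1a, Finset.sum_add_distrib, ← Finset.mul_sum, Finset.sum_const,
        nsmul_eq_mul]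
      ring
    refine (Finset.sum_le_sum hone).trans ?_
    rw [h1]
    have h2 : (#PS : ℝ) * (Real.exp (3 * Real.log (Real.log T) ^ 2) * T ^ (3 / 4 : ℝ)) ≤ T :=
      (mul_le_mul_of_nonneg_right hcard (by positivity)).trans hev
    have h3 : (#PS : ℝ) * Bn ≤ 8 * (T * √(√CH)) := by
      have h4 : (#PS : ℝ) ≤ 8 * Real.log T ^ 2 := by
        refine hcard.trans ?_
        have := pow_le_pow_left₀ hl hlL 2
        linarith
      calc (#PS : ℝ) * Bn ≤ (8 * Real.log T ^ 2) * Bn := mul_le_mul_of_nonneg_right h4 hBn0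
        _ = 8 * (Real.log T ^ 2 * Bn) := by ring
        _ ≤ 8 * (T * √(√CH)) := mul_le_mul_of_nonneg_left hnum (by norm_num)
    have h5 : CW * T * ∑ S ∈ PS, WS k m C1 C0 η T S ≤
        CW * T * (CM * Real.log T ^ (k ^ 2)) :=
      mul_le_mul_of_nonneg_left hMsT (by positivity)
    have h6 : T ≤ T * Real.log T ^ (k ^ 2) := by
      have := mul_le_mul_of_nonneg_left hLk hT.le
      linarith
    have h7 : 0 ≤ √(√CH) := Real.sqrt_nonneg _
    have h8 : 8 * (T * √(√CH)) ≤ 8 * √(√CH) * (T * Real.log T ^ (k ^ 2)) := by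
      have := mul_le_mul_of_nonneg_left h6 h7
      linarith
    have h9 : Real.exp |r| * (CW * T * ∑ S ∈ PS, WS k m C1 C0 η T S +
        (#PS : ℝ) * (Real.exp (3 * Real.log (Real.log T) ^ 2) * T ^ (3 / 4 : ℝ))) ≤
        Real.exp |r| * (CW * T * (CM * Real.log T ^ (k ^ 2)) + T * Real.log T ^ (k ^ 2)) :=
      mul_le_mul_of_nonneg_left (by linarith) (Real.exp_pos _).le
    calc Real.exp |r| * (CW * T * ∑ S ∈ PS, WS k m C1 C0 η T S +
          (#PS : ℝ) * (Real.exp (3 * Real.log (Real.log T) ^ 2) * T ^ (3 / 4 : ℝ))) +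
          (#PS : ℝ) * Bn
        ≤ Real.exp |r| * (CW * T * (CM * Real.log T ^ (k ^ 2)) + T * Real.log T ^ (k ^ 2)) +
          8 * √(√CH) * (T * Real.log T ^ (k ^ 2)) := add_le_add h9 (h3.trans h8)
      _ = _ := by ring
  calc ∑ S ∈ PS, ∫ t in gs T, ‖AS k m C1 η S T t‖ ^ 2 * ‖S1.fzS σ a t‖ ^ r
      ≤ C3 * ∑ S ∈ PS, ∫ t in gs T, W S t * X t := hI
    _ ≤ C3 * ((Real.exp |r| * (CW * CM + 1) + 8 * √(√CH)) *
        (T * Real.log T ^ (k ^ 2))) := mul_le_mul_of_nonneg_left hsum (by positivity)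
    _ = C3 * (Real.exp |r| * (CW * CM + 1) + 8 * √(√CH)) * T *
        Real.log T ^ (k ^ 2) := by ring

end Pool.Agent.Lib.MP_aa9ae4_nt.U1
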