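import Mathlib
import Pool.Agent.Lib.MP_aa9ae4_nt.U1.SpecU
import Pool.Agent.Lib.MP_aa9ae4_nt.S1.PTay

/-!
MP_aa9ae4_nt, Theorem U: pointwise inequality in one block (`S_Upt`).
-/

namespace Pool.Agent.Lib.MP_aa9ae4_nt.U1

open Finset MeasureTheory Filter Topology
open Complex (I)
open Pool.Agent.Lib.MP_aa9ae4_nt.L1
open Pool.Agent.Lib.MP_aa9ae4_nt.S1 (expJ pTay)

private theorem upt_tay (K : ℕ) (y : ℂ) (hy : ‖y‖ ≤ (K : ℝ) / 20) :
    ‖expJ K y‖ ≤ Real.exp y.re * (1 + Real.exp (-(19 / 20 * (K : ℝ)))) ∧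
    Real.exp y.re * (1 - Real.exp (-(19 / 20 * (K : ℝ)))) ≤ ‖expJ K y‖ := by
  have hK : (0 : ℝ) ≤ K := Nat.cast_nonneg K
  have h1 : ‖Complex.exp y - expJ K y‖ ≤ Real.exp (-(K : ℝ)) := pTay K y (by linarith)
  have h2 : ‖Complex.exp y‖ = Real.exp y.re := Complex.norm_exp y
  have h3 : -((K : ℝ) / 20) ≤ y.re := by
    have := Complex.abs_re_le_norm y
    have := neg_abs_le y.re
    linarith
  have h4 : Real.exp (-(K : ℝ)) ≤ Real.exp y.re * Real.exp (-(19 / 20 * (K : ℝ))) := by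
    rw [← Real.exp_add]
    exact Real.exp_le_exp.2 (by linarith)
  have h5 : ‖expJ K y‖ ≤ ‖Complex.exp y‖ + ‖Complex.exp y - expJ K y‖ := by
    have : expJ K y = Complex.exp y - (Complex.exp y - expJ K y) := by ring
    calc ‖expJ K y‖ = ‖Complex.exp y - (Complex.exp y - expJ K y)‖ := by rw [← this]
      _ ≤ _ := norm_sub_le _ _
  have h6 : ‖Complex.exp y‖ ≤ ‖expJ K y‖ + ‖Complex.exp y - expJ K y‖ := by
    calc ‖Complex.exp y‖ = ‖expJ K y + (Complex.exp y - expJ K y)‖ := by ring_nf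
      _ ≤ _ := norm_add_le _ _
  constructor
  · rw [mul_add, mul_one]
    linarith
  · rw [mul_sub, mul_one]
    linarith


theorem pUpt : S_Upt := by
  intro k m hk hk1
  refine ⟨20, fun K hK0 hK x => ?_⟩
  have hKpos : (0 : ℝ) < K := by exact_mod_cast hK
  have hK20 : (20 : ℝ) ≤ K := by exact_mod_cast hK0
  have h1k : 0 < 1 - k := by linarith
  have hnk : ‖((k : ℂ) * x)‖ = k * ‖x‖ := by
    rw [norm_mul, Complex.norm_real, Real.norm_eq_abs, abs_of_pos hk]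
  have hnk1 : ‖(((k - 1 : ℝ) : ℂ) * x)‖ ≤ (k + 1) * ‖x‖ := by
    rw [norm_mul, Complex.norm_real, Real.norm_eq_abs]
    refine mul_le_mul_of_nonneg_right ?_ (norm_nonneg _)
    rw [abs_le]
    constructor <;> linarith
  have hx0 : 0 ≤ ‖x‖ := norm_nonneg x
  by_cases hx : ‖x‖ ≤ K / (20 * (k + 1))
  · have hx1 : (k + 1) * ‖x‖ ≤ K / 20 := by
      rw [le_div_iff₀ (by positivity)] at hx
      linarith
    set δ := Real.exp (-(19 / 20 * (K : ℝ))) with hδ
    set ε := Real.exp (-(K : ℝ) / 2) with hε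
    have hδ0 : 0 < δ := Real.exp_pos _
    have hε0 : 0 < ε := Real.exp_pos _
    have hε1 : ε ≤ 1 := by
      rw [hε, Real.exp_le_one_iff]
      linarith
    have hδε : 10 * δ ≤ ε := by
      have h1 : ε = Real.exp (9 / 20 * K) * δ := by
        rw [hε, hδ, ← Real.exp_add]
        congr 1
        ring
      have h2 : 9 / 20 * (K : ℝ) + 1 ≤ Real.exp (9 / 20 * K) := Real.add_one_le_exp _
      rw [h1]
      refine mul_le_mul_of_nonneg_right ?_ hδ0.le
      linarith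
    have hδ1 : δ ≤ 1 / 10 := by linarith
    obtain ⟨-, l1⟩ := upt_tay K (((k - 1 : ℝ) : ℂ) * x) (by linarith)
    obtain ⟨-, l2⟩ := upt_tay K ((k : ℂ) * x) (by rw [hnk]; nlinarith)
    rw [← hδ] at l1 l2
    have hre1 : (((k - 1 : ℝ) : ℂ) * x).re = (k - 1) * x.re := Complex.re_ofReal_mul _ _
    have hre2 : ((k : ℂ) * x).re = k * x.re := Complex.re_ofReal_mul _ _
    rw [hre1] at l1
    rw [hre2] at l2
    have hb0 : (0 : ℝ) < 1 - δ := by linarith
    have hL : (1 - δ) ^ 2 ≤ (‖expJ K (((k - 1 : ℝ) : ℂ) * x)‖ ^ 2) ^ k *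
        (‖expJ K ((k : ℂ) * x)‖ ^ 2) ^ (1 - k) := by
      have e1 : (1 - δ) ^ 2 = ((Real.exp ((k - 1) * x.re) * (1 - δ)) ^ 2) ^ k *
          ((Real.exp (k * x.re) * (1 - δ)) ^ 2) ^ (1 - k) := by
        rw [mul_pow, mul_pow, Real.mul_rpow (by positivity) (by positivity),
          Real.mul_rpow (by positivity) (by positivity), ← Real.exp_nat_mul, ← Real.exp_nat_mul,
          ← Real.exp_mul, ← Real.exp_mul]
        have e2 : Real.exp (((2 : ℕ) : ℝ) * ((k - 1) * x.re) * k) *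
            Real.exp (((2 : ℕ) : ℝ) * (k * x.re) * (1 - k)) = 1 := by
          rw [← Real.exp_add]
          have : ((2 : ℕ) : ℝ) * ((k - 1) * x.re) * k + ((2 : ℕ) : ℝ) * (k * x.re) * (1 - k) = 0 := by
            ring
          rw [this, Real.exp_zero]
        have e3 : ((1 - δ) ^ 2) ^ k * ((1 - δ) ^ 2) ^ (1 - k) = (1 - δ) ^ 2 := by
          rw [← Real.rpow_add (by positivity)]
          norm_num
        calc (1 - δ) ^ 2 = 1 * ((1 - δ) ^ 2) := (one_mul _).symm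
          _ = (Real.exp (((2 : ℕ) : ℝ) * ((k - 1) * x.re) * k) *
            Real.exp (((2 : ℕ) : ℝ) * (k * x.re) * (1 - k))) *
            (((1 - δ) ^ 2) ^ k * ((1 - δ) ^ 2) ^ (1 - k)) := by rw [e2, e3]
          _ = _ := by ring
      rw [e1]
      have p1 : 0 ≤ Real.exp ((k - 1) * x.re) * (1 - δ) := by positivity
      have p2 : 0 ≤ Real.exp (k * x.re) * (1 - δ) := by positivity
      exact mul_le_mul
        (Real.rpow_le_rpow (by positivity) (pow_le_pow_left₀ p1 l1 2) hk.le)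
        (Real.rpow_le_rpow (by positivity) (pow_le_pow_left₀ p2 l2 2) h1k.le)
        (by positivity) (by positivity)
    have h2 : (0 : ℝ) ≤ (ck k * ‖x‖ / K) ^ (2 * (m * K)) := by
      rw [pow_mul]
      positivity
    have h3 : 1 ≤ (1 + ε) * (1 - δ) ^ 2 := by
      have q1 : 1 - 2 * δ ≤ (1 - δ) ^ 2 := by nlinarith [sq_nonneg δ]
      have q2 := mul_le_mul_of_nonneg_left q1 (by linarith : (0 : ℝ) ≤ 1 + ε)
      have q3 : δ * ε ≤ δ * 1 := mul_le_mul_of_nonneg_left hε1 hδ0.le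
      have q4 : (1 + ε) * (1 - 2 * δ) = 1 + ε - 2 * δ - 2 * (δ * ε) := by ring
      linarith
    have h4 := mul_le_mul_of_nonneg_left hL (by linarith : (0 : ℝ) ≤ 1 + ε)
    linarith
  · push Not at hx
    have h1 : 1 ≤ ck k * ‖x‖ / K := by
      rw [div_lt_iff₀ (by positivity)] at hx
      rw [le_div_iff₀ hKpos]
      unfold ck
      nlinarith
    have h2 : 1 ≤ (ck k * ‖x‖ / K) ^ (2 * (m * K)) := one_le_pow₀ h1
    have h3 : 0 ≤ (1 + Real.exp (-(K : ℝ) / 2)) * ((‖expJ K (((k - 1 : ℝ) : ℂ) * x)‖ ^ 2) ^ k *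
        (‖expJ K ((k : ℂ) * x)‖ ^ 2) ^ (1 - k)) := by positivity
    linarith

end Pool.Agent.Lib.MP_aa9ae4_nt.U1
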