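import Mathlib
import Pool.Agent.Lib.MP_aa9ae4_nt.U1.SpecU

/-!
MP_aa9ae4_nt, Theorem U: one block of type Q in the quadratic form (`S_Uqb`).
-/

namespace Pool.Agent.Lib.MP_aa9ae4_nt.U1

open Finset MeasureTheory Filter Topology
open Complex (I)
open Pool.Agent.Lib.MP_aa9ae4_nt.L1
open Pool.Agent.Lib.MP_aa9ae4_nt.S1 (pw psumS eulS tail prs nn KK expJ HT fzS y1)

private theorem uqb_KK {s : Finset ℕ} {J : ℕ} {k : ℕ → ℕ} :
    k ∈ KK s J ↔ ∑ p ∈ s, k p ≤ J ∧ ∀ p, k p ≠ 0 → p ∈ s := by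
  classical
  unfold KK
  rw [Finset.mem_biUnion]
  constructor
  · rintro ⟨j, hj, hk⟩
    rw [mem_piAntidiag] at hk
    rw [Finset.mem_range] at hj
    exact ⟨by rw [hk.1]; omega, hk.2⟩
  · rintro ⟨h1, h2⟩
    exact ⟨∑ p ∈ s, k p, Finset.mem_range.2 (by omega), mem_piAntidiag.2 ⟨rfl, h2⟩⟩

/-- the square `{0,...,K}²` -/
private def uqS (K : ℕ) : Finset (ℕ × ℕ) := range (K + 1) ×ˢ range (K + 1)

/-- the local factor -/
private noncomputable def uqq (α : ℝ) (p : ℕ) (x : ℕ × ℕ) : ℝ :=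
  α ^ (x.1 + x.2) / ((x.1.factorial : ℝ) * (x.2.factorial : ℝ)) * ((p : ℝ) ^ (max x.1 x.2))⁻¹

private theorem uqb_sum (B : Finset ℕ) (K : ℕ) (G : (B → ℕ × ℕ) → ℝ) :
    ∑ u ∈ KK B K, ∑ v ∈ KK B K, G (fun i => (u i, v i)) =
      ∑ x ∈ (Fintype.piFinset fun _ : B => uqS K).filter
        (fun x => ∑ i, (x i).1 ≤ K ∧ ∑ i, (x i).2 ≤ K), G x := by
  classical
  rw [← Finset.sum_product' (KK B K) (KK B K) (fun u v => G (fun i => (u i, v i)))]
  refine Finset.sum_nbij' (fun w => fun i => (w.1 i, w.2 i))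
    (fun x => (fun p => if h : p ∈ B then (x ⟨p, h⟩).1 else 0,
      fun p => if h : p ∈ B then (x ⟨p, h⟩).2 else 0)) ?_ ?_ ?_ ?_ ?_
  · rintro ⟨u, v⟩ huv
    rw [Finset.mem_product] at huv
    obtain ⟨hu, hv⟩ := huv
    simp only at hu hv
    rw [uqb_KK] at hu hv
    have h1 : ∑ i : B, u i ≤ K := by
      rw [Finset.sum_coe_sort B u]; exact hu.1
    have h2 : ∑ i : B, v i ≤ K := by
      rw [Finset.sum_coe_sort B v]; exact hv.1
    rw [Finset.mem_filter, Fintype.mem_piFinset]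
    refine ⟨fun i => ?_, h1, h2⟩
    unfold uqS
    rw [Finset.mem_product, Finset.mem_range, Finset.mem_range]
    have h3 : u i ≤ ∑ i : B, u i := Finset.single_le_sum (f := fun i : B => u i)
      (fun _ _ => Nat.zero_le _) (Finset.mem_univ i)
    have h4 : v i ≤ ∑ i : B, v i := Finset.single_le_sum (f := fun i : B => v i)
      (fun _ _ => Nat.zero_le _) (Finset.mem_univ i)
    exact ⟨by simp only; omega, by simp only; omega⟩
  · intro x hx
    rw [Finset.mem_filter] at hx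
    obtain ⟨-, h1, h2⟩ := hx
    rw [Finset.mem_product]
    simp only
    rw [uqb_KK, uqb_KK]
    refine ⟨⟨?_, fun p hp => ?_⟩, ⟨?_, fun p hp => ?_⟩⟩
    · rw [← Finset.sum_coe_sort B]
      refine le_trans (le_of_eq ?_) h1
      exact Finset.sum_congr rfl fun i _ => by simp
    · by_contra h
      exact hp (by simp [h])
    · rw [← Finset.sum_coe_sort B]
      refine le_trans (le_of_eq ?_) h2
      exact Finset.sum_congr rfl fun i _ => by simp
    · by_contra h
      exact hp (by simp [h])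
  · rintro ⟨u, v⟩ huv
    rw [Finset.mem_product] at huv
    obtain ⟨hu, hv⟩ := huv
    simp only at hu hv
    rw [uqb_KK] at hu hv
    simp only [Prod.mk.injEq]
    refine ⟨funext fun p => ?_, funext fun p => ?_⟩
    · by_cases h : p ∈ B
      · simp [h]
      · have : u p = 0 := by
          by_contra h0
          exact h (hu.2 p h0)
        simp [h, this]
    · by_cases h : p ∈ B
      · simp [h]
      · have : v p = 0 := by
          by_contra h0
          exact h (hv.2 p h0)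
        simp [h, this]
  · intro x hx
    funext i
    simp
  · rintro ⟨u, v⟩ huv
    rfl

private theorem uqb_lq (α : ℝ) (B : Finset ℕ) (u v : ℕ → ℕ) :
    lq α B u v = ∏ i : B, uqq α i (u i, v i) := by
  unfold lq uqq
  exact (Finset.prod_coe_sort B (fun p => α ^ (u p + v p) / (((u p).factorial : ℝ) *
    ((v p).factorial : ℝ)) * ((p : ℝ) ^ (max (u p) (v p)))⁻¹)).symm

/-- exponential sums over the square -/
private theorem uqb_exp (y : ℝ) (hy : 0 ≤ y) (K : ℕ) :
    ∑ x ∈ uqS K, y ^ (x.1 + x.2) / ((x.1.factorial : ℝ) * (x.2.factorial : ℝ)) ≤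
      Real.exp (2 * y) := by
  unfold uqS
  rw [Finset.sum_product]
  have h1 : ∀ a ∈ range (K + 1), ∑ b ∈ range (K + 1),
      y ^ (a + b) / ((a.factorial : ℝ) * (b.factorial : ℝ)) =
      y ^ a / a.factorial * ∑ b ∈ range (K + 1), y ^ b / b.factorial := by
    intro a _
    rw [Finset.mul_sum]
    refine Finset.sum_congr rfl fun b _ => ?_
    rw [pow_add]
    field_simp
  have h2 : ∑ a ∈ range (K + 1), y ^ a / a.factorial ≤ Real.exp y := Real.sum_le_exp_of_nonneg hy _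
  have h3 : 0 ≤ ∑ a ∈ range (K + 1), y ^ a / a.factorial :=
    Finset.sum_nonneg fun a _ => by positivity
  calc _ = (∑ a ∈ range (K + 1), y ^ a / a.factorial) *
        ∑ b ∈ range (K + 1), y ^ b / b.factorial := by
        rw [Finset.sum_mul]
        exact Finset.sum_congr rfl h1
    _ ≤ Real.exp y * Real.exp y := mul_le_mul h2 h2 h3 (Real.exp_pos _).le
    _ = _ := by rw [← Real.exp_add]; congr 1; ring

private theorem uqb_abs (α : ℝ) (p : ℕ) (x : ℕ × ℕ) :
    |uqq α p x| = |α| ^ (x.1 + x.2) / ((x.1.factorial : ℝ) * (x.2.factorial : ℝ)) *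
      ((p : ℝ) ^ (max x.1 x.2))⁻¹ := by
  unfold uqq
  rw [abs_mul, abs_div, abs_pow, abs_of_nonneg (a := ((x.1.factorial : ℝ) * (x.2.factorial : ℝ)))
    (by positivity), abs_of_nonneg (a := ((p : ℝ) ^ (max x.1 x.2))⁻¹) (by positivity)]

/-- the sum of `|q| e^(c(a+b))` -/
private theorem uqb_big (α c : ℝ) (p K : ℕ) (hp : 2 ≤ p) :
    ∑ x ∈ uqS K, |uqq α p x| * Real.exp (c * ((x.1 : ℝ) + x.2)) ≤
      1 + Real.exp (2 * (Real.exp c * |α|)) * (p : ℝ)⁻¹ := by
  have hp0 : (1 : ℝ) ≤ p := by exact_mod_cast (by omega : 1 ≤ p)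
  have hy : 0 ≤ Real.exp c * |α| := by positivity
  have h1 : ∀ x ∈ uqS K, |uqq α p x| * Real.exp (c * ((x.1 : ℝ) + x.2)) ≤
      (if x = (0, 0) then 1 else 0) + (Real.exp c * |α|) ^ (x.1 + x.2) /
        ((x.1.factorial : ℝ) * (x.2.factorial : ℝ)) * (p : ℝ)⁻¹ := by
    rintro ⟨a, b⟩ -
    rw [uqb_abs]
    by_cases hab : a = 0 ∧ b = 0
    · obtain ⟨rfl, rfl⟩ := hab
      simp
    · have hne : ((a, b) : ℕ × ℕ) ≠ (0, 0) := by
        intro h
        rw [Prod.mk.injEq] at h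
        exact hab h
      rw [if_neg hne, zero_add]
      simp only
      have e1 : Real.exp (c * ((a : ℝ) + b)) = Real.exp c ^ (a + b) := by
        rw [← Real.exp_nat_mul]
        push_cast
        congr 1
        ring
      rw [e1, mul_pow]
      have h2 : ((p : ℝ) ^ (max a b))⁻¹ ≤ (p : ℝ)⁻¹ := by
        refine inv_anti₀ (by linarith) ?_
        calc (p : ℝ) = (p : ℝ) ^ 1 := (pow_one _).symm
          _ ≤ (p : ℝ) ^ (max a b) := pow_le_pow_right₀ hp0 (by omega)
      calc _ = (Real.exp c ^ (a + b) * |α| ^ (a + b) / ((a.factorial : ℝ) * (b.factorial : ℝ))) *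
            ((p : ℝ) ^ (max a b))⁻¹ := by ring
        _ ≤ _ := mul_le_mul_of_nonneg_left h2 (by positivity)
  refine (Finset.sum_le_sum h1).trans ?_
  rw [Finset.sum_add_distrib, ← Finset.sum_mul]
  have h3 : ∑ x ∈ uqS K, (if x = (0, 0) then (1 : ℝ) else 0) ≤ 1 := by
    rw [Finset.sum_ite_eq' (uqS K) ((0, 0) : ℕ × ℕ) (fun _ => (1 : ℝ))]
    split_ifs <;> norm_num
  have h4 := uqb_exp (Real.exp c * |α|) hy K
  have h5 : 0 ≤ (p : ℝ)⁻¹ := by positivity
  have h6 := mul_le_mul_of_nonneg_right h4 h5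
  linarith


/-- the sum of `lq y` -/
private theorem uqb_tot (y : ℝ) (hy : 0 ≤ y) (B : Finset ℕ) (R : ℕ) (hB : ∀ p ∈ B, p.Prime) :
    ∑ u ∈ KK B R, ∑ v ∈ KK B R, lq y B u v ≤
      Real.exp (Real.exp (2 * y) * ∑ p ∈ B, (p : ℝ)⁻¹) := by
  classical
  have hq0 : ∀ (i : B) (x : ℕ × ℕ), 0 ≤ uqq y i x := by
    intro i x
    unfold uqq
    positivity
  have h2 : ∀ u ∈ KK B R, ∑ v ∈ KK B R, lq y B u v =
      ∑ v ∈ KK B R, (fun x : B → ℕ × ℕ => ∏ i : B, uqq y i (x i)) (fun i => (u i, v i)) :=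
    fun u _ => Finset.sum_congr rfl fun v _ => uqb_lq y B u v
  rw [Finset.sum_congr rfl h2, uqb_sum B R (fun x : B → ℕ × ℕ => ∏ i : B, uqq y i (x i))]
  calc _ ≤ ∑ x ∈ Fintype.piFinset (fun _ : B => uqS R), ∏ i : B, uqq y i (x i) := by
        refine Finset.sum_le_sum_of_subset_of_nonneg (Finset.filter_subset _ _) fun x _ _ => ?_
        exact Finset.prod_nonneg fun i _ => hq0 i _
    _ = ∏ i : B, ∑ x ∈ uqS R, uqq y i x := (Finset.prod_univ_sum (fun _ : B => uqS R)
        (fun i x => uqq y i x)).symm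
    _ ≤ ∏ i : B, Real.exp (Real.exp (2 * y) * ((i : ℕ) : ℝ)⁻¹) := by
        refine Finset.prod_le_prod (fun i _ => Finset.sum_nonneg fun x _ => hq0 i x) fun i _ => ?_
        have h1 := uqb_big y 0 i R (hB i i.2).two_le
        have h3 := Real.add_one_le_exp (Real.exp (2 * y) * ((i : ℕ) : ℝ)⁻¹)
        rw [Real.exp_zero, one_mul, abs_of_nonneg hy] at h1
        have h4 : ∑ x ∈ uqS R, |uqq y i x| * Real.exp (0 * ((x.1 : ℝ) + x.2)) =
            ∑ x ∈ uqS R, uqq y i x := by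
          refine Finset.sum_congr rfl fun x _ => ?_
          rw [zero_mul, Real.exp_zero, mul_one, abs_of_nonneg (hq0 i x)]
        rw [h4] at h1
        linarith
    _ = Real.exp (∑ i : B, Real.exp (2 * y) * ((i : ℕ) : ℝ)⁻¹) := (Real.exp_sum _ _).symm
    _ = _ := by
        congr 1
        rw [← Finset.mul_sum, Finset.sum_coe_sort B (fun p => (p : ℝ)⁻¹)]

private theorem uqb_scale (y : ℝ) (B : Finset ℕ) (u v : ℕ → ℕ) :
    lq y B u v = y ^ (∑ p ∈ B, u p) * y ^ (∑ p ∈ B, v p) * lq 1 B u v := by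
  unfold lq
  rw [← Finset.prod_pow_eq_pow_sum, ← Finset.prod_pow_eq_pow_sum, ← Finset.prod_mul_distrib,
    ← Finset.prod_mul_distrib]
  refine Finset.prod_congr rfl fun p _ => ?_
  rw [one_pow, pow_add]
  ring

private theorem uqb_z (q y : ℝ) (m K : ℕ) (hq : 1 ≤ q) (hK : 1 ≤ K) (hy : 0 < y)
    (B : Finset ℕ) (u : ℕ → ℕ) :
    0 ≤ zq q m K B u ∧ zq q m K B u ≤ (q * m / y) ^ (m * K) * y ^ (∑ p ∈ B, u p) := by
  have hK0 : (0 : ℝ) < K := by exact_mod_cast hK
  unfold zq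
  split_ifs with h
  · refine ⟨by positivity, ?_⟩
    rw [h, ← mul_pow, div_mul_cancel₀ _ hy.ne']
    have h1 : ((m * K).factorial : ℝ) ≤ ((m : ℝ) * K) ^ (m * K) := by
      have := Nat.factorial_le_pow (m * K)
      exact_mod_cast this
    calc _ ≤ (q / (K : ℝ)) ^ (m * K) * ((m : ℝ) * K) ^ (m * K) :=
          mul_le_mul_of_nonneg_left h1 (by positivity)
      _ = (q * m) ^ (m * K) := by
          rw [← mul_pow]
          congr 1
          field_simp
  · exact ⟨le_rfl, by positivity⟩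

private theorem uqb_lq0 (B : Finset ℕ) (u v : ℕ → ℕ) : 0 ≤ lq 1 B u v := by
  unfold lq
  exact Finset.prod_nonneg fun p _ => by positivity

private theorem uqb_ll (B : Finset ℕ) (X : ℝ) (hB : ∀ p ∈ B, p.Prime)
    (hX : ∀ p ∈ B, (p : ℝ) ≤ X) (u v : ℕ → ℕ) :
    0 ≤ ll B u v ∧ ll B u v ≤ ((∑ p ∈ B, u p : ℕ) + (∑ p ∈ B, v p : ℕ) : ℝ) * Real.log X := by
  unfold ll
  have h1 : ∀ p ∈ B, 0 ≤ Real.log (p : ℝ) := fun p hp =>
    Real.log_nonneg (by exact_mod_cast (hB p hp).one_le)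
  refine ⟨Finset.sum_nonneg fun p hp => mul_nonneg (abs_nonneg _) (h1 p hp), ?_⟩
  push_cast
  rw [← Finset.sum_add_distrib, Finset.sum_mul]
  refine Finset.sum_le_sum fun p hp => ?_
  have hp0 : (0 : ℝ) < p := by exact_mod_cast (hB p hp).pos
  have h2 : Real.log (p : ℝ) ≤ Real.log X := Real.log_le_log hp0 (hX p hp)
  have hu : (0 : ℝ) ≤ u p := Nat.cast_nonneg _
  have hv : (0 : ℝ) ≤ v p := Nat.cast_nonneg _
  have h3 : |(u p : ℝ) - v p| ≤ (u p : ℝ) + v p := by
    rw [abs_le]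
    constructor <;> linarith
  exact mul_le_mul h3 h2 (h1 p hp) (by linarith)

theorem pUqb : S_Uqb := by
  intro q m hq hm
  set y : ℝ := Real.exp 3 * (q * m) with hy
  have hm0 : (1 : ℝ) ≤ m := by exact_mod_cast hm
  have hqm : 0 < q * m := by positivity
  have hy0 : 0 < y := by positivity
  have hC : 1 ≤ Real.exp (2 * y) := Real.one_le_exp (by positivity)
  refine ⟨Real.exp (2 * y), hC, ?_⟩
  intro B K X hB hK hX hBX
  set R := m * K with hR
  have hKR : K ≤ R := by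
    rw [hR]
    exact Nat.le_mul_of_pos_left K (by omega)
  have hKR' : (K : ℝ) ≤ R := by exact_mod_cast hKR
  have hratio : q * m / y = Real.exp (-3) := by
    rw [hy, Real.exp_neg, div_eq_iff (by positivity)]
    have := (Real.exp_pos 3).ne'
    field_simp
  have hpow : (q * m / y) ^ R = Real.exp (-(3 * R : ℝ)) := by
    rw [hratio, ← Real.exp_nat_mul]
    congr 1
    ring
  have hterm : ∀ u v : ℕ → ℕ, zq q m K B u * zq q m K B v * lq 1 B u v ≤
      Real.exp (-(6 * R : ℝ)) * lq y B u v := by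
    intro u v
    obtain ⟨hu0, hu⟩ := uqb_z q y m K hq hK hy0 B u
    obtain ⟨hv0, hv⟩ := uqb_z q y m K hq hK hy0 B v
    rw [← hR, hpow] at hu hv
    have h1 := mul_le_mul hu hv hv0 (by positivity)
    have h2 := mul_le_mul_of_nonneg_right h1 (uqb_lq0 B u v)
    refine h2.trans (le_of_eq ?_)
    rw [uqb_scale y B u v]
    have h3 : Real.exp (-(6 * R : ℝ)) = Real.exp (-(3 * R : ℝ)) * Real.exp (-(3 * R : ℝ)) := by
      rw [← Real.exp_add]
      congr 1
      ring
    rw [h3]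
    ring
  have hnn : ∀ u v : ℕ → ℕ, 0 ≤ zq q m K B u * zq q m K B v * lq 1 B u v := fun u v =>
    mul_nonneg (mul_nonneg (uqb_z q y m K hq hK hy0 B u).1 (uqb_z q y m K hq hK hy0 B v).1)
      (uqb_lq0 B u v)
  have hsum : ∑ u ∈ KK B R, ∑ v ∈ KK B R, zq q m K B u * zq q m K B v * lq 1 B u v ≤
      Real.exp (-(6 * R : ℝ)) * Real.exp (Real.exp (2 * y) * ∑ p ∈ B, (p : ℝ)⁻¹) := by
    calc _ ≤ ∑ u ∈ KK B R, ∑ v ∈ KK B R, Real.exp (-(6 * R : ℝ)) * lq y B u v :=
          Finset.sum_le_sum fun u _ => Finset.sum_le_sum fun v _ => hterm u v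
      _ = Real.exp (-(6 * R : ℝ)) * ∑ u ∈ KK B R, ∑ v ∈ KK B R, lq y B u v := by
          rw [Finset.mul_sum]
          exact Finset.sum_congr rfl fun u _ => by rw [Finset.mul_sum]
      _ ≤ _ := mul_le_mul_of_nonneg_left (uqb_tot y hy0.le B R hB) (Real.exp_pos _).le
  have hsum0 : 0 ≤ ∑ u ∈ KK B R, ∑ v ∈ KK B R, zq q m K B u * zq q m K B v * lq 1 B u v :=
    Finset.sum_nonneg fun u _ => Finset.sum_nonneg fun v _ => hnn u v
  have hR0 : (0 : ℝ) ≤ R := Nat.cast_nonneg R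
  have hlX : 0 ≤ Real.log X := Real.log_nonneg hX
  constructor
  · rw [abs_of_nonneg hsum0]
    refine hsum.trans ?_
    rw [← Real.exp_add]
    apply Real.exp_le_exp.2
    linarith
  · have h1 : ∀ u v : ℕ → ℕ, zq q m K B u * zq q m K B v * lq 1 B u v * ll B u v ≤
        (2 * R * Real.log X) * (zq q m K B u * zq q m K B v * lq 1 B u v) := by
      intro u v
      obtain ⟨h2, h3⟩ := uqb_ll B X hB hBX u v
      by_cases hu : ∑ p ∈ B, u p = R
      · by_cases hv : ∑ p ∈ B, v p = R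
        · rw [hu, hv] at h3
          have h4 := mul_le_mul_of_nonneg_left h3 (hnn u v)
          refine h4.trans (le_of_eq ?_)
          ring
        · have : zq q m K B v = 0 := by
            unfold zq
            rw [if_neg hv]
          rw [this]
          simp
      · have : zq q m K B u = 0 := by
          unfold zq
          rw [if_neg hu]
        rw [this]
        simp
    have h0 : 0 ≤ ∑ u ∈ KK B R, ∑ v ∈ KK B R,
        zq q m K B u * zq q m K B v * lq 1 B u v * ll B u v :=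
      Finset.sum_nonneg fun u _ => Finset.sum_nonneg fun v _ =>
        mul_nonneg (hnn u v) (uqb_ll B X hB hBX u v).1
    rw [abs_of_nonneg h0]
    calc _ ≤ ∑ u ∈ KK B R, ∑ v ∈ KK B R,
          (2 * R * Real.log X) * (zq q m K B u * zq q m K B v * lq 1 B u v) :=
          Finset.sum_le_sum fun u _ => Finset.sum_le_sum fun v _ => h1 u v
      _ = (2 * R * Real.log X) * ∑ u ∈ KK B R, ∑ v ∈ KK B R,
          zq q m K B u * zq q m K B v * lq 1 B u v := by
          rw [Finset.mul_sum]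
          exact Finset.sum_congr rfl fun u _ => by rw [Finset.mul_sum]
      _ ≤ (2 * R * Real.log X) * (Real.exp (-(6 * R : ℝ)) *
          Real.exp (Real.exp (2 * y) * ∑ p ∈ B, (p : ℝ)⁻¹)) :=
          mul_le_mul_of_nonneg_left hsum (by positivity)
      _ ≤ (Real.exp (2 * R) * Real.log X) * (Real.exp (-(6 * R : ℝ)) *
          Real.exp (Real.exp (2 * y) * ∑ p ∈ B, (p : ℝ)⁻¹)) := by
          have := Real.add_one_le_exp (2 * R : ℝ)
          refine mul_le_mul_of_nonneg_right (mul_le_mul_of_nonneg_right ?_ hlX) (by positivity)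
          linarith
      _ = Real.log X * Real.exp (2 * R + (-(6 * R : ℝ) +
          Real.exp (2 * y) * ∑ p ∈ B, (p : ℝ)⁻¹)) := by
          rw [Real.exp_add, Real.exp_add]
          ring
      _ ≤ _ := by
          refine mul_le_mul_of_nonneg_left (Real.exp_le_exp.2 ?_) hlX
          linarith

end Pool.Agent.Lib.MP_aa9ae4_nt.U1
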