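import Mathlib
import Pool.Agent.Lib.MP_aa9ae4_nt.U1.SpecU
import Pool.Agent.Lib.MP_aa9ae4_nt.S1.PNn
import Pool.Agent.Lib.MP_aa9ae4_nt.S1.PSz
import Pool.Agent.Lib.MP_aa9ae4_nt.Mertens

/-!
MP_aa9ae4_nt, U1: the quadratic forms, mixed types.
-/

namespace Pool.Agent.Lib.MP_aa9ae4_nt.U1

open Finset MeasureTheory Filter Topology
open Complex (I)
open Pool.Agent.Lib.MP_aa9ae4_nt.L1
open Pool.Agent.Lib.MP_aa9ae4_nt.S1 (pw psumS eulS tail prs nn KK expJ HT fzS y1)

private lemma qf_prime (n : ℕ) (B : ℕ → Finset ℕ) (hB : IsBl n B) :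
    ∀ p ∈ (range n).biUnion B, p.Prime := by
  intro p hp
  rw [mem_biUnion] at hp
  obtain ⟨i, hi, hpi⟩ := hp
  exact hB.1 i hi p hpi

private lemma qf_disj (n : ℕ) (B : ℕ → Finset ℕ) (hB : IsBl n B) :
    ((range n : Finset ℕ) : Set ℕ).PairwiseDisjoint B := by
  intro i hi j hj hij
  exact hB.2 i (mem_coe.1 hi) j (mem_coe.1 hj) hij

/-- the ratio `gcd/(nQ u nQ v)` -/
private lemma qf_ratio (n : ℕ) (B : ℕ → Finset ℕ) (hB : IsBl n B) (u v : ℕ → ℕ) :
    ((Nat.gcd (nQ n B u) (nQ n B v) : ℝ) / (nQ n B u * nQ n B v)) =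
      ∏ i ∈ range n, ∏ p ∈ B i, ((p : ℝ) ^ (max (u p) (v p)))⁻¹ := by
  obtain ⟨-, -, -, h, -, -⟩ := S1.pNn _ (qf_prime n B hB) 0
  unfold nQ
  rw [h u v, ← prod_biUnion (qf_disj n B hB)]
  unfold nn
  push_cast
  rw [← prod_mul_distrib, ← prod_div_distrib]
  refine prod_congr rfl fun p hp => ?_
  have hp0 : (p : ℝ) ≠ 0 := by exact_mod_cast (qf_prime n B hB p hp).ne_zero
  rw [div_eq_iff (by positivity), eq_comm, inv_mul_eq_iff_eq_mul₀ (by positivity), ← pow_add,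
    ← pow_add, max_add_min]

private lemma qf_main (n : ℕ) (B : ℕ → Finset ℕ) (hB : IsBl n B) (f : ℕ → ℕ → ℝ) (u v : ℕ → ℕ) :
    cf n B f u * cf n B f v *
      ((Nat.gcd (nQ n B u) (nQ n B v) : ℝ) / (nQ n B u * nQ n B v)) =
      ∏ i ∈ range n, (f i (∑ p ∈ B i, u p) * f i (∑ p ∈ B i, v p) * lq 1 (B i) u v) := by
  rw [qf_ratio n B hB]
  unfold cf
  rw [← prod_mul_distrib, ← prod_mul_distrib]
  refine prod_congr rfl fun i _ => ?_
  have h1 : lq 1 (B i) u v = (∏ p ∈ B i, ((u p).factorial : ℝ)⁻¹) *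
      (∏ p ∈ B i, ((v p).factorial : ℝ)⁻¹) * ∏ p ∈ B i, ((p : ℝ) ^ (max (u p) (v p)))⁻¹ := by
    unfold lq
    rw [← prod_mul_distrib, ← prod_mul_distrib]
    refine prod_congr rfl fun p _ => ?_
    rw [one_pow, one_div, mul_inv]
  rw [h1]
  ring

private lemma qf_log (n : ℕ) (B : ℕ → Finset ℕ) (hB : IsBl n B) (u v : ℕ → ℕ) :
    Real.log (nQ n B u * nQ n B v / (Nat.gcd (nQ n B u) (nQ n B v) : ℝ) ^ 2) =
      ∑ i ∈ range n, ll (B i) u v := by
  obtain ⟨-, -, -, h, -, -⟩ := S1.pNn _ (qf_prime n B hB) 0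
  unfold nQ ll
  rw [h u v, ← sum_biUnion (qf_disj n B hB)]
  unfold nn
  push_cast
  rw [← prod_mul_distrib, ← prod_pow, ← prod_div_distrib, Real.log_prod]
  · refine sum_congr rfl fun p hp => ?_
    have hp0 : (p : ℝ) ≠ 0 := by exact_mod_cast (qf_prime n B hB p hp).ne_zero
    rw [Real.log_div (by positivity) (by positivity), Real.log_mul (by positivity) (by positivity),
      Real.log_pow, Real.log_pow, Real.log_pow, Real.log_pow]
    rcases le_total (u p) (v p) with huv | huv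
    · rw [min_eq_left huv, abs_of_nonpos (by
        have : (u p : ℝ) ≤ v p := by exact_mod_cast huv
        linarith)]
      push_cast
      ring
    · rw [min_eq_right huv, abs_of_nonneg (by
        have : (v p : ℝ) ≤ u p := by exact_mod_cast huv
        linarith)]
      push_cast
      ring
  · intro p hp
    have hp0 : (p : ℝ) ≠ 0 := by exact_mod_cast (qf_prime n B hB p hp).ne_zero
    positivity

private lemma qf_lq_congr (α : ℝ) (B : Finset ℕ) (u v u' v' : ℕ → ℕ) (h1 : ∀ p ∈ B, u p = u' p)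
    (h2 : ∀ p ∈ B, v p = v' p) : lq α B u v = lq α B u' v' := by
  unfold lq
  refine prod_congr rfl fun p hp => ?_
  rw [h1 p hp, h2 p hp]

private lemma qf_ll_congr (B : Finset ℕ) (u v u' v' : ℕ → ℕ) (h1 : ∀ p ∈ B, u p = u' p)
    (h2 : ∀ p ∈ B, v p = v' p) : ll B u v = ll B u' v' := by
  unfold ll
  refine sum_congr rfl fun p hp => ?_
  rw [h1 p hp, h2 p hp]

private lemma qf_deg_congr (B : Finset ℕ) (u u' : ℕ → ℕ) (h1 : ∀ p ∈ B, u p = u' p) :
    ∑ p ∈ B, u p = ∑ p ∈ B, u' p := sum_congr rfl h1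

/-- the first form is a product over the blocks -/
private lemma qf_prod1 (hFac : S_Fac) (n : ℕ) (B : ℕ → Finset ℕ) (R : ℕ → ℕ) (hB : IsBl n B)
    (f : ℕ → ℕ → ℝ) :
    ∑ u ∈ VK n B R, ∑ v ∈ VK n B R,
      cf n B f u * cf n B f v *
        ((Nat.gcd (nQ n B u) (nQ n B v) : ℝ) / (nQ n B u * nQ n B v)) =
      ∏ i ∈ range n, ∑ u ∈ KK (B i) (R i), ∑ v ∈ KK (B i) (R i),
        f i (∑ p ∈ B i, u p) * f i (∑ p ∈ B i, v p) * lq 1 (B i) u v := by
  rw [← hFac n B R (fun i u v => f i (∑ p ∈ B i, u p) * f i (∑ p ∈ B i, v p) * lq 1 (B i) u v)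
    hB.2 (fun i _ u v u' v' h1 h2 => by
      rw [qf_lq_congr 1 (B i) u v u' v' h1 h2, qf_deg_congr (B i) u u' h1,
        qf_deg_congr (B i) v v' h2])]
  exact sum_congr rfl fun u _ => sum_congr rfl fun v _ => qf_main n B hB f u v

/-- the second form -/
private lemma qf_prod2 (hFac : S_Fac) (n : ℕ) (B : ℕ → Finset ℕ) (R : ℕ → ℕ) (hB : IsBl n B)
    (f : ℕ → ℕ → ℝ) :
    ∑ u ∈ VK n B R, ∑ v ∈ VK n B R,
      cf n B f u * cf n B f v *
        ((Nat.gcd (nQ n B u) (nQ n B v) : ℝ) / (nQ n B u * nQ n B v)) *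
        Real.log (nQ n B u * nQ n B v / (Nat.gcd (nQ n B u) (nQ n B v) : ℝ) ^ 2) =
      ∑ j ∈ range n, ∏ i ∈ range n,
        (if i = j then ∑ u ∈ KK (B i) (R i), ∑ v ∈ KK (B i) (R i),
            f i (∑ p ∈ B i, u p) * f i (∑ p ∈ B i, v p) * lq 1 (B i) u v * ll (B i) u v
          else ∑ u ∈ KK (B i) (R i), ∑ v ∈ KK (B i) (R i),
            f i (∑ p ∈ B i, u p) * f i (∑ p ∈ B i, v p) * lq 1 (B i) u v) := by
  classical
  have h1 : ∀ j ∈ range n, ∏ i ∈ range n,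
        (if i = j then ∑ u ∈ KK (B i) (R i), ∑ v ∈ KK (B i) (R i),
            f i (∑ p ∈ B i, u p) * f i (∑ p ∈ B i, v p) * lq 1 (B i) u v * ll (B i) u v
          else ∑ u ∈ KK (B i) (R i), ∑ v ∈ KK (B i) (R i),
            f i (∑ p ∈ B i, u p) * f i (∑ p ∈ B i, v p) * lq 1 (B i) u v) =
      ∑ u ∈ VK n B R, ∑ v ∈ VK n B R, (∏ i ∈ range n,
        (f i (∑ p ∈ B i, u p) * f i (∑ p ∈ B i, v p) * lq 1 (B i) u v)) * ll (B j) u v := by
    intro j hj
    have h2 := hFac n B R (fun i u v => f i (∑ p ∈ B i, u p) * f i (∑ p ∈ B i, v p) *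
      lq 1 (B i) u v * if i = j then ll (B i) u v else 1) hB.2
      (by
        intro i _ u v u' v' h1 h2
        rw [qf_lq_congr 1 (B i) u v u' v' h1 h2, qf_ll_congr (B i) u v u' v' h1 h2,
          qf_deg_congr (B i) u u' h1, qf_deg_congr (B i) v v' h2])
    have h3 : ∏ i ∈ range n,
        (if i = j then ∑ u ∈ KK (B i) (R i), ∑ v ∈ KK (B i) (R i),
            f i (∑ p ∈ B i, u p) * f i (∑ p ∈ B i, v p) * lq 1 (B i) u v * ll (B i) u v
          else ∑ u ∈ KK (B i) (R i), ∑ v ∈ KK (B i) (R i),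
            f i (∑ p ∈ B i, u p) * f i (∑ p ∈ B i, v p) * lq 1 (B i) u v) =
      ∏ i ∈ range n, ∑ u ∈ KK (B i) (R i), ∑ v ∈ KK (B i) (R i),
        (f i (∑ p ∈ B i, u p) * f i (∑ p ∈ B i, v p) * lq 1 (B i) u v *
          if i = j then ll (B i) u v else 1) := by
      refine prod_congr rfl fun i _ => ?_
      split_ifs with hij
      · rfl
      · simp only [mul_one]
    rw [h3, ← h2]
    refine sum_congr rfl fun u _ => sum_congr rfl fun v _ => ?_
    rw [prod_mul_distrib, prod_ite_eq' (range n) j (fun i => ll (B i) u v), if_pos hj]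
  rw [sum_congr rfl h1]
  symm
  rw [sum_comm]
  refine sum_congr rfl fun u _ => ?_
  rw [sum_comm]
  refine sum_congr rfl fun v _ => ?_
  rw [qf_main n B hB f u v, qf_log n B hB u v, mul_sum]

private lemma qf_memKK {s : Finset ℕ} {J : ℕ} {k : ℕ → ℕ} :
    k ∈ KK s J ↔ ∑ p ∈ s, k p ≤ J ∧ ∀ p, k p ≠ 0 → p ∈ s := by
  classical
  unfold KK
  simp only [mem_biUnion, mem_range, mem_piAntidiag, ne_eq]
  constructor
  · rintro ⟨j, hj, h1, h2⟩
    have h3 : ∑ p ∈ s, k p = j := h1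
    exact ⟨by omega, h2⟩
  · rintro ⟨h1, h2⟩
    exact ⟨∑ p ∈ s, k p, by omega, rfl, h2⟩

/-- restriction of a sum over `KK B R` to the smaller degrees -/
private lemma qf_KK (B : Finset ℕ) (K R : ℕ) (hKR : K ≤ R) (F : (ℕ → ℕ) → ℝ) :
    ∑ u ∈ KK B R, (if ∑ p ∈ B, u p ≤ K then F u else 0) = ∑ u ∈ KK B K, F u := by
  classical
  rw [← sum_filter]
  refine sum_congr ?_ fun _ _ => rfl
  ext u
  rw [mem_filter, qf_memKK, qf_memKK]
  constructor
  · rintro ⟨⟨-, h2⟩, h3⟩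
    exact ⟨h3, h2⟩
  · rintro ⟨h1, h2⟩
    exact ⟨⟨h1.trans hKR, h2⟩, h1⟩

private lemma qf_S (α : ℝ) (B : Finset ℕ) (K R : ℕ) (hKR : K ≤ R) (F : (ℕ → ℕ) → (ℕ → ℕ) → ℝ) :
    ∑ u ∈ KK B R, ∑ v ∈ KK B R, (if ∑ p ∈ B, u p ≤ K then α ^ (∑ p ∈ B, u p) else 0) *
      (if ∑ p ∈ B, v p ≤ K then α ^ (∑ p ∈ B, v p) else 0) * lq 1 B u v * F u v =
      ∑ u ∈ KK B K, ∑ v ∈ KK B K, lq α B u v * F u v := by
  have h1 : ∀ u v : ℕ → ℕ, α ^ (∑ p ∈ B, u p) * α ^ (∑ p ∈ B, v p) * lq 1 B u v =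
      lq α B u v := by
    intro u v
    unfold lq
    rw [← prod_pow_eq_pow_sum, ← prod_pow_eq_pow_sum, ← prod_mul_distrib, ← prod_mul_distrib]
    refine prod_congr rfl fun p _ => ?_
    rw [pow_add, one_pow]
    ring
  have h2 : ∀ u v : ℕ → ℕ, (if ∑ p ∈ B, u p ≤ K then α ^ (∑ p ∈ B, u p) else 0) *
      (if ∑ p ∈ B, v p ≤ K then α ^ (∑ p ∈ B, v p) else 0) * lq 1 B u v * F u v =
      if ∑ p ∈ B, u p ≤ K then (if ∑ p ∈ B, v p ≤ K then lq α B u v * F u v else 0) else 0 := by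
    intro u v
    split_ifs with h3 h4
    · rw [← h1 u v]
    · ring
    · ring
    · ring
  have h3 : ∀ u : ℕ → ℕ, ∑ v ∈ KK B R, (if ∑ p ∈ B, u p ≤ K then
      (if ∑ p ∈ B, v p ≤ K then lq α B u v * F u v else 0) else 0) =
      if ∑ p ∈ B, u p ≤ K then ∑ v ∈ KK B K, lq α B u v * F u v else 0 := by
    intro u
    split_ifs with h4
    · exact qf_KK B K R hKR _
    · exact sum_const_zero
  rw [sum_congr rfl fun u _ => sum_congr rfl fun v _ => h2 u v, sum_congr rfl fun u _ => h3 u]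
  exact qf_KK B K R hKR _

/-- bound for a sum of products with one exceptional factor -/
private lemma qf_abs (n : ℕ) (b b' x w : ℕ → ℝ)
    (hb : ∀ i ∈ range n, |b i| ≤ x i) (hb' : ∀ i ∈ range n, |b' i| ≤ w i * x i) :
    |∑ j ∈ range n, ∏ i ∈ range n, (if i = j then b' i else b i)| ≤
      (∑ j ∈ range n, w j) * ∏ i ∈ range n, x i := by
  classical
  refine (abs_sum_le_sum_abs _ _).trans ?_
  rw [sum_mul]
  refine sum_le_sum fun j hj => ?_
  rw [abs_prod]
  have h1 : w j * ∏ i ∈ range n, x i = ∏ i ∈ range n, ((if i = j then w i else 1) * x i) := by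
    rw [prod_mul_distrib, prod_ite_eq' (range n) j w, if_pos hj]
  rw [h1]
  refine prod_le_prod (fun i _ => abs_nonneg _) fun i hi => ?_
  split_ifs with hij
  · exact hb' i hi
  · rw [one_mul]; exact hb i hi

private lemma qf_geo (n : ℕ) : ∑ i ∈ range n, (1 / 2 : ℝ) ^ (i + 1) = 1 - (1 / 2) ^ n := by
  induction n with
  | zero => simp
  | succ n ih => rw [sum_range_succ, ih]; ring

private lemma qf_exp_geo (n : ℕ) : ∑ i ∈ range n, Real.exp (-((i : ℝ) + 1)) ≤ 1 := by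
  have h0 : Real.exp (-1) ≤ 1 / 2 := by
    rw [Real.exp_neg, one_div]
    refine inv_anti₀ (by norm_num) ?_
    have := Real.add_one_le_exp (1 : ℝ)
    linarith
  have h1 : ∀ i ∈ range n, Real.exp (-((i : ℝ) + 1)) ≤ (1 / 2 : ℝ) ^ (i + 1) := by
    intro i _
    have h2 : Real.exp (-((i : ℝ) + 1)) = Real.exp (-1) ^ (i + 1) := by
      rw [← Real.exp_nat_mul]
      congr 1
      push_cast
      ring
    rw [h2]
    exact pow_le_pow_left₀ (Real.exp_pos _).le h0 _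
  refine (sum_le_sum h1).trans ?_
  rw [qf_geo]
  have : (0 : ℝ) ≤ (1 / 2) ^ n := by positivity
  linarith

private lemma qf_exp_geo2 (n : ℕ) : ∑ i ∈ range n, Real.exp (-(i : ℝ)) ≤ 3 := by
  have h1 : ∑ i ∈ range n, Real.exp (-(i : ℝ)) =
      Real.exp 1 * ∑ i ∈ range n, Real.exp (-((i : ℝ) + 1)) := by
    rw [mul_sum]
    refine sum_congr rfl fun i _ => ?_
    rw [← Real.exp_add]
    congr 1
    ring
  rw [h1]
  have h2 := qf_exp_geo n
  have h3 : Real.exp 1 ≤ 3 := by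
    have := Real.exp_one_lt_d9
    linarith
  have h4 : 0 ≤ ∑ i ∈ range n, Real.exp (-((i : ℝ) + 1)) := sum_nonneg fun _ _ => by positivity
  nlinarith [Real.exp_pos 1]

/-- `∑_{p ∈ B_i} log p/p` -/
private lemma qf_mert (η T : ℝ) (i : ℕ) (h2 : 2 ≤ xe η T i) :
    ∑ p ∈ Bl η T i, Real.log p / p ≤ η * Real.log T * Real.exp (-(i : ℝ)) + 2 ∧
      Real.log (xe η T i : ℝ) ≤ η * Real.log T * Real.exp (-(i : ℝ)) := by
  have hx0 : (0 : ℝ) < xe η T i := by
    have : 0 < xe η T i := by omega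
    exact_mod_cast this
  have hlog : Real.log (xe η T i : ℝ) ≤ η * Real.log T * Real.exp (-(i : ℝ)) := by
    rw [Real.log_le_iff_le_exp hx0]
    exact Nat.floor_le (Real.exp_pos _).le
  refine ⟨?_, hlog⟩
  have h3 := mertensA_le (xe η T i) (by omega)
  have h4 : ∑ p ∈ Bl η T i, Real.log p / p ≤ mertensA (xe η T i) := by
    unfold mertensA
    refine sum_le_sum_of_subset_of_nonneg ?_ fun p hp _ => ?_
    · intro p hp
      unfold Bl prs at hp
      rw [mem_filter, mem_Ioc] at hp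
      rw [mem_filter, mem_Icc]
      exact ⟨⟨hp.2.one_lt.le, hp.1.2⟩, hp.2⟩
    · rw [mem_filter, mem_Icc] at hp
      have : (1 : ℝ) ≤ p := by exact_mod_cast hp.1.1
      exact div_nonneg (Real.log_nonneg this) (by linarith)
  have h5 : Real.log 4 ≤ 2 := by
    have : Real.log 4 = 2 * Real.log 2 := by
      rw [show (4 : ℝ) = 2 ^ 2 by norm_num, Real.log_pow]
      norm_num
    rw [this]
    have := Real.log_two_lt_d9
    linarith
  linarith

/-- `∑_i ∑_{p∈B_i} p^(-2) ≤ 2` -/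
private lemma qf_two (η T : ℝ) (n z : ℕ) (hB : IsBl n (Bl η T))
    (hU : (range n).biUnion (Bl η T) = prs 0 z) :
    ∑ i ∈ range n, ∑ p ∈ Bl η T i, ((p : ℝ) ^ 2)⁻¹ ≤ 2 := by
  rw [← sum_biUnion (qf_disj n _ hB), hU]
  have h1 := S1.pSz.2.1 2 (by norm_num) 0 z
  unfold tail at h1
  refine le_trans (le_of_eq ?_) (h1.trans (by norm_num))
  refine sum_congr rfl fun p _ => ?_
  rw [Real.rpow_neg (by positivity)]
  norm_cast

theorem pUqf (hBk : S_Bk) (hFac : S_Fac) (hQfb : S_Qfb) (hUqb : S_Uqb) (_hMt : S_Mt) :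
    S_Uqf := by
  classical
  intro k C0 m hk hC0 hm
  obtain ⟨C, hC1, hC⟩ := hQfb (k - 1) (by linarith)
  obtain ⟨Cq, hCq1, hCq⟩ := hUqb (ck k) m (by unfold ck; linarith) hm
  have hC04 : 4 ≤ C0 := hC0.1
  refine ⟨max (max ((C + 1) * C0) ((Cq + 1) * C0)) 2, ?_⟩
  intro C1 η hC1' hη hη1
  have hCC : (C + 1) * C0 ≤ C1 := ((le_max_left _ _).trans (le_max_left _ _)).trans hC1'
  have hCCq : (Cq + 1) * C0 ≤ C1 := ((le_max_right _ _).trans (le_max_left _ _)).trans hC1'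
  have hC12 : 2 ≤ C1 := (le_max_right _ _).trans hC1'
  set D : ℝ := C0 + |Real.log η| + 1 with hD
  set E : ℝ := Real.exp (|k ^ 2 - 1| * D + 2 * C + 1) with hE
  have hE0 : 0 < E := Real.exp_pos _
  refine ⟨11 * (C + 1) * E, by positivity, ?_⟩
  filter_upwards [hBk C0 η hC0 hη hη1, eventually_ge_atTop (Real.exp 1)] with T hBT hTe
  intro S
  obtain ⟨ha, -, hc, ⟨hd1, hd2⟩, hBl, hU, he⟩ := hBT
  have hT0 : 0 < T := lt_of_lt_of_le (Real.exp_pos _) hTe
  have hL1 : 1 ≤ Real.log T := by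
    rw [Real.le_log_iff_exp_le hT0]; exact hTe
  have hL0 : 0 < Real.log T := by linarith
  set n : ℕ := nI T + 1 with hn
  have hin : ∀ i ∈ range n, i ≤ nI T := by
    intro i hi
    rw [mem_range] at hi
    omega
  -- the size of V and K
  have hV0 : ∀ i, 0 ≤ Vb η T i := by
    intro i
    unfold Vb
    exact sum_nonneg fun p _ => by positivity
  have hVu : ∀ i ∈ range n, Vb η T i ≤ C0 * Real.exp ((i : ℝ) / 2) := by
    intro i hi
    refine (ha i (hin i hi)).trans ?_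
    unfold Vu
    have h1 : 1 ≤ Real.exp ((i : ℝ) / 2) := Real.one_le_exp (by positivity)
    split_ifs with hlt
    · nlinarith
    · have : i = nI T := by
        have := hin i hi
        omega
      rw [this]
      nlinarith
  have hK : ∀ i : ℕ, C1 * Real.exp ((i : ℝ) / 2) ≤ (Kb C1 i : ℝ) := fun i => Nat.le_ceil _
  have hKi : ∀ i : ℕ, (i : ℝ) + 1 ≤ (Kb C1 i : ℝ) := by
    intro i
    have h1 := Real.add_one_le_exp ((i : ℝ) / 2)
    have h2 := hK i
    have h3 : (0 : ℝ) ≤ i := by positivity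
    nlinarith
  have hK1 : ∀ i : ℕ, 1 ≤ Kb C1 i := by
    intro i
    have h1 := hKi i
    have h2 : (0 : ℝ) ≤ i := by positivity
    have h3 : (1 : ℝ) ≤ (Kb C1 i : ℝ) := by linarith
    exact_mod_cast h3
  set V2 : ℕ → ℝ := fun i => ∑ p ∈ Bl η T i, ((p : ℝ) ^ 2)⁻¹ with hV2
  have hV20 : ∀ i, 0 ≤ V2 i := fun i => sum_nonneg fun p _ => by positivity
  set x : ℕ → ℝ := fun i => Real.exp ((k ^ 2 - 1) * Vb η T i + C * V2 i +
    Real.exp (-((i : ℝ) + 1))) with hx
  set w : ℕ → ℝ := fun i => (C + 1) * (Real.log T * Real.exp (-(i : ℝ)) + 2) with hw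
  have hα : ∀ i, (2 * (k - 1) + (k - 1) ^ 2) * ∑ p ∈ Bl η T i, (p : ℝ)⁻¹ =
      (k ^ 2 - 1) * Vb η T i := by
    intro i
    unfold Vb
    ring
  have hsmall : ∀ i ∈ range n, -(2 * (Kb C1 i : ℝ)) + C * Vb η T i ≤
      (k ^ 2 - 1) * Vb η T i + C * V2 i - (Kb C1 i : ℝ) := by
    intro i hi
    have h1 : (C - (k ^ 2 - 1)) * Vb η T i ≤ (C + 1) * Vb η T i :=
      mul_le_mul_of_nonneg_right (by nlinarith [sq_nonneg k]) (hV0 i)
    have h2 : (C + 1) * Vb η T i ≤ (C + 1) * (C0 * Real.exp ((i : ℝ) / 2)) :=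
      mul_le_mul_of_nonneg_left (hVu i hi) (by linarith)
    have h3 : (C + 1) * C0 * Real.exp ((i : ℝ) / 2) ≤ C1 * Real.exp ((i : ℝ) / 2) :=
      mul_le_mul_of_nonneg_right hCC (Real.exp_pos _).le
    have h4 := hK i
    have h5 : 0 ≤ C * V2 i := mul_nonneg (by linarith) (hV20 i)
    nlinarith
  have hsmallq : ∀ i ∈ range n, -(4 * (Kb C1 i : ℝ)) + Cq * Vb η T i ≤
      (k ^ 2 - 1) * Vb η T i + C * V2 i - (Kb C1 i : ℝ) := by
    intro i hi
    have h1 : (Cq - (k ^ 2 - 1)) * Vb η T i ≤ (Cq + 1) * Vb η T i :=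
      mul_le_mul_of_nonneg_right (by nlinarith [sq_nonneg k]) (hV0 i)
    have h2 : (Cq + 1) * Vb η T i ≤ (Cq + 1) * (C0 * Real.exp ((i : ℝ) / 2)) :=
      mul_le_mul_of_nonneg_left (hVu i hi) (by linarith)
    have h3 : (Cq + 1) * C0 * Real.exp ((i : ℝ) / 2) ≤ C1 * Real.exp ((i : ℝ) / 2) :=
      mul_le_mul_of_nonneg_right hCCq (Real.exp_pos _).le
    have h4 := hK i
    have h5 : 0 ≤ C * V2 i := mul_nonneg (by linarith) (hV20 i)
    have h6 : (0 : ℝ) ≤ (Kb C1 i : ℝ) := Nat.cast_nonneg _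
    nlinarith
  have hbase : ∀ i ∈ range n, ∀ p ∈ Bl η T i, p.Prime := fun i hi => hBl.1 i hi
  have hxe : ∀ i ∈ range n, (1 : ℝ) ≤ (xe η T i : ℝ) := by
    intro i hi
    have := (hc i (hin i hi)).1
    have h2 : 1 ≤ xe η T i := by omega
    exact_mod_cast h2
  have hle : ∀ i ∈ range n, ∀ p ∈ Bl η T i, (p : ℝ) ≤ (xe η T i : ℝ) := by
    intro i _ p hp
    unfold Bl prs at hp
    rw [mem_filter, mem_Ioc] at hp
    exact_mod_cast hp.1.2
  have hQ := fun i (hi : i ∈ range n) =>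
    hC (Bl η T i) (Kb C1 i) (xe η T i : ℝ) (hbase i hi) (hK1 i) (hxe i hi) (hle i hi)
  have hb1 : ∀ i ∈ range n, |∑ u ∈ KK (Bl η T i) (Kb C1 i), ∑ v ∈ KK (Bl η T i) (Kb C1 i),
      lq (k - 1) (Bl η T i) u v| ≤ x i := by
    intro i hi
    refine (hQ i hi).1.trans ?_
    rw [hα i]
    have h1 : Real.exp (-(2 * (Kb C1 i : ℝ)) + C * ∑ p ∈ Bl η T i, (p : ℝ)⁻¹) ≤
        Real.exp ((k ^ 2 - 1) * Vb η T i + C * V2 i) * Real.exp (-((i : ℝ) + 1)) := by
      rw [← Real.exp_add]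
      refine Real.exp_le_exp.2 ?_
      have h2 := hsmall i hi
      have h3 := hKi i
      unfold Vb at h2 ⊢
      linarith
    have h4 : Real.exp ((k ^ 2 - 1) * Vb η T i + C * V2 i) *
        (1 + Real.exp (-((i : ℝ) + 1))) ≤ x i := by
      rw [hx]
      simp only
      rw [Real.exp_add _ (Real.exp (-((i : ℝ) + 1)))]
      refine mul_le_mul_of_nonneg_left ?_ (Real.exp_pos _).le
      have := Real.add_one_le_exp (Real.exp (-((i : ℝ) + 1)))
      linarith
    refine le_trans ?_ h4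
    rw [mul_add, mul_one]
    exact add_le_add le_rfl h1
  have hb2 : ∀ i ∈ range n, |∑ u ∈ KK (Bl η T i) (Kb C1 i), ∑ v ∈ KK (Bl η T i) (Kb C1 i),
      lq (k - 1) (Bl η T i) u v * ll (Bl η T i) u v| ≤ w i * x i := by
    intro i hi
    refine (hQ i hi).2.trans ?_
    rw [hα i]
    have h0 := qf_mert η T i (hc i (hin i hi)).1
    have hlx : 0 ≤ Real.log (xe η T i : ℝ) := Real.log_nonneg (hxe i hi)
    have h1 : Real.exp (-(2 * (Kb C1 i : ℝ)) + C * ∑ p ∈ Bl η T i, (p : ℝ)⁻¹) ≤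
        Real.exp ((k ^ 2 - 1) * Vb η T i + C * V2 i) := by
      refine Real.exp_le_exp.2 ?_
      have h2 := hsmall i hi
      have h3 := hKi i
      have h4 : (0 : ℝ) ≤ i := by positivity
      unfold Vb at h2 ⊢
      linarith
    have h4 : Real.exp ((k ^ 2 - 1) * Vb η T i + C * V2 i) ≤ x i := by
      rw [hx]
      refine Real.exp_le_exp.2 ?_
      have := Real.exp_pos (-((i : ℝ) + 1))
      linarith
    have hY : η * Real.log T * Real.exp (-(i : ℝ)) ≤ Real.log T * Real.exp (-(i : ℝ)) := by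
      refine mul_le_mul_of_nonneg_right ?_ (Real.exp_pos _).le
      nlinarith
    calc C * (∑ p ∈ Bl η T i, Real.log p / p) *
          Real.exp ((k ^ 2 - 1) * Vb η T i + C * ∑ p ∈ Bl η T i, ((p : ℝ) ^ 2)⁻¹) +
          Real.log (xe η T i : ℝ) *
            Real.exp (-(2 * (Kb C1 i : ℝ)) + C * ∑ p ∈ Bl η T i, (p : ℝ)⁻¹)
        ≤ C * (Real.log T * Real.exp (-(i : ℝ)) + 2) *
          Real.exp ((k ^ 2 - 1) * Vb η T i + C * V2 i) +
          (Real.log T * Real.exp (-(i : ℝ)) + 2) *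
            Real.exp ((k ^ 2 - 1) * Vb η T i + C * V2 i) := by
          refine add_le_add ?_ ?_
          · refine mul_le_mul_of_nonneg_right ?_ (Real.exp_pos _).le
            refine mul_le_mul_of_nonneg_left ?_ (by linarith)
            linarith [h0.1]
          · refine mul_le_mul ?_ h1 (Real.exp_pos _).le ?_
            · linarith [h0.2]
            · positivity
      _ = w i * Real.exp ((k ^ 2 - 1) * Vb η T i + C * V2 i) := by
          rw [hw]
          ring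
      _ ≤ w i * x i := by
          refine mul_le_mul_of_nonneg_left h4 ?_
          rw [hw]
          have : 0 < C + 1 := by linarith
          positivity
  -- the blocks of the second type
  have hQq := fun i (hi : i ∈ range n) =>
    hCq (Bl η T i) (Kb C1 i) (xe η T i : ℝ) (hbase i hi) (hK1 i) (hxe i hi) (hle i hi)
  have hyx : ∀ i, Real.exp ((k ^ 2 - 1) * Vb η T i + C * V2 i) ≤ x i := by
    intro i
    rw [hx]
    refine Real.exp_le_exp.2 ?_
    have := Real.exp_pos (-((i : ℝ) + 1))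
    linarith
  have hqx : ∀ i ∈ range n, Real.exp (-(4 * Kb C1 i : ℝ) + Cq * ∑ p ∈ Bl η T i, (p : ℝ)⁻¹) ≤
      x i * Real.exp (-(Kb C1 i : ℝ)) := by
    intro i hi
    refine le_trans ?_ (mul_le_mul_of_nonneg_right (hyx i) (Real.exp_pos _).le)
    rw [← Real.exp_add]
    refine Real.exp_le_exp.2 ?_
    have h1 := hsmallq i hi
    unfold Vb at h1 ⊢
    linarith
  -- the block sums
  set e : ℕ → ℝ := fun i => if i ∈ S then 1 else Real.exp (-(Kb C1 i : ℝ)) with he'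
  have hfz : ∀ i ∉ S, ∀ u : ℕ → ℕ, fZ k m C1 S i (∑ p ∈ Bl η T i, u p) =
      zq (ck k) m (Kb C1 i) (Bl η T i) u := by
    intro i hi u
    unfold fZ zq
    rw [if_neg hi]
    by_cases h : ∑ p ∈ Bl η T i, u p = m * Kb C1 i
    · rw [if_pos h, if_pos h, h]
    · rw [if_neg h, if_neg h]
  have hfs : ∀ i ∈ S, ∀ r : ℕ, fZ k m C1 S i r = if r ≤ Kb C1 i then (k - 1) ^ r else 0 := by
    intro i hi r
    unfold fZ
    rw [if_pos hi]
  have hKm : ∀ i, Kb C1 i ≤ m * Kb C1 i := fun i => Nat.le_mul_of_pos_left _ hm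
  have hc1 : ∀ i ∈ range n, |∑ u ∈ KK (Bl η T i) (m * Kb C1 i),
      ∑ v ∈ KK (Bl η T i) (m * Kb C1 i), fZ k m C1 S i (∑ p ∈ Bl η T i, u p) *
        fZ k m C1 S i (∑ p ∈ Bl η T i, v p) * lq 1 (Bl η T i) u v| ≤ x i * e i := by
    intro i hi
    by_cases hS : i ∈ S
    · have h1 := qf_S (k - 1) (Bl η T i) (Kb C1 i) (m * Kb C1 i) (hKm i) (fun _ _ => 1)
      simp only [mul_one] at h1
      have h2 : e i = 1 := if_pos hS
      rw [h2, mul_one]
      simp only [hfs i hS]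
      rw [h1]
      exact hb1 i hi
    · have h2 : e i = Real.exp (-(Kb C1 i : ℝ)) := if_neg hS
      rw [h2]
      simp only [hfz i hS]
      exact (hQq i hi).1.trans (hqx i hi)
  have hc2 : ∀ i ∈ range n, |∑ u ∈ KK (Bl η T i) (m * Kb C1 i),
      ∑ v ∈ KK (Bl η T i) (m * Kb C1 i), fZ k m C1 S i (∑ p ∈ Bl η T i, u p) *
        fZ k m C1 S i (∑ p ∈ Bl η T i, v p) * lq 1 (Bl η T i) u v * ll (Bl η T i) u v| ≤
        w i * (x i * e i) := by
    intro i hi
    by_cases hS : i ∈ S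
    · have h1 := qf_S (k - 1) (Bl η T i) (Kb C1 i) (m * Kb C1 i) (hKm i)
        (fun u v => ll (Bl η T i) u v)
      have h2 : e i = 1 := if_pos hS
      rw [h2, mul_one]
      simp only [hfs i hS]
      rw [h1]
      exact hb2 i hi
    · have h2 : e i = Real.exp (-(Kb C1 i : ℝ)) := if_neg hS
      rw [h2]
      simp only [hfz i hS]
      refine (hQq i hi).2.trans (mul_le_mul ?_ (hqx i hi) (Real.exp_pos _).le ?_)
      · have h0 := qf_mert η T i (hc i (hin i hi)).1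
        have hY : η * Real.log T * Real.exp (-(i : ℝ)) ≤ Real.log T * Real.exp (-(i : ℝ)) := by
          refine mul_le_mul_of_nonneg_right ?_ (Real.exp_pos _).le
          nlinarith
        have h3 : (0 : ℝ) ≤ Real.log T * Real.exp (-(i : ℝ)) := by positivity
        rw [hw]
        nlinarith [h0.2]
      · rw [hw]
        have : 0 < C + 1 := by linarith
        positivity
  have hx0' : ∀ i ∈ range n, 0 ≤ x i := fun i _ => (Real.exp_pos _).le
  have he0 : ∀ i, 0 ≤ e i := by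
    intro i
    rw [he']
    simp only
    split_ifs
    · exact zero_le_one
    · exact (Real.exp_pos _).le
  have hx0 : ∀ i ∈ range n, 0 ≤ x i * e i := fun i hi => mul_nonneg (hx0' i hi) (he0 i)
  have hprode : ∏ i ∈ range n, e i = ∏ i ∈ range n \ S, Real.exp (-(Kb C1 i : ℝ)) := by
    rw [he', sdiff_eq_filter, prod_filter]
    refine prod_congr rfl fun i _ => ?_
    change (if i ∈ S then (1 : ℝ) else Real.exp (-(Kb C1 i : ℝ))) = _
    by_cases hS : i ∈ S
    · rw [if_pos hS, if_neg (not_not.2 hS)]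
    · rw [if_neg hS, if_pos hS]
  have hP0 : 0 ≤ ∏ i ∈ range n \ S, Real.exp (-(Kb C1 i : ℝ)) :=
    prod_nonneg fun _ _ => (Real.exp_pos _).le
  -- the product of the x i
  have hprod : ∏ i ∈ range n, x i ≤ E * Real.log T ^ (k ^ 2 - 1) := by
    rw [hx]
    simp only
    rw [← Real.exp_sum, sum_add_distrib, sum_add_distrib, ← mul_sum, ← mul_sum,
      Real.rpow_def_of_pos hL0, hE, ← Real.exp_add]
    refine Real.exp_le_exp.2 ?_
    have h1 := qf_exp_geo n
    have h2 := qf_two η T n (xe η T 0) hBl hU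
    have h3 : (k ^ 2 - 1) * ∑ i ∈ range n, Vb η T i ≤
        (k ^ 2 - 1) * Real.log (Real.log T) + |k ^ 2 - 1| * D := by
      have h4 : (k ^ 2 - 1) * (∑ i ∈ range n, Vb η T i - Real.log (Real.log T)) ≤
          |k ^ 2 - 1| * D := by
        refine (le_abs_self _).trans ?_
        rw [abs_mul]
        exact mul_le_mul_of_nonneg_left he (abs_nonneg _)
      linarith
    have h5 : C * ∑ i ∈ range n, V2 i ≤ C * 2 := mul_le_mul_of_nonneg_left h2 (by linarith)
    linarith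
  have hlog0 : 0 ≤ Real.log (Real.log T) := Real.log_nonneg hL1
  -- the sum of the w i
  have hsum : ∑ j ∈ range n, w j ≤ 11 * (C + 1) * Real.log T := by
    rw [hw]
    simp only
    rw [← mul_sum, sum_add_distrib, ← mul_sum, sum_const, card_range, nsmul_eq_mul]
    have h1 := qf_exp_geo2 n
    have h2 : (n : ℝ) ≤ 4 * Real.log T := by
      have h3 := Real.add_one_le_exp ((nI T : ℝ) / 2)
      have h4 : Real.log (Real.log T) ≤ Real.log T := by
        have := Real.log_le_sub_one_of_pos hL0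
        linarith
      rw [hn]
      push_cast
      linarith
    have h5 : Real.log T * ∑ i ∈ range n, Real.exp (-(i : ℝ)) ≤ Real.log T * 3 :=
      mul_le_mul_of_nonneg_left h1 hL0.le
    have h6 : Real.log T * ∑ i ∈ range n, Real.exp (-(i : ℝ)) + (n : ℝ) * 2 ≤
        11 * Real.log T := by linarith
    nlinarith
  refine ⟨?_, ?_⟩
  · rw [qf_prod1 hFac n (Bl η T) (fun i => m * Kb C1 i) hBl (fZ k m C1 S), abs_prod]
    refine (prod_le_prod (fun _ _ => abs_nonneg _) hc1).trans ?_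
    rw [prod_mul_distrib, hprode]
    refine mul_le_mul_of_nonneg_right (hprod.trans ?_) hP0
    refine mul_le_mul_of_nonneg_right ?_ (by positivity)
    nlinarith
  · rw [qf_prod2 hFac n (Bl η T) (fun i => m * Kb C1 i) hBl (fZ k m C1 S)]
    refine (qf_abs n _ _ (fun i => x i * e i) w hc1 hc2).trans ?_
    rw [prod_mul_distrib, hprode]
    have hp1 : Real.log T * Real.log T ^ (k ^ 2 - 1) = Real.log T ^ (k ^ 2) := by
      have h1 : Real.log T ^ (1 : ℝ) * Real.log T ^ (k ^ 2 - 1) = Real.log T ^ (k ^ 2) := by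
        rw [← Real.rpow_add (by linarith)]
        congr 1
        ring
      rwa [Real.rpow_one] at h1
    rw [← mul_assoc]
    refine mul_le_mul_of_nonneg_right ?_ hP0
    calc (∑ j ∈ range n, w j) * ∏ i ∈ range n, x i
        ≤ (11 * (C + 1) * Real.log T) * (E * Real.log T ^ (k ^ 2 - 1)) := by
          refine mul_le_mul hsum hprod (prod_nonneg hx0') ?_
          have : 0 < C + 1 := by linarith
          positivity
      _ = 11 * (C + 1) * E * (Real.log T * Real.log T ^ (k ^ 2 - 1)) := by ring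
      _ = 11 * (C + 1) * E * Real.log T ^ (k ^ 2) := by rw [hp1]

end Pool.Agent.Lib.MP_aa9ae4_nt.U1
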