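import Mathlib
import Pool.Agent.Lib.MP_aa9ae4_nt.U1.SpecU
import Pool.Agent.Lib.MP_aa9ae4_nt.S1.PNn

/-!
MP_aa9ae4_nt, U1: the second moments of `ζ AZ_S`, summed over `S`.
-/

namespace Pool.Agent.Lib.MP_aa9ae4_nt.U1

open Finset MeasureTheory Filter Topology
open Complex (I)
open Pool.Agent.Lib.MP_aa9ae4_nt.L1
open Pool.Agent.Lib.MP_aa9ae4_nt.S1 (pw psumS eulS tail prs nn KK expJ HT fzS y1)

private lemma utz_log : ∀ᶠ T : ℝ in atTop, 1 + Real.log T ≤ T ^ (1 / 16 : ℝ) := by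
  have h1 : (fun T : ℝ => 1 + Real.log T) =o[atTop] fun T : ℝ => T ^ (1 / 16 : ℝ) := by
    refine Asymptotics.IsLittleO.add ?_ (isLittleO_log_rpow_atTop (by norm_num))
    refine Asymptotics.isLittleO_const_left.2 (Or.inr ?_)
    exact tendsto_norm_atTop_atTop.comp (tendsto_rpow_atTop (by norm_num))
  filter_upwards [h1.bound (show (0 : ℝ) < 1 by norm_num), eventually_ge_atTop 1] with T hT h1T
  rw [one_mul] at hT
  refine (le_abs_self _).trans (hT.trans ?_)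
  rw [Real.norm_eq_abs, abs_of_nonneg (by positivity)]

/-- the expansion of `AZ` -/
private lemma utz_exp (hExd : S_Exd) (k : ℝ) (m : ℕ) (C1 η : ℝ) (S : Finset ℕ) (T t : ℝ)
    (hB : IsBl (nI T + 1) (Bl η T)) :
    AZ k m C1 η S T t = ∑ u ∈ VK (nI T + 1) (Bl η T) (fun i => m * Kb C1 i),
      (cf (nI T + 1) (Bl η T) (fZ k m C1 S) u : ℂ) *
        pw (1 / 2) (nQ (nI T + 1) (Bl η T) u) t := by
  have h1 := (hExd (nI T + 1) (Bl η T) (fun i => m * Kb C1 i) (fZ k m C1 S) hB.2).1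
    (fun p => pw (1 / 2) p t)
  unfold AZ
  rw [h1]
  refine sum_congr rfl fun u _ => ?_
  congr 1
  have hp : ∀ p ∈ (range (nI T + 1)).biUnion (Bl η T), p.Prime := by
    intro p hp
    rw [mem_biUnion] at hp
    obtain ⟨i, hi, hpi⟩ := hp
    exact hB.1 i hi p hpi
  obtain ⟨-, -, -, -, -, h⟩ := S1.pNn _ hp 0
  exact (h (1 / 2) t u).symm

private lemma utz_K {C1 : ℝ} (hC : 2 ≤ C1) (i : ℕ) : i + 1 ≤ Kb C1 i := by
  have h1 : C1 * Real.exp ((i : ℝ) / 2) ≤ (Kb C1 i : ℝ) := Nat.le_ceil _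
  have h2 : (i : ℝ) / 2 + 1 ≤ Real.exp ((i : ℝ) / 2) := Real.add_one_le_exp _
  have hi : (0 : ℝ) ≤ i := Nat.cast_nonneg i
  have h3 : (i : ℝ) + 1 ≤ (Kb C1 i : ℝ) := by nlinarith
  exact_mod_cast h3

private lemma utz_sum {C1 : ℝ} (hC : 2 ≤ C1) (n : ℕ) :
    ∑ S ∈ (range n).powerset, ∏ i ∈ range n \ S, Real.exp (-(Kb C1 i : ℝ)) ≤ Real.exp 1 := by
  have h1 : ∏ i ∈ range n, (1 + Real.exp (-(Kb C1 i : ℝ))) =
      ∑ S ∈ (range n).powerset, ∏ i ∈ range n \ S, Real.exp (-(Kb C1 i : ℝ)) := by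
    rw [Finset.prod_add]
    refine sum_congr rfl fun S _ => ?_
    rw [Finset.prod_const_one, one_mul]
  rw [← h1]
  have h2 : ∏ i ∈ range n, (1 + Real.exp (-(Kb C1 i : ℝ))) ≤
      ∏ i ∈ range n, Real.exp (Real.exp (-(Kb C1 i : ℝ))) := by
    refine Finset.prod_le_prod (fun i _ => by positivity) fun i _ => ?_
    rw [add_comm]
    exact Real.add_one_le_exp _
  refine h2.trans ?_
  rw [← Real.exp_sum]
  refine Real.exp_le_exp.2 ?_
  have h3 : ∀ i ∈ range n, Real.exp (-(Kb C1 i : ℝ)) ≤ (1 / 2 : ℝ) ^ (i + 1) := by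
    intro i _
    have h4 : (2 : ℝ) ≤ Real.exp 1 := by
      have := Real.add_one_le_exp (1 : ℝ)
      linarith
    have h5 : (2 : ℝ) ^ (i + 1) ≤ Real.exp (Kb C1 i : ℝ) := by
      calc (2 : ℝ) ^ (i + 1) ≤ Real.exp 1 ^ (i + 1) := pow_le_pow_left₀ (by norm_num) h4 _
        _ = Real.exp ((i + 1 : ℕ) : ℝ) := by rw [← Real.exp_nat_mul, mul_one]
        _ ≤ Real.exp (Kb C1 i : ℝ) := by
          refine Real.exp_le_exp.2 ?_
          exact_mod_cast utz_K hC i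
    rw [Real.exp_neg, one_div, inv_pow]
    exact inv_anti₀ (by positivity) h5
  refine (Finset.sum_le_sum h3).trans ?_
  have h6 : ∀ n : ℕ, ∑ i ∈ range n, (1 / 2 : ℝ) ^ (i + 1) = 1 - (1 / 2) ^ n := by
    intro n
    induction n with
    | zero => simp
    | succ n ih =>
      rw [Finset.sum_range_succ, ih]
      ring
  rw [h6]
  have : (0 : ℝ) ≤ (1 / 2) ^ n := by positivity
  linarith

private lemma utz_fZ {k C1 : ℝ} {m : ℕ} (hk : 0 < k) (hC : 2 ≤ C1) (S : Finset ℕ) (i r : ℕ) :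
    |fZ k m C1 S i r| ≤ (1 + |k - 1| + ck k) ^ r * (r.factorial : ℝ) := by
  have hck : 0 ≤ ck k := by unfold ck; linarith
  have ha : 0 ≤ |k - 1| := abs_nonneg _
  have h3 : (1 : ℝ) ≤ (r.factorial : ℝ) := by
    exact_mod_cast Nat.one_le_iff_ne_zero.2 (Nat.factorial_ne_zero r)
  have h0 : (0 : ℝ) ≤ (1 + |k - 1| + ck k) ^ r * (r.factorial : ℝ) := by positivity
  unfold fZ
  split_ifs
  · rw [abs_pow]
    have h2 : |k - 1| ^ r ≤ (1 + |k - 1| + ck k) ^ r :=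
      pow_le_pow_left₀ ha (by linarith) r
    have h4 : (0 : ℝ) ≤ (1 + |k - 1| + ck k) ^ r := by positivity
    nlinarith
  · rw [abs_zero]; exact h0
  · have hK : (1 : ℝ) ≤ (Kb C1 i : ℝ) := by
      have := utz_K hC i
      have h5 : 1 ≤ Kb C1 i := by omega
      exact_mod_cast h5
    have h5 : ck k / (Kb C1 i : ℝ) ≤ ck k := div_le_self hck hK
    have h6 : 0 ≤ ck k / (Kb C1 i : ℝ) := by positivity
    rw [abs_of_nonneg (by positivity)]
    exact mul_le_mul_of_nonneg_right (pow_le_pow_left₀ h6 (by linarith) r) (by positivity)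
  · rw [abs_zero]; exact h0

private theorem utz_card {n : ℕ} {l : ℝ} (h : Real.exp ((n : ℝ) / 2) ≤ 2 * l) :
    ((#(range (n + 1)).powerset : ℕ) : ℝ) ≤ 8 * l ^ 2 := by
  rw [Finset.card_powerset, Finset.card_range]
  push_cast
  have h1 : (2 : ℝ) ≤ Real.exp 1 := by
    have := Real.add_one_le_exp (1 : ℝ)
    linarith
  have h2 : (2 : ℝ) ^ n ≤ Real.exp ((n : ℝ) / 2) ^ 2 := by
    calc (2 : ℝ) ^ n ≤ Real.exp 1 ^ n := pow_le_pow_left₀ (by norm_num) h1 n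
      _ = Real.exp ((n : ℝ) / 2) ^ 2 := by
        rw [← Real.exp_nat_mul, ← Real.exp_nat_mul]
        congr 1
        push_cast
        ring
  have h3 : Real.exp ((n : ℝ) / 2) ^ 2 ≤ (2 * l) ^ 2 := pow_le_pow_left₀ (Real.exp_pos _).le h 2
  rw [pow_succ]
  nlinarith

/-- **Second moments of `ζ AZ_S`, summed over `S`.** -/
theorem pUtz (hBk : S_Bk) (hSz2 : S_Sz2) (hExd : S_Exd) (hTsm : S_Tsm) (hUqf : S_Uqf) :
    S_Utz := by
  intro k C0 m hk hC0 hm
  obtain ⟨C10, hQ⟩ := hUqf k C0 m hk hC0 hm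
  obtain ⟨c1, CT, hCT, hTs⟩ := hTsm
  refine ⟨max C10 2, ?_⟩
  intro C1 η hC1 hη hη1 hηC
  have hC10 : C10 ≤ C1 := (le_max_left _ _).trans hC1
  have hC12 : 2 ≤ C1 := (le_max_right _ _).trans hC1
  have hC11 : 1 ≤ C1 := by linarith
  obtain ⟨CQ, hCQ, hQe⟩ := hQ C1 η hC10 hη hη1
  obtain ⟨hS1, hS2⟩ := hSz2 m C1 η hm hC11 hη hη1
  have hck : 0 ≤ ck k := by unfold ck; linarith
  have hS3 := hS2 (1 + |k - 1| + ck k) (by have := abs_nonneg (k - 1); linarith)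
  have hm0 : (0 : ℝ) < m := by exact_mod_cast hm
  have hηC0 : 0 < η * m * C1 := by positivity
  refine ⟨100 * ((1 + |c1|) * CQ + CQ) * Real.exp 1 + 8 * CT, by positivity, ?_⟩
  filter_upwards [hQe, hS1, hS3, hBk C0 η hC0 hη hη1, utz_log, eventually_ge_atTop 256,
    eventually_ge_atTop (Real.exp 1)] with T hQT hS1T hS3T hBT hlogT hT256 hTe
  obtain ⟨-, -, -, ⟨-, hnI⟩, hBl, -, -⟩ := hBT
  have hT1 : 1 ≤ T := by linarith
  have hT0 : 0 < T := by linarith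
  have hL1 : 1 ≤ Real.log T := by
    rw [Real.le_log_iff_exp_le hT0]; exact hTe
  have hL0 : 0 < Real.log T := by linarith
  have hl0 : 0 ≤ Real.log (Real.log T) := Real.log_nonneg hL1
  have hlL : Real.log (Real.log T) ≤ 1 + Real.log T := by
    have := Real.log_le_sub_one_of_pos hL0
    linarith
  have hLk1 : 1 ≤ Real.log T ^ (k ^ 2) := Real.one_le_rpow hL1 (by positivity)
  set Y : ℝ := T ^ (5 * (η * m * C1)) with hY
  have hY1 : 1 ≤ Y := Real.one_le_rpow hT1 (by positivity)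
  have hT12 : T ^ (1 / 2 : ℝ) * T ^ (1 / 2 : ℝ) = T := by
    rw [← Real.rpow_add hT0]; norm_num
  have hT16 : 16 ≤ T ^ (1 / 2 : ℝ) := by
    have h1 : (256 : ℝ) ^ (1 / 2 : ℝ) ≤ T ^ (1 / 2 : ℝ) :=
      Real.rpow_le_rpow (by norm_num) hT256 (by norm_num)
    have h2 : (256 : ℝ) ^ (1 / 2 : ℝ) = 16 := by
      rw [show (256 : ℝ) = 16 ^ (2 : ℝ) by norm_num, ← Real.rpow_mul (by norm_num)]
      norm_num
    rw [h2] at h1
    exact h1
  have hY2 : 4 * Real.pi * Y ^ 2 ≤ T := by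
    have h1 : Y ^ 2 ≤ T ^ (1 / 2 : ℝ) := by
      rw [hY, ← Real.rpow_natCast, ← Real.rpow_mul hT0.le]
      refine Real.rpow_le_rpow_of_exponent_le hT1 ?_
      push_cast
      linarith
    have h2 : 4 * Real.pi ≤ 16 := by
      have := Real.pi_le_four
      linarith
    calc 4 * Real.pi * Y ^ 2 ≤ T ^ (1 / 2 : ℝ) * T ^ (1 / 2 : ℝ) :=
          mul_le_mul (h2.trans hT16) h1 (by positivity) (by positivity)
      _ = T := hT12
  have hpr : ∀ p ∈ (range (nI T + 1)).biUnion (Bl η T), p.Prime := by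
    intro p hp
    rw [mem_biUnion] at hp
    obtain ⟨i, hi, hpi⟩ := hp
    exact hBl.1 i hi p hpi
  set V : Finset (ℕ → ℕ) := VK (nI T + 1) (Bl η T) (fun i => m * Kb C1 i) with hV
  set q : (ℕ → ℕ) → ℕ := nQ (nI T + 1) (Bl η T) with hq
  have hsz : ∀ u ∈ V, 1 ≤ q u ∧ (q u : ℝ) ≤ Y := by
    intro u hu
    refine ⟨?_, ?_⟩
    · rw [hq]
      unfold nQ nn
      refine Nat.one_le_iff_ne_zero.2 (prod_ne_zero_iff.2 fun p hp => ?_)
      exact pow_ne_zero _ (hpr p hp).ne_zero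
    · have h1 := hS1T u hu
      rw [hY]
      refine h1.trans (le_of_eq ?_)
      congr 1
      ring
  have hone : ∀ S : Finset ℕ,
      ∫ t in T..(2 * T), ‖riemannZeta (1 / 2 + t * I)‖ ^ 2 * ‖AZ k m C1 η S T t‖ ^ 2 ≤
      100 * T * (((1 + |c1|) * CQ + CQ) * Real.log T ^ (k ^ 2)) *
        (∏ i ∈ range (nI T + 1) \ S, Real.exp (-(Kb C1 i : ℝ))) +
      CT * (T ^ (1 / 2 : ℝ) * (1 + Real.log T) ^ 2) := by
    intro S
    set c : (ℕ → ℕ) → ℝ := cf (nI T + 1) (Bl η T) (fZ k m C1 S) with hc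
    set PS : ℝ := ∏ i ∈ range (nI T + 1) \ S, Real.exp (-(Kb C1 i : ℝ)) with hPS
    have hPS0 : 0 ≤ PS := prod_nonneg fun i _ => (Real.exp_pos _).le
    have hTs2 := hTs T Y (ℕ → ℕ) V q c (by linarith) hY1 hY2 hsz
    have e0 : (∫ t in T..(2 * T), ‖riemannZeta (1 / 2 + t * I)‖ ^ 2 *
        ‖AZ k m C1 η S T t‖ ^ 2) = ∫ t in T..(2 * T), ‖riemannZeta (1 / 2 + t * I)‖ ^ 2 *
          ‖∑ i ∈ V, (c i : ℂ) * pw (1 / 2) (q i) t‖ ^ 2 := by
      refine intervalIntegral.integral_congr fun t _ => ?_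
      rw [utz_exp hExd k m C1 η S T t hBl]
    rw [e0]
    refine hTs2.trans ?_
    obtain ⟨hQ1, hQ2⟩ := hQT S
    -- the main term
    have hmain : 100 * T * (∑ i ∈ V, ∑ j ∈ V, c i * c j *
          ((Nat.gcd (q i) (q j) : ℝ) / (q i * q j)) *
          (Real.log T - Real.log (q i * q j / (Nat.gcd (q i) (q j) : ℝ) ^ 2) + c1)) ≤
        100 * T * (((1 + |c1|) * CQ + CQ) * Real.log T ^ (k ^ 2)) * PS := by
      rw [mul_assoc (100 * T)]
      refine mul_le_mul_of_nonneg_left ?_ (by positivity)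
      have e1 : (∑ i ∈ V, ∑ j ∈ V, c i * c j *
          ((Nat.gcd (q i) (q j) : ℝ) / (q i * q j)) *
          (Real.log T - Real.log (q i * q j / (Nat.gcd (q i) (q j) : ℝ) ^ 2) + c1)) =
        (Real.log T + c1) * (∑ u ∈ V, ∑ v ∈ V, c u * c v *
          ((Nat.gcd (q u) (q v) : ℝ) / (q u * q v))) -
        ∑ u ∈ V, ∑ v ∈ V, c u * c v * ((Nat.gcd (q u) (q v) : ℝ) / (q u * q v)) *
          Real.log (q u * q v / (Nat.gcd (q u) (q v) : ℝ) ^ 2) := by
        rw [mul_sum, ← sum_sub_distrib]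
        refine sum_congr rfl fun u _ => ?_
        rw [mul_sum, ← sum_sub_distrib]
        refine sum_congr rfl fun v _ => ?_
        ring
      rw [e1]
      have hp1 : Real.log T * Real.log T ^ (k ^ 2 - 1) = Real.log T ^ (k ^ 2) := by
        have h1 : Real.log T ^ (1 : ℝ) * Real.log T ^ (k ^ 2 - 1) = Real.log T ^ (k ^ 2) := by
          rw [← Real.rpow_add (by linarith)]
          congr 1
          ring
        rwa [Real.rpow_one] at h1
      have h2 : |Real.log T + c1| ≤ (1 + |c1|) * Real.log T := by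
        refine (abs_add_le _ _).trans ?_
        rw [abs_of_pos (by linarith : 0 < Real.log T)]
        nlinarith [abs_nonneg c1]
      refine (sub_le_sub ((le_abs_self _).trans (le_of_eq (abs_mul _ _)))
        (neg_le_of_abs_le hQ2)).trans ?_
      rw [sub_neg_eq_add]
      have h3 : |Real.log T + c1| * |∑ u ∈ V, ∑ v ∈ V, c u * c v *
          ((Nat.gcd (q u) (q v) : ℝ) / (q u * q v))| ≤
          (1 + |c1|) * Real.log T * (CQ * Real.log T ^ (k ^ 2 - 1) * PS) :=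
        mul_le_mul h2 hQ1 (abs_nonneg _) (by positivity)
      refine (add_le_add h3 le_rfl).trans (le_of_eq ?_)
      rw [← hp1]
      ring
    -- the error term
    have hsum : ∑ u ∈ V, |c u| ≤ T ^ (6 * (η * m * C1)) := by
      have h1 := hS3T (fZ k m C1 S) (fun i r => utz_fZ hk hC12 S i r)
      refine h1.trans (le_of_eq ?_)
      congr 1
      ring
    have herr : CT * Y ^ 3 * (1 + Real.log T) ^ 2 * (∑ u ∈ V, |c u|) ^ 2 ≤
        CT * (T ^ (1 / 2 : ℝ) * (1 + Real.log T) ^ 2) := by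
      have h1 : (∑ u ∈ V, |c u|) ^ 2 ≤ (T ^ (6 * (η * m * C1))) ^ 2 :=
        pow_le_pow_left₀ (sum_nonneg fun _ _ => abs_nonneg _) hsum 2
      have h2 : Y ^ 3 * (T ^ (6 * (η * m * C1))) ^ 2 ≤ T ^ (1 / 2 : ℝ) := by
        rw [hY, ← Real.rpow_natCast, ← Real.rpow_mul hT0.le, ← Real.rpow_natCast,
          ← Real.rpow_mul hT0.le, ← Real.rpow_add hT0]
        refine Real.rpow_le_rpow_of_exponent_le hT1 ?_
        push_cast
        linarith
      calc CT * Y ^ 3 * (1 + Real.log T) ^ 2 * (∑ u ∈ V, |c u|) ^ 2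
          ≤ CT * Y ^ 3 * (1 + Real.log T) ^ 2 * (T ^ (6 * (η * m * C1))) ^ 2 :=
            mul_le_mul_of_nonneg_left h1 (by positivity)
        _ = CT * ((Y ^ 3 * (T ^ (6 * (η * m * C1))) ^ 2) * (1 + Real.log T) ^ 2) := by ring
        _ ≤ CT * (T ^ (1 / 2 : ℝ) * (1 + Real.log T) ^ 2) := by
            refine mul_le_mul_of_nonneg_left ?_ hCT.le
            exact mul_le_mul_of_nonneg_right h2 (by positivity)
    exact add_le_add hmain herr
  -- the sum over `S`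
  have hcard : ((#(range (nI T + 1)).powerset : ℕ) : ℝ) ≤ 8 * (1 + Real.log T) ^ 2 := by
    refine (utz_card hnI).trans ?_
    have := pow_le_pow_left₀ hl0 hlL 2
    linarith
  have hE : (1 + Real.log T) ^ 4 ≤ T ^ (1 / 2 : ℝ) := by
    have h4 : (1 + Real.log T) ^ 4 ≤ (T ^ (1 / 16 : ℝ)) ^ 4 :=
      pow_le_pow_left₀ (by linarith) hlogT 4
    refine h4.trans ?_
    rw [← Real.rpow_natCast, ← Real.rpow_mul hT0.le]
    refine Real.rpow_le_rpow_of_exponent_le hT1 ?_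
    norm_num
  have hA0 : 0 ≤ 100 * T * (((1 + |c1|) * CQ + CQ) * Real.log T ^ (k ^ 2)) := by positivity
  have hE0 : 0 ≤ CT * (T ^ (1 / 2 : ℝ) * (1 + Real.log T) ^ 2) := by positivity
  refine (Finset.sum_le_sum fun S _ => hone S).trans ?_
  rw [Finset.sum_add_distrib, ← Finset.mul_sum, Finset.sum_const, nsmul_eq_mul]
  have h1 : 100 * T * (((1 + |c1|) * CQ + CQ) * Real.log T ^ (k ^ 2)) *
      ∑ S ∈ (range (nI T + 1)).powerset,
        ∏ i ∈ range (nI T + 1) \ S, Real.exp (-(Kb C1 i : ℝ)) ≤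
      100 * T * (((1 + |c1|) * CQ + CQ) * Real.log T ^ (k ^ 2)) * Real.exp 1 :=
    mul_le_mul_of_nonneg_left (utz_sum hC12 _) hA0
  have h2 : ((#(range (nI T + 1)).powerset : ℕ) : ℝ) *
      (CT * (T ^ (1 / 2 : ℝ) * (1 + Real.log T) ^ 2)) ≤
      8 * CT * (T * Real.log T ^ (k ^ 2)) := by
    calc ((#(range (nI T + 1)).powerset : ℕ) : ℝ) *
        (CT * (T ^ (1 / 2 : ℝ) * (1 + Real.log T) ^ 2))
        ≤ (8 * (1 + Real.log T) ^ 2) * (CT * (T ^ (1 / 2 : ℝ) * (1 + Real.log T) ^ 2)) :=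
          mul_le_mul_of_nonneg_right hcard hE0
      _ = 8 * CT * (T ^ (1 / 2 : ℝ) * (1 + Real.log T) ^ 4) := by ring
      _ ≤ 8 * CT * (T ^ (1 / 2 : ℝ) * T ^ (1 / 2 : ℝ)) := by
          refine mul_le_mul_of_nonneg_left ?_ (by positivity)
          exact mul_le_mul_of_nonneg_left hE (by positivity)
      _ = 8 * CT * (T * 1) := by rw [hT12, mul_one]
      _ ≤ 8 * CT * (T * Real.log T ^ (k ^ 2)) := by gcongr
  refine (add_le_add h1 h2).trans (le_of_eq ?_)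
  ring

end Pool.Agent.Lib.MP_aa9ae4_nt.U1
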