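import Pool.Agent.Lib.MP_aa9ae4_nt.L1.Main
import Pool.Agent.Lib.MP_aa9ae4_nt.U1.PUpt
import Pool.Agent.Lib.MP_aa9ae4_nt.U1.PUpd
import Pool.Agent.Lib.MP_aa9ae4_nt.U1.PUqb
import Pool.Agent.Lib.MP_aa9ae4_nt.U1.PUqf
import Pool.Agent.Lib.MP_aa9ae4_nt.U1.PUtz
import Pool.Agent.Lib.MP_aa9ae4_nt.U1.PUps
import Pool.Agent.Lib.MP_aa9ae4_nt.U1.PUho
import Pool.Agent.Lib.MP_aa9ae4_nt.U1.PUT
import Pool.Agent.Lib.MP_aa9ae4_nt.U1.PU1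

/-! Assembly of Theorem U: upper bounds of the conjectured order for `0 < k < 1`. -/

namespace Pool.Agent.Lib.MP_aa9ae4_nt.U1

open Pool.Agent.Lib.MP_aa9ae4_nt.L1

theorem mUqf : S_Uqf := pUqf pBk pFac pQfb pUqb pMt

theorem mUtz : S_Utz := pUtz pBk mSz2 pExd mTsm mUqf

theorem mUps : S_Ups :=
  pUps pBk (pPsl pBk mSz2 (pBlq pBk) (pTwm pExd (pDia pExd)))
    (pWeg (pWxg pWsg)) (pM4 pBk mSz2 (pMsq pExd)) (pWsm pBk) pFz pMt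

theorem mUho : S_Uho := pUho pMt (pUpd pUpt) mUtz mUps

theorem mUT : S_UT := pUT (pGs pMt) mUho

theorem mU1 : S_U1 := pU1 mUT

end Pool.Agent.Lib.MP_aa9ae4_nt.U1
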