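import Mathlib
import Pool.Agent.Lib.MP_aa9ae4_nt.U1.SpecU
import Pool.Agent.Lib.MP_aa9ae4_nt.Final

/-!
MP_aa9ae4_nt, Theorem U for `σ = 1`.
-/

namespace Pool.Agent.Lib.MP_aa9ae4_nt.U1

open Finset MeasureTheory Filter Topology
open Complex (I)
open Pool.Agent.Lib.MP_aa9ae4_nt.L1

/-- powers of the zeta function on the one line -/
private theorem pu1_pow (a γ : ℝ) (ha : 0 < a) : ∃ K r : ℝ, 0 < K ∧ ∀ᶠ T : ℝ in atTop,
    ∀ t ∈ Set.Icc T (2 * T), ‖fz a t‖ ^ (-γ) ≤ K * (Real.log T) ^ r := by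
  obtain ⟨Cu, hCu, hup⟩ := zeta_one_upper
  obtain ⟨cl, hcl, hlow⟩ := zeta_one_lower
  set g := |γ| with hg
  have hg0 : 0 ≤ g := abs_nonneg γ
  set A := (Cu + cl⁻¹ + 1) with hA
  have hApos : 0 < A := by positivity
  refine ⟨A ^ g * 4 ^ (7 * g), 7 * g, by positivity, ?_⟩
  filter_upwards [fin_log_mul a ha, Real.tendsto_log_atTop.eventually_ge_atTop 8,
    (tendsto_id.const_mul_atTop ha).eventually_ge_atTop 2, eventually_ge_atTop (1 : ℝ)] with
    T hT h8 hT2 hT1 t ht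
  simp only [id] at hT2
  have ht1 : 1 ≤ t := hT1.trans ht.1
  set x := Real.log T with hx
  have hx0 : 0 < x := by linarith
  have hat : 2 ≤ a * t := hT2.trans (mul_le_mul_of_nonneg_left ht.1 ha.le)
  -- logarithm of `a t`
  have hlogat0 : 0 < Real.log (a * t) := Real.log_pos (by linarith)
  have hlogat : Real.log (a * t) ≤ 4 * x := by
    have h1 : Real.log (a * t) ≤ Real.log (2 * (a * T)) := by
      apply Real.log_le_log (by linarith)
      have := mul_le_mul_of_nonneg_left ht.2 ha.le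
      linarith
    rw [Real.log_mul (x := 2) (y := a * T) (by norm_num) (by linarith)] at h1
    have h2 : Real.log 2 ≤ 1 := by
      have := Real.log_two_lt_d9
      linarith
    linarith [hT.2]
  -- zeta on the one line
  have hZu := hup (a * t) hat
  have hZl := hlow (a * t) hat
  have hfz : ‖fz a t‖ = ‖riemannZeta (1 + ((a * t : ℝ) : ℂ) * I)‖ := rfl
  rw [← hfz] at hZu hZl
  have h4x : 1 ≤ 4 * x := by linarith
  have hb : |Real.log ‖fz a t‖| ≤ Real.log (A * (4 * x) ^ (7 : ℝ)) := by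
    have hp7 : 1 ≤ (4 * x) ^ (7 : ℝ) := Real.one_le_rpow h4x (by norm_num)
    have hx7 : 4 * x ≤ (4 * x) ^ (7 : ℝ) := by
      calc 4 * x = (4 * x) ^ (1 : ℝ) := (Real.rpow_one _).symm
        _ ≤ (4 * x) ^ (7 : ℝ) := Real.rpow_le_rpow_of_exponent_le h4x (by norm_num)
    rw [abs_le]
    constructor
    · rw [neg_le, ← Real.log_inv]
      apply Real.log_le_log (inv_pos.mpr (fin_fz_pos a t))
      rw [inv_le_comm₀ (fin_fz_pos a t) (by positivity)]
      refine le_trans ?_ hZl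
      have h1 : (4 * x) ^ (-7 : ℝ) ≤ Real.log (a * t) ^ (-7 : ℝ) :=
        Real.rpow_le_rpow_of_nonpos hlogat0 hlogat (by norm_num)
      have h2 : (A * (4 * x) ^ (7 : ℝ))⁻¹ ≤ cl * (4 * x) ^ (-7 : ℝ) := by
        rw [mul_inv, ← Real.rpow_neg (by linarith)]
        apply mul_le_mul_of_nonneg_right _ (by positivity)
        rw [inv_le_comm₀ hApos hcl, hA]
        linarith
      exact h2.trans (mul_le_mul_of_nonneg_left h1 hcl.le)
    · apply Real.log_le_log (fin_fz_pos a t)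
      calc ‖fz a t‖ ≤ Cu * Real.log (a * t) := hZu
        _ ≤ A * (4 * x) ^ (7 : ℝ) := by
          apply mul_le_mul _ (hlogat.trans hx7) hlogat0.le hApos.le
          rw [hA]
          have : 0 < cl⁻¹ := inv_pos.mpr hcl
          linarith
  have h1 := sp_rpow_le _ (-γ) _ (fin_fz_pos a t) hb
  rw [abs_neg, ← hg, mul_comm, Real.exp_mul, Real.exp_log (by positivity),
    Real.mul_rpow hApos.le (by positivity), ← Real.rpow_mul (by linarith)] at h1
  refine h1.trans (le_of_eq ?_)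
  rw [Real.mul_rpow (by norm_num) hx0.le]
  ring

theorem pU1 (hUT : S_UT) : S_U1 := by
  intro k a β hk0 hk1 ha
  obtain ⟨C, δ, hC, hδ, h⟩ := hUT k 1 a β hk0 hk1 (by norm_num) le_rfl ha
  refine ⟨C, hC, ?_⟩
  obtain ⟨K, r, hK, hpow⟩ := pu1_pow a (2 * k * β) ha
  have hlog : ∀ᶠ T : ℝ in atTop, K * (Real.log T) ^ r ≤ T ^ δ := by
    have h1 := (isLittleO_log_rpow_rpow_atTop r hδ).bound (c := K⁻¹) (inv_pos.2 hK)
    filter_upwards [h1, eventually_gt_atTop (1 : ℝ)] with T hT hT1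
    have hl : 0 < Real.log T := Real.log_pos hT1
    rw [Real.norm_of_nonneg (Real.rpow_nonneg hl.le _), Real.norm_of_nonneg
      (Real.rpow_nonneg (by linarith) _)] at hT
    calc K * Real.log T ^ r ≤ K * (K⁻¹ * T ^ δ) := mul_le_mul_of_nonneg_left hT hK.le
      _ = T ^ δ := by rw [← mul_assoc, mul_inv_cancel₀ hK.ne', one_mul]
  filter_upwards [h (fun T => T ^ δ) (Eventually.of_forall fun T => le_rfl), hpow, hlog,
    eventually_gt_atTop (1 : ℝ)] with T hT hp hl hT1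
  refine le_trans (le_of_eq ?_) hT
  refine intervalIntegral.integral_congr fun t ht => ?_
  rw [Set.uIcc_of_le (by linarith)] at ht
  have hy : ‖riemannZeta (1 + a * t * I)‖ = ‖fz a t‖ := by
    unfold fz
    push_cast
    rfl
  have hy' : ‖riemannZeta (((1 : ℝ) : ℂ) + a * t * I)‖ = ‖fz a t‖ := by
    rw [Complex.ofReal_one, hy]
  have hpos := fin_fz_pos a t
  have hm : min (‖fz a t‖ ^ (-(2 * k * β))) (T ^ δ) = ‖fz a t‖ ^ (-(2 * k * β)) :=
    min_eq_left ((hp t ht).trans hl)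
  beta_reduce
  rw [hy, hy', hm, Real.div_rpow (norm_nonneg _) (Real.rpow_nonneg hpos.le _), ← Real.rpow_mul hpos.le,
    Real.rpow_neg hpos.le, div_eq_mul_inv]
  congr 3
  ring

end Pool.Agent.Lib.MP_aa9ae4_nt.U1
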